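import Pool.Agent.Helper84.MVA.Summ

/-!
MV-A14 (incidence matrix of a configuration).

PROOF of `P_mul`: `∑_e #{h : face h = cface c b, edge h = e} * l e = ∑_h [face h = cface c b] l (edge h)`
(`Finset.card_eq_sum_ones`/`sum_boole`, exchange the sums).
PROOF of `P_col`: every face `f` is `cface c b` for exactly one pair `(c, b)`: `c = cyc β f`, since
`cface c false = c.rep`, `cface c true = β c.rep ≠ c.rep` (`hβ`), and the cycle of `c.rep` under the
involution `β` is `{c.rep, β c.rep}`.  So `∑_c (P c false e + P c true e) = #{h : edge h = e}`, and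
`{h : edge h = e}` has exactly two elements `e.rep`, `τ e.rep` (`hτ`).
PROOF of `conf_sum`: the two sides are sums over the same set of triples.
`{D1 : TD (HK K) // ∀ h, D1.τ h ≠ h} ≃ Σ τ : {τ // IsPairing τ}, (Cyc τ → ℕ+)`
(`D1.ℓ h = l (cyc τ h)`), `Conf σ ≃ Σ τ : {τ // IsPairing τ}, {β // IsPairing β}`,
`ENNReal.tsum_sigma'`, `ENNReal.tsum_comm`, `tsum_fintype`.
-/

namespace Pool.Agent.Helper84.MVA

open Pool.Agent.Helper60.MV Finset

private theorem sameCycle_pairing {H : Type} {τ : Equiv.Perm H} (hτ : IsPairing τ) {x y : H}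
    (h : τ.SameCycle x y) : y = x ∨ y = τ x := by
  obtain ⟨k, rfl⟩ := h
  have h2 : τ ^ (2 : ℤ) = 1 := by
    ext z
    simp [zpow_ofNat, pow_two, hτ.invol]
  rcases Int.even_or_odd' k with ⟨j, hj | hj⟩
  · left
    rw [hj, zpow_mul, h2, one_zpow]
    rfl
  · right
    rw [hj, zpow_add, zpow_mul, h2, one_zpow, one_mul, zpow_one]

private theorem cyc_eq_pairing {H : Type} {τ : Equiv.Perm H} (hτ : IsPairing τ) {h : H}
    {c : Cyc τ} : cyc τ h = c ↔ h = c.rep ∨ h = τ c.rep := by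
  constructor
  · intro e
    rw [← cyc_rep c] at e
    exact sameCycle_pairing hτ (cyc_eq_iff.1 e).symm
  · rintro (e | e)
    · rw [e, cyc_rep]
    · rw [e, cyc_apply, cyc_rep]

private theorem card_edge {H : Type} [Fintype H] {τ : Equiv.Perm H} (hτ : IsPairing τ)
    (c : Cyc τ) : (∑ h : H, if cyc τ h = c then 1 else 0) = 2 := by
  classical
  have h1 : ∀ h : H, (if cyc τ h = c then 1 else 0) =
      (if h = c.rep then 1 else 0) + (if h = τ c.rep then 1 else 0) := by
    intro h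
    have hne := hτ.fpf c.rep
    by_cases h1 : h = c.rep
    · have h2 : h ≠ τ c.rep := fun e => hne (e.symm.trans h1)
      rw [if_pos (cyc_eq_pairing hτ |>.2 (Or.inl h1)), if_pos h1, if_neg h2]
    · by_cases h2 : h = τ c.rep
      · rw [if_pos (cyc_eq_pairing hτ |>.2 (Or.inr h2)), if_neg h1, if_pos h2]
      · rw [if_neg (fun e => ((cyc_eq_pairing hτ).1 e).elim h1 h2), if_neg h1, if_neg h2]
  simp only [h1, Finset.sum_add_distrib, Finset.sum_ite_eq', Finset.mem_univ, if_true]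

private theorem cyl_count {F : Type} [Fintype F] [DecidableEq F] {β : Equiv.Perm F} (hβ : IsPairing β) (f : F) :
    (∑ c : Cyc β, ((if f = c.rep then 1 else 0) + (if f = β c.rep then 1 else 0)) : ℕ) = 1 := by
  classical
  have h1 : ∀ c : Cyc β, ((if f = c.rep then 1 else 0) + (if f = β c.rep then 1 else 0) : ℕ) =
      if cyc β f = c then 1 else 0 := by
    intro c
    have hne := hβ.fpf c.rep
    by_cases h1 : f = c.rep
    · have h2 : f ≠ β c.rep := fun e => hne (e.symm.trans h1)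
      rw [if_pos (cyc_eq_pairing hβ |>.2 (Or.inl h1)), if_pos h1, if_neg h2]
    · by_cases h2 : f = β c.rep
      · rw [if_pos (cyc_eq_pairing hβ |>.2 (Or.inr h2)), if_neg h1, if_pos h2]
      · rw [if_neg (fun e => ((cyc_eq_pairing hβ).1 e).elim h1 h2), if_neg h1, if_neg h2]
  simp only [h1, Finset.sum_ite_eq, Finset.mem_univ, if_true]

private theorem P_eq {H : Type} [Fintype H] {σ : Equiv.Perm H} (R : Conf σ) (c : R.Cyl)
    (b : Bool) (e : R.Edge) :
    R.P c b e = ∑ h : H, if R.face h = R.cface c b then (if R.edge h = e then 1 else 0) else 0 := by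
  classical
  unfold Conf.P
  rw [Finset.card_filter]
  refine Finset.sum_congr rfl fun h _ => ?_
  by_cases h1 : R.face h = R.cface c b <;> by_cases h2 : R.edge h = e <;> simp [h1, h2]

theorem P_mul {H : Type} [Fintype H] {σ : Equiv.Perm H} (R : Conf σ) (c : R.Cyl) (b : Bool)
    (l : R.Edge → ℕ) : ∑ e, R.P c b e * l e = R.per l (R.cface c b) := by
  classical
  simp only [P_eq, Finset.sum_mul]
  rw [Finset.sum_comm]
  unfold Conf.per
  refine Finset.sum_congr rfl fun h _ => ?_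
  by_cases h1 : R.face h = R.cface c b
  · simp [h1]
  · simp [h1]

theorem P_col {H : Type} [Fintype H] {σ : Equiv.Perm H} (R : Conf σ) (e : R.Edge) :
    ∑ c, (R.P c false e + R.P c true e) = 2 := by
  classical
  have key : ∀ h : H, (∑ c : R.Cyl,
      ((if R.face h = R.cface c false then (if R.edge h = e then 1 else 0) else 0) +
        (if R.face h = R.cface c true then (if R.edge h = e then 1 else 0) else 0)) : ℕ) =
      if R.edge h = e then 1 else 0 := by
    intro h
    by_cases h1 : R.edge h = e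
    · simp only [h1, if_true]
      have := cyl_count R.hβ (R.face h)
      simpa [Conf.cface] using this
    · simp [h1]
  simp only [P_eq, ← Finset.sum_add_distrib]
  rw [Finset.sum_comm]
  simp only [key]
  exact card_edge R.hτ e

/-- the first tower of a pairing and a length function -/
def mkTD {ρ : Type} {K : ρ → ℕ} (τ : Equiv.Perm (HK K)) (hτ : IsPairing τ) (l : Cyc τ → ℕ+) :
    TD (HK K) where
  τ := τ
  ℓ := fun h => l (cyc τ h)
  inv := hτ.invol
  pos := fun h => (l (cyc τ h)).pos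
  sym := fun h => by rw [cyc_apply]

/-- sum over first towers and pairings = sum over configurations and length functions -/
theorem conf_sum {ρ : Type} [Fintype ρ] {K : ρ → ℕ}
    (G : (τ : Equiv.Perm (HK K)) → (hτ : IsPairing τ) → (β : Equiv.Perm (Cyc (rot K * τ))) →
      (hβ : IsPairing β) → (HK K → ℕ) → ENNReal) :
    (∑' D1 : {D1 : TD (HK K) // ∀ h, D1.τ h ≠ h},
      ∑' β : {β : Equiv.Perm (Cyc (rot K * D1.1.τ)) // IsPairing β},
        G D1.1.τ ⟨D1.1.inv, D1.2⟩ β.1 β.2 D1.1.ℓ) =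
    ∑ R : Conf (rot K), ∑' l : R.Edge → ℕ+, G R.τ R.hτ R.β R.hβ (fun h => (l (R.edge h) : ℕ)) := by
  classical
  let E1 : {D1 : TD (HK K) // ∀ h, D1.τ h ≠ h} ≃
      Σ τ : {τ : Equiv.Perm (HK K) // IsPairing τ}, (Cyc τ.1 → ℕ+) :=
    { toFun := fun D1 => ⟨⟨D1.1.τ, ⟨D1.1.inv, D1.2⟩⟩, fun c => ⟨D1.1.ℓ c.rep, D1.1.pos _⟩⟩
      invFun := fun p => ⟨mkTD p.1.1 p.1.2 p.2, p.1.2.fpf⟩
      left_inv := by
        rintro ⟨D1, h1⟩
        refine Subtype.ext ?_
        refine TD.ext rfl ?_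
        funext h
        show D1.ℓ (cyc D1.τ h).rep = D1.ℓ h
        rcases (cyc_eq_pairing (τ := D1.τ) ⟨D1.inv, h1⟩).1 (rfl : cyc D1.τ h = _) with e | e
        · rw [← e]
        · conv_rhs => rw [e]
          rw [D1.sym]
      right_inv := by
        rintro ⟨⟨τ, hτ⟩, l⟩
        have : (fun c : Cyc τ => (⟨((l (cyc τ c.rep) : ℕ+) : ℕ), (l (cyc τ c.rep)).pos⟩ : ℕ+)) =
            l := by
          funext c
          rw [cyc_rep]
          rfl
        show (⟨⟨τ, hτ⟩, fun c : Cyc τ =>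
          (⟨((l (cyc τ c.rep) : ℕ+) : ℕ), (l (cyc τ c.rep)).pos⟩ : ℕ+)⟩ :
          Σ τ : {τ : Equiv.Perm (HK K) // IsPairing τ}, (Cyc τ.1 → ℕ+)) = ⟨⟨τ, hτ⟩, l⟩
        rw [this] }
  let E2 : Conf (rot K) ≃ Σ τ : {τ : Equiv.Perm (HK K) // IsPairing τ},
      {β : Equiv.Perm (Cyc (rot K * τ.1)) // IsPairing β} :=
    { toFun := fun R => ⟨⟨R.τ, R.hτ⟩, ⟨R.β, R.hβ⟩⟩
      invFun := fun p => ⟨p.1.1, p.1.2, p.2.1, p.2.2⟩
      left_inv := fun R => rfl
      right_inv := fun p => rfl }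
  rw [← E1.symm.tsum_eq, ENNReal.tsum_sigma']
  rw [← tsum_fintype (L := SummationFilter.unconditional _), ← E2.symm.tsum_eq, ENNReal.tsum_sigma']
  refine tsum_congr fun τ => ?_
  exact ENNReal.tsum_comm (f := fun (l : Cyc τ.1 → ℕ+)
    (β : {β : Equiv.Perm (Cyc (rot K * τ.1)) // IsPairing β}) =>
      G τ.1 τ.2 β.1 β.2 (fun h => (l (cyc τ.1 h) : ℕ)))

end Pool.Agent.Helper84.MVA
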