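import Pool.Agent.Helper84.MVA.FaceEq

/-!
MV-A12 (connectedness).  `D.toConf` is the configuration of a double tower.

PROOF of `Cn_iff`.  Write `~` for `Relation.EqvGen` of the relation in `Conf.Conn`.
(=>) Define `q : D.X → HK K`, `q (pt (pt h j) k) = h` (`p.1.1.1.1`).  For each of the generators
`g ∈ {a, io, b}` and all `p`: `q (g p) ~ q p`:
 * `io (pt y k) = pt (τ₂ y) _`; if `y = pt h j`, `τ₂ y = pt h' j'`, then
   `faceEq (face h') = cyc lY (τ₂ y) = glBeta (cyc lY y) = glBeta (faceEq (face h))`, so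
   `face h' = β (face h)` by definition of `toConf.β`: a generator of `~`.
 * `b (base (pt h j)) = base (al (pt h j))`, `al (pt h j) = pt (τ₁ h) _`, and `h ~ τ₁ h`;
   `b (pt y k)`, `k ≠ 0`, is `pt (τ₂ y) _` as for `io`.
 * `a = l * io`, and `l (pt (pt h j) k) = pt (lY (pt h j)) k`, `lY (pt h j) = pt h (j+1)` or
   `base (rot K (τ₁ h))`: `h ~ τ₁ h ~ rot K (τ₁ h)`.
 By `Subgroup.closure_induction` `q (g p) ~ q p` for all `g` in the closure (inverse: symmetric).
 Given `h, h'`, apply it to `base (base h)`, `base (base h')`.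
(<=) Let `G` be the closure and `p ≈ p'` iff `∃ g ∈ G, g p = p'` (an equivalence relation).
 `D.l ∈ G` (`D.l = D.a * D.io` since `D.io * D.io = 1`).
 * `pt y k ≈ base y`: induction on `k`, `pt y (k+1) = b (io (pt y k))` (`TD.ga_al_pt`).
 * `base (pt h j) ≈ base (base h)`: `lY (pt h j) = pt h (j+1)`, `D.l (base y) = base (lY y)`.
 * `base (base h) ≈ base (base (τ₁ h))`: `b (base (base h)) = base (al (base h)) =
   base (pt (τ₁ h) (ℓ h - 1))`.
 * `base (base h) ≈ base (base (rot K h))`: `l (b (base (base h))) = base (lY (al (base h))) =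
   base (base (rot K h))` (`lY y = ga (al y)`, `al_al`, `ga_base`).
 * if `face h' = β (face h)`: `io (base (base h)) = pt (τ₂ (base h)) _ ≈ base (τ₂ (base h))`; let
   `τ₂ (base h) = pt h'' j`, `≈ base (base h'')`; the cycle of `lY` through `τ₂ (base h)` is
   `glBeta (cyc lY (base h)) = faceEq (β (face h)) = faceEq (face h') = cyc lY (base h')`, so
   `base h' = lY^n (τ₂ (base h))` for some `n : ℤ`, and `D.l^n ∈ G` maps `base y` to
   `base (lY^n y)`.
-/

namespace Pool.Agent.Helper84.MVA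

open Pool.Agent.Helper60.MV Finset

/-- the configuration of a double tower -/
noncomputable def DD.toConf {ρ : Type} {K : ρ → ℕ} (D : DD K) : Conf (rot K) where
  τ := D.D1.τ
  hτ := ⟨D.D1.inv, D.f1⟩
  β := ((faceEq D.D1).trans (glBeta D.f2)).trans (faceEq D.D1).symm
  hβ := ⟨fun f => by
      have := (glBeta_pairing D.f2).invol (faceEq D.D1 f)
      simp only [Equiv.trans_apply, Equiv.apply_symm_apply, this, Equiv.symm_apply_apply],
    fun f => by
      have := (glBeta_pairing D.f2).fpf (faceEq D.D1 f)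
      simp only [Equiv.trans_apply, ne_eq, Equiv.symm_apply_eq]
      exact this⟩

section trans

variable {ρ : Type} {K : ρ → ℕ} (D : DD K)

private theorem faceEq_beta (h : HK K) :
    faceEq D.D1 (D.toConf.β (D.toConf.face h)) =
      glBeta D.f2 (faceEq D.D1 (D.toConf.face h)) := by
  change faceEq D.D1 ((faceEq D.D1).symm (glBeta D.f2 (faceEq D.D1 (D.toConf.face h)))) = _
  rw [Equiv.apply_symm_apply]

private theorem face_tau (y : D.D1.T) :
    D.toConf.face (D.D2.τ y).1.1 = D.toConf.β (D.toConf.face y.1.1) := by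
  apply (faceEq D.D1).injective
  rw [faceEq_beta]
  have e1 : faceEq D.D1 (D.toConf.face (D.D2.τ y).1.1) = cyc (lY D.D1) (D.D2.τ y) :=
    faceEq_cyc D.D1 (D.D2.τ y).1.1 (D.D2.τ y).1.2 (D.D2.τ y).2
  have e2 : faceEq D.D1 (D.toConf.face y.1.1) = cyc (lY D.D1) y :=
    faceEq_cyc D.D1 y.1.1 y.1.2 y.2
  rw [e1, e2, glBeta_cyc]

/-- the half-edge below a square -/
private def qq (p : D.X) : HK K := (show D.D2.T from p).1.1.1.1

/-- the generating relation -/
private def rr (a b : HK K) : Prop :=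
  b = rot K a ∨ b = D.toConf.τ a ∨ D.toConf.face b = D.toConf.β (D.toConf.face a)

private theorem io_rel (p : D.X) : Relation.EqvGen (rr D) (qq D p) (qq D (D.io p)) := by
  obtain ⟨y, k, hk, rfl⟩ := TD.exists_pt (D := D.D2) p
  exact Relation.EqvGen.rel _ _ (Or.inr (Or.inr (face_tau D y)))

private theorem al_fst (y : D.D1.T) : (D.D1.al y).1.1 = D.D1.τ y.1.1 := rfl

private theorem b_rel (p : D.X) : Relation.EqvGen (rr D) (qq D p) (qq D (D.b p)) := by
  obtain ⟨y, k, hk, rfl⟩ := TD.exists_pt (D := D.D2) p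
  by_cases h0 : k = 0
  · subst h0
    have e : D.b (D.D2.pt y 0 hk) = D.D2.base (D.D1.al y) := D.D2.ga_base D.D1.al y
    rw [e]
    exact Relation.EqvGen.rel _ _ (Or.inr (Or.inl rfl))
  · have e : D.b (D.D2.pt y k hk) =
        D.D2.pt (D.D2.τ y) (D.D2.ℓ y - k) (by rw [D.D2.sym]; omega) :=
      D.D2.ga_pt D.D1.al hk h0
    rw [e]
    exact Relation.EqvGen.rel _ _ (Or.inr (Or.inr (face_tau D y)))

private theorem lY_rel (y : D.D1.T) :
    Relation.EqvGen (rr D) y.1.1 (lY D.D1 y).1.1 := by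
  obtain ⟨h, j, hj, rfl⟩ := TD.exists_pt (D := D.D1) y
  by_cases h1 : j + 1 < D.D1.ℓ h
  · have e : lY D.D1 (D.D1.pt h j hj) = D.D1.pt h (j + 1) h1 := lY_pt D.D1 h1
    rw [e]
    exact Relation.EqvGen.refl _
  · have h2 : j + 1 = D.D1.ℓ h := by omega
    have e : lY D.D1 (D.D1.pt h j hj) = D.D1.base ((rot K * D.D1.τ) h) := lY_top D.D1 h2
    rw [e]
    refine Relation.EqvGen.trans _ (D.D1.τ h) _ ?_ ?_
    · exact Relation.EqvGen.rel _ _ (Or.inr (Or.inl rfl))
    · exact Relation.EqvGen.rel _ _ (Or.inl rfl)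

private theorem l_rel (p : D.X) : Relation.EqvGen (rr D) (qq D p) (qq D (D.l p)) := by
  obtain ⟨y, k, hk, rfl⟩ := TD.exists_pt (D := D.D2) p
  exact lY_rel D y

private theorem a_rel (p : D.X) : Relation.EqvGen (rr D) (qq D p) (qq D (D.a p)) :=
  Relation.EqvGen.trans _ _ _ (io_rel D p) (l_rel D (D.io p))

private theorem clos_rel {g : Equiv.Perm D.X}
    (hg : g ∈ Subgroup.closure ({D.a, D.io, D.b} : Set (Equiv.Perm D.X))) :
    ∀ p, Relation.EqvGen (rr D) (qq D p) (qq D (g p)) := by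
  induction hg using Subgroup.closure_induction with
  | mem x hx =>
    intro p
    rcases hx with rfl | rfl | rfl
    · exact a_rel D p
    · exact io_rel D p
    · exact b_rel D p
  | one => intro p; exact Relation.EqvGen.refl _
  | mul x y _ _ h1 h2 =>
    intro p
    exact Relation.EqvGen.trans _ _ _ (h2 p) (h1 (y p))
  | inv x _ h1 =>
    intro p
    have h2 := h1 (x⁻¹ p)
    have e : x (x⁻¹ p) = p := x.apply_symm_apply p
    rw [e] at h2
    exact Relation.EqvGen.symm _ _ h2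

/-- same orbit -/
private def OO (p p' : D.X) : Prop :=
  ∃ g ∈ Subgroup.closure ({D.a, D.io, D.b} : Set (Equiv.Perm D.X)), g p = p'

private theorem OO.rfl' (p : D.X) : OO D p p := ⟨1, Subgroup.one_mem _, rfl⟩

private theorem OO.symm' {p p' : D.X} (h : OO D p p') : OO D p' p := by
  obtain ⟨g, hg, rfl⟩ := h
  exact ⟨g⁻¹, Subgroup.inv_mem _ hg, g.symm_apply_apply p⟩

private theorem OO.trans' {p p' p'' : D.X} (h : OO D p p') (h' : OO D p' p'') : OO D p p'' := by
  obtain ⟨g, hg, rfl⟩ := h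
  obtain ⟨g', hg', rfl⟩ := h'
  exact ⟨g' * g, Subgroup.mul_mem _ hg' hg, rfl⟩

private theorem io_mem :
    D.io ∈ Subgroup.closure ({D.a, D.io, D.b} : Set (Equiv.Perm D.X)) :=
  Subgroup.subset_closure (by simp)

private theorem b_mem :
    D.b ∈ Subgroup.closure ({D.a, D.io, D.b} : Set (Equiv.Perm D.X)) :=
  Subgroup.subset_closure (by simp)

private theorem l_mem :
    D.l ∈ Subgroup.closure ({D.a, D.io, D.b} : Set (Equiv.Perm D.X)) := by
  have e : D.l = D.a * D.io := by
    ext1 p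
    change D.l p = D.l (D.io (D.io p))
    have : D.io (D.io p) = p := D.D2.al_al p
    rw [this]
  rw [e]
  exact Subgroup.mul_mem _ (Subgroup.subset_closure (by simp)) (io_mem D)

private theorem oo_pt (y : D.D1.T) (k : ℕ) (hk : k < D.D2.ℓ y) :
    OO D (D.D2.base y) (D.D2.pt y k hk) := by
  induction k with
  | zero => exact OO.rfl' D _
  | succ k ih =>
    refine OO.trans' D (ih (by omega)) ⟨D.b * D.io, Subgroup.mul_mem _ (b_mem D) (io_mem D), ?_⟩
    exact D.D2.ga_al_pt D.D1.al hk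

private theorem l_zpow_base (n : ℤ) (y : D.D1.T) :
    (D.l ^ n) (D.D2.base y) = D.D2.base (((lY D.D1) ^ n) y) := by
  have h0 : ∀ z, D.l (D.D2.base z) = D.D2.base (lY D.D1 z) := fun z => rfl
  have h1 : ∀ z, D.l⁻¹ (D.D2.base z) = D.D2.base ((lY D.D1)⁻¹ z) := by
    intro z
    have e : lY D.D1 ((lY D.D1)⁻¹ z) = z := (lY D.D1).apply_symm_apply z
    rw [Equiv.Perm.inv_eq_iff_eq, h0, e]
  induction n with
  | zero => rfl
  | succ n ih =>
    rw [add_comm, zpow_add, zpow_add, Equiv.Perm.mul_apply, Equiv.Perm.mul_apply, ih, zpow_one,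
      zpow_one, h0]
  | pred n ih =>
    rw [sub_eq_add_neg, add_comm, zpow_add, zpow_add, Equiv.Perm.mul_apply,
      Equiv.Perm.mul_apply, ih, zpow_neg_one, zpow_neg_one, h1]

private theorem oo_zpow (n : ℤ) (y : D.D1.T) :
    OO D (D.D2.base y) (D.D2.base (((lY D.D1) ^ n) y)) :=
  ⟨D.l ^ n, Subgroup.zpow_mem _ (l_mem D) n, l_zpow_base D n y⟩

private theorem oo_lY (y : D.D1.T) : OO D (D.D2.base y) (D.D2.base (lY D.D1 y)) :=
  ⟨D.l, l_mem D, rfl⟩

private theorem oo_pt1 (h : HK K) (j : ℕ) (hj : j < D.D1.ℓ h) :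
    OO D (D.D2.base (D.D1.base h)) (D.D2.base (D.D1.pt h j hj)) := by
  induction j with
  | zero => exact OO.rfl' D _
  | succ j ih =>
    refine OO.trans' D (ih (by omega)) ?_
    have h1 := oo_lY D (D.D1.pt h j (by omega))
    rw [lY_pt D.D1 hj] at h1
    exact h1

private theorem oo_al (y : D.D1.T) : OO D (D.D2.base y) (D.D2.base (D.D1.al y)) :=
  ⟨D.b, b_mem D, D.D2.ga_base D.D1.al y⟩

private theorem oo_tau (h : HK K) :
    OO D (D.D2.base (D.D1.base h)) (D.D2.base (D.D1.base (D.D1.τ h))) := by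
  have h1 := oo_al D (D.D1.base h)
  refine OO.trans' D h1 (OO.symm' D ?_)
  exact oo_pt1 D (D.D1.τ h) _ _

private theorem oo_rot (h : HK K) :
    OO D (D.D2.base (D.D1.base h)) (D.D2.base (D.D1.base (rot K h))) := by
  refine OO.trans' D (oo_al D (D.D1.base h)) ?_
  have h1 := oo_lY D (D.D1.al (D.D1.base h))
  have e : lY D.D1 (D.D1.al (D.D1.base h)) = D.D1.base (rot K h) := by
    change D.D1.ga (rot K) (D.D1.al (D.D1.al (D.D1.base h))) = _
    rw [D.D1.al_al, D.D1.ga_base]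
  rw [e] at h1
  exact h1

private theorem oo_face (h h' : HK K)
    (hf : D.toConf.face h' = D.toConf.β (D.toConf.face h)) :
    OO D (D.D2.base (D.D1.base h)) (D.D2.base (D.D1.base h')) := by
  have h1 : OO D (D.D2.base (D.D1.base h)) (D.D2.base (D.D2.τ (D.D1.base h))) := by
    refine OO.trans' D (p' := D.io (D.D2.base (D.D1.base h))) ⟨D.io, io_mem D, rfl⟩ ?_
    exact OO.symm' D (oo_pt D _ _ _)
  refine OO.trans' D h1 ?_
  have h2 : cyc (lY D.D1) (D.D2.τ (D.D1.base h)) = cyc (lY D.D1) (D.D1.base h') := by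
    have e1 : faceEq D.D1 (D.toConf.face h') = cyc (lY D.D1) (D.D1.base h') :=
      faceEq_cyc D.D1 h' 0 _
    have e2 : faceEq D.D1 (D.toConf.face h) = cyc (lY D.D1) (D.D1.base h) :=
      faceEq_cyc D.D1 h 0 _
    rw [← e1, hf, faceEq_beta, e2, glBeta_cyc]
  obtain ⟨n, hn⟩ := cyc_eq_iff.1 h2
  have h3 := oo_zpow D n (D.D2.τ (D.D1.base h))
  rw [hn] at h3
  exact h3

private theorem oo_gen {h h' : HK K} (hh : Relation.EqvGen (rr D) h h') :
    OO D (D.D2.base (D.D1.base h)) (D.D2.base (D.D1.base h')) := by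
  induction hh with
  | rel x y h =>
    rcases h with rfl | rfl | h
    · exact oo_rot D x
    · exact oo_tau D x
    · exact oo_face D x y h
  | refl x => exact OO.rfl' D _
  | symm x y _ ih => exact OO.symm' D ih
  | trans x y z _ _ ih1 ih2 => exact OO.trans' D ih1 ih2

end trans

theorem Cn_iff {ρ : Type} [Finite ρ] {K : ρ → ℕ} (D : DD K) : D.Cn ↔ D.toConf.Conn := by
  constructor
  · intro hC h h'
    obtain ⟨g, hg, he⟩ := hC (D.D2.base (D.D1.base h)) (D.D2.base (D.D1.base h'))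
    have h1 := clos_rel D hg (D.D2.base (D.D1.base h))
    rw [he] at h1
    exact h1
  · intro hC p p'
    obtain ⟨y, k, hk, rfl⟩ := TD.exists_pt (D := D.D2) p
    obtain ⟨y', k', hk', rfl⟩ := TD.exists_pt (D := D.D2) p'
    obtain ⟨h, j, hj, rfl⟩ := TD.exists_pt (D := D.D1) y
    obtain ⟨h', j', hj', rfl⟩ := TD.exists_pt (D := D.D1) y'
    have h1 := oo_gen D (hC h h')
    exact OO.trans' D (OO.symm' D (OO.trans' D (oo_pt1 D h j hj) (oo_pt D _ k hk)))
      (OO.trans' D h1 (OO.trans' D (oo_pt1 D h' j' hj') (oo_pt D _ k' hk')))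

end Pool.Agent.Helper84.MVA
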