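import Pool.Agent.Helper84.MVA.Double

/-!
MV-A7 (faces = cycles of `lY` in the first tower).

PROOF of `exists_faceEq`.  `lY (pt h j) = pt h (j+1)` for `j + 1 < ℓ h` (`lY_pt`),
`lY (pt h (ℓ h - 1)) = base (φ h)`, `φ = rot K * D1.τ` (`lY_top`).  So `pt h j = lY^j (base h)`,
and `lY^(ℓ h) (base h) = base (φ h)`.  Hence the map `cyc φ h ↦ cyc lY (base h)` is well defined
(`Quotient.map`; `SameCycle φ h h'`: `h' = φ^n h`, `n : ℤ`; induct, or use finiteness to have
`n : ℕ`), surjective (`cyc lY (pt h j) = cyc lY (base h)`), and injective: if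
`SameCycle lY (base h) (base h')`, then (finite) `base h' = lY^k (base h)`, `k : ℕ`; by strong
induction on `k`: `k = 0` trivial; if `k < ℓ h` then `lY^k (base h) = pt h k` is a base point only if
`k = 0`; else `lY^k (base h) = lY^(k - ℓ h) (base (φ h))`, apply the induction hypothesis to `φ h`.
(Alternatively: the function `pt h j ↦ cyc φ h` on the tower is invariant under `lY`, which gives
the inverse map directly!  This is the easy way: `Quotient.lift`, both maps and the two composites.)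

Cardinality: `{y // cyc lY y = faceEq (cyc φ h0)}` consists of the `pt h j` with
`cyc φ h = cyc φ h0`, `j < ℓ h`: it is in bijection with `Σ h : {h // cyc φ h = f}, Fin (ℓ h)`.
-/

namespace Pool.Agent.Helper84.MVA

open Pool.Agent.Helper60.MV Finset

/-- size of a cycle -/
noncomputable def csz {Y : Type} (l : Equiv.Perm Y) (f : Cyc l) : ℕ :=
  Nat.card {y : Y // cyc l y = f}

private theorem lY_pow {ρ : Type} {K : ρ → ℕ} (D1 : TD (HK K)) (h : HK K) (j : ℕ)
    (hj : j < D1.ℓ h) : cyc (lY D1) (D1.pt h j hj) = cyc (lY D1) (D1.base h) := by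
  induction j with
  | zero => rfl
  | succ j ih =>
    rw [← lY_pt D1 hj, cyc_apply]
    exact ih (by omega)

private theorem base_phi {ρ : Type} {K : ρ → ℕ} (D1 : TD (HK K)) (h : HK K) :
    cyc (lY D1) (D1.base ((rot K * D1.τ) h)) = cyc (lY D1) (D1.base h) := by
  have hp := D1.pos h
  rw [← lY_top D1 (h := h) (j := D1.ℓ h - 1) (by omega), cyc_apply]
  exact lY_pow D1 h _ _

private theorem sameCycle_lift {H Y : Type} (g : Equiv.Perm H) (F : H → Y)
    (hF : ∀ h, F (g h) = F h) {a b : H} (h : g.SameCycle a b) : F a = F b := by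
  obtain ⟨k, rfl⟩ := h
  have h1 : ∀ k : ℤ, ∀ x, F ((g ^ k) x) = F x := by
    intro k
    induction k with
    | zero => intro x; simp
    | succ k ih =>
      intro x
      rw [zpow_add_one, Equiv.Perm.mul_apply, ih, hF]
    | pred k ih =>
      intro x
      rw [zpow_sub_one, Equiv.Perm.mul_apply, ih, ← hF (g⁻¹ x)]
      congr 1
      exact g.apply_symm_apply x
  exact (h1 k a).symm

theorem exists_faceEq {ρ : Type} {K : ρ → ℕ} (D1 : TD (HK K)) :
    ∃ F : Cyc (rot K * D1.τ) ≃ Cyc (lY D1), ∀ h j (hj : j < D1.ℓ h),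
      F (cyc (rot K * D1.τ) h) = cyc (lY D1) (D1.pt h j hj) := by
  have hB : ∀ p : D1.T, cyc (rot K * D1.τ) ((lY D1 p).1.1) = cyc (rot K * D1.τ) p.1.1 := by
    intro p
    obtain ⟨h, j, hj, rfl⟩ := TD.exists_pt p
    by_cases hj' : j + 1 < D1.ℓ h
    · rw [lY_pt D1 hj']
      rfl
    · rw [lY_top D1 (by omega)]
      exact cyc_apply (l := rot K * D1.τ) h
  let A : Cyc (rot K * D1.τ) → Cyc (lY D1) :=
    Quotient.lift (fun h => cyc (lY D1) (D1.base h))
      (fun a b hab => sameCycle_lift _ (fun h => cyc (lY D1) (D1.base h)) (base_phi D1) hab)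
  let B : Cyc (lY D1) → Cyc (rot K * D1.τ) :=
    Quotient.lift (fun p => cyc (rot K * D1.τ) p.1.1)
      (fun a b hab => sameCycle_lift _ (fun p : D1.T => cyc (rot K * D1.τ) p.1.1) hB hab)
  refine ⟨⟨A, B, ?_, ?_⟩, ?_⟩
  · intro c
    obtain ⟨h, rfl⟩ := cyc_surj c
    rfl
  · intro c
    obtain ⟨p, rfl⟩ := cyc_surj c
    obtain ⟨h, j, hj, rfl⟩ := TD.exists_pt p
    exact (lY_pow D1 h j hj).symm
  · intro h j hj
    exact (lY_pow D1 h j hj).symm

/-- faces -/
noncomputable def faceEq {ρ : Type} {K : ρ → ℕ} (D1 : TD (HK K)) :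
    Cyc (rot K * D1.τ) ≃ Cyc (lY D1) := (exists_faceEq D1).choose

theorem faceEq_cyc {ρ : Type} {K : ρ → ℕ} (D1 : TD (HK K)) (h : HK K) (j : ℕ) (hj : j < D1.ℓ h) :
    faceEq D1 (cyc (rot K * D1.τ) h) = cyc (lY D1) (D1.pt h j hj) :=
  (exists_faceEq D1).choose_spec h j hj

theorem csz_faceEq {ρ : Type} [Fintype ρ] {K : ρ → ℕ} (D1 : TD (HK K))
    (f : Cyc (rot K * D1.τ)) :
    csz (lY D1) (faceEq D1 f) =
      ∑ h : HK K, if cyc (rot K * D1.τ) h = f then D1.ℓ h else 0 := by
  classical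
  have e1 : {y : D1.T // cyc (lY D1) y = faceEq D1 f} ≃
      Σ h : {h : HK K // cyc (rot K * D1.τ) h = f}, Fin (D1.ℓ h.1) :=
    { toFun := fun y => ⟨⟨y.1.1.1, by
        obtain ⟨y, hy⟩ := y
        obtain ⟨h, j, hj, rfl⟩ := TD.exists_pt y
        rw [← faceEq_cyc] at hy
        exact (faceEq D1).injective hy⟩, ⟨y.1.1.2, y.1.2⟩⟩
      invFun := fun s => ⟨D1.pt s.1.1 s.2.1 s.2.2, by
        rw [← faceEq_cyc, s.1.2]⟩
      left_inv := fun y => rfl
      right_inv := fun s => rfl }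
  unfold csz
  rw [Nat.card_congr e1, Nat.card_eq_fintype_card, Fintype.card_sigma]
  simp only [Fintype.card_fin]
  rw [← Finset.sum_filter]
  exact (Finset.sum_subtype _ (fun h => by simp) (fun h => D1.ℓ h)).symm

end Pool.Agent.Helper84.MVA
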