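import Pool.Agent.Helper84.MVA.GlueSum
import Pool.Agent.Helper84.MVA.FaceEq

/-!
MV-A15 (the sum over second towers, on the faces of the first tower).

PROOF.  `glue_sum` for `l = lY D1` and `F' g = F (cj D1 g)`; then the bijection
`g ↦ cj D1 g = faceEq⁻¹ g faceEq` between pairings `g` of `Cyc (lY D1)` and pairings `β` of
`Cyc (rot K * D1.τ)` (`Equiv.tsum_eq`); `csz (lY D1) (faceEq f) = pr D1 f` (`csz_faceEq`), so
`csz (g f') = csz f'` for all `f'` iff `pr (β f) = pr f` for all `f`; a sum over the subtype with a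
further condition is the sum of an `ite` (`tsum_subtype`, `Set.indicator`).  The product: `faceEq`
induces a bijection of `Cyc β` with `Cyc g` (`Fintype.prod_equiv`/`Quotient.congr`), and the
size is constant on a cycle of `g` (two representatives of the same cycle have the same size: they are
equal or exchanged by `g`; or: `csz` is invariant under `g` so it is constant on `SameCycle g`).
-/

namespace Pool.Agent.Helper84.MVA

open Pool.Agent.Helper60.MV Finset

/-- perimeter of a face in the first tower -/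
noncomputable def pr {ρ : Type} [Fintype ρ] {K : ρ → ℕ} (D1 : TD (HK K))
    (f : Cyc (rot K * D1.τ)) : ℕ := ∑ h : HK K, if cyc (rot K * D1.τ) h = f then D1.ℓ h else 0

/-- conjugation by `faceEq` -/
noncomputable def cj {ρ : Type} {K : ρ → ℕ} (D1 : TD (HK K)) (g : Equiv.Perm (Cyc (lY D1))) :
    Equiv.Perm (Cyc (rot K * D1.τ)) := ((faceEq D1).trans g).trans (faceEq D1).symm

private theorem tsum_cond {α : Type} (p q : α → Prop) [DecidablePred q] (G : α → ENNReal) :
    ∑' x : {x // p x}, (if q x.1 then G x.1 else 0) = ∑' x : {x // p x ∧ q x}, G x.1 := by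
  classical
  have h1 : ∑' x : {x // p x}, (if q x.1 then G x.1 else 0) =
      ∑' x, ({x | p x} : Set α).indicator (fun x => if q x then G x else 0) x :=
    tsum_subtype ({x | p x} : Set α) (fun x => if q x then G x else 0)
  have h2 : ∑' x : {x // p x ∧ q x}, G x.1 =
      ∑' x, ({x | p x ∧ q x} : Set α).indicator G x :=
    tsum_subtype ({x | p x ∧ q x} : Set α) G
  rw [h1, h2]
  refine tsum_congr fun x => ?_
  by_cases hp : p x <;> by_cases hq : q x <;> simp [Set.indicator, hp, hq]

private theorem cj_zpow {A B : Type} (e : A ≃ B) (g : Equiv.Perm B) (k : ℤ) (a : A) :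
    e ((((e.trans g).trans e.symm : Equiv.Perm A) ^ k) a) = (g ^ k) (e a) := by
  have h : (((e.trans g).trans e.symm : Equiv.Perm A) ^ k) =
      (e.trans (g ^ k)).trans e.symm := by
    have h1 : ∀ f : Equiv.Perm B, (e.trans f).trans e.symm = e.symm.permCongrHom f := by
      intro f
      rfl
    rw [h1, h1, map_zpow]
  rw [h]
  simp

private theorem cj_sameCycle {A B : Type} (e : A ≃ B) (g : Equiv.Perm B) (a b : A) :
    Equiv.Perm.SameCycle ((e.trans g).trans e.symm : Equiv.Perm A) a b ↔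
      g.SameCycle (e a) (e b) := by
  constructor
  · rintro ⟨k, rfl⟩
    exact ⟨k, (cj_zpow e g k a).symm⟩
  · rintro ⟨k, hk⟩
    exact ⟨k, e.injective ((cj_zpow e g k a).trans hk)⟩

private theorem inv_sameCycle {B : Type} {g : Equiv.Perm B} {w : B → ℕ} (hw : ∀ b, w (g b) = w b)
    {a b : B} (h : g.SameCycle a b) : w a = w b := by
  obtain ⟨k, rfl⟩ := h
  have h1 : ∀ k : ℤ, ∀ x, w ((g ^ k) x) = w x := by
    intro k
    induction k with
    | zero => intro x; simp
    | succ k ih =>
      intro x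
      rw [zpow_add_one, Equiv.Perm.mul_apply, ih, hw]
    | pred k ih =>
      intro x
      rw [zpow_sub_one, Equiv.Perm.mul_apply, ih, ← hw (g⁻¹ x)]
      congr 1
      exact g.apply_symm_apply x
  exact (h1 k a).symm

theorem glue_face {ρ : Type} [Fintype ρ] {K : ρ → ℕ} (D1 : TD (HK K)) (t : ℝ) (ht : 0 < t)
    (F : Equiv.Perm (Cyc (rot K * D1.τ)) → ENNReal) :
    ∑' D2 : {D2 : TD D1.T // IsGl (lY D1) D2}, F (cj D1 (glBeta D2.2)) *
      ENNReal.ofReal (Real.exp (-(t * ((Nat.card D2.1.T : ℝ) / 2)))) =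
    ∑' β : {β : Equiv.Perm (Cyc (rot K * D1.τ)) // IsPairing β}, (by
      classical
      exact if ∀ f, pr D1 (β.1 f) = pr D1 f then
        F β.1 * ∏ c : Cyc β.1, ENNReal.ofReal (wt t (pr D1 c.rep)) else 0) := by
  classical
  have : Fintype D1.T := Fintype.ofFinite _
  rw [glue_sum (lY D1) t ht (fun g => F (cj D1 g))]
  have hR := tsum_cond (fun β : Equiv.Perm (Cyc (rot K * D1.τ)) => IsPairing β)
    (fun β => ∀ f, pr D1 (β f) = pr D1 f)
    (fun β => F β * ∏ c : Cyc β, ENNReal.ofReal (wt t (pr D1 c.rep)))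
  refine Eq.trans ?_ (Eq.trans hR.symm ?_)
  swap
  · refine tsum_congr fun β => ?_
    split_ifs <;> rfl
  have hcz : ∀ f, csz (lY D1) (faceEq D1 f) = pr D1 f := fun f => csz_faceEq D1 f
  have hcj : ∀ (g : Equiv.Perm (Cyc (lY D1))) f, faceEq D1 (cj D1 g f) = g (faceEq D1 f) := by
    intro g f
    simp [cj]
  let E : Equiv.Perm (Cyc (lY D1)) ≃ Equiv.Perm (Cyc (rot K * D1.τ)) :=
    (faceEq D1).symm.permCongr
  have hE : ∀ g, E g = cj D1 g := fun g => rfl
  let E' : {β : Equiv.Perm (Cyc (lY D1)) // IsPairing β ∧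
        ∀ f, csz (lY D1) (β f) = csz (lY D1) f} ≃
      {β : Equiv.Perm (Cyc (rot K * D1.τ)) // IsPairing β ∧ ∀ f, pr D1 (β f) = pr D1 f} :=
    E.subtypeEquiv (by
      intro g
      rw [hE]
      constructor
      · rintro ⟨h1, h2⟩
        refine ⟨⟨fun h => ?_, fun h hh => ?_⟩, fun f => ?_⟩
        · apply (faceEq D1).injective
          rw [hcj, hcj, h1.invol]
        · apply h1.fpf (faceEq D1 h)
          rw [← hcj, hh]
        · rw [← hcz, ← hcz, hcj, h2]
      · rintro ⟨h1, h2⟩
        refine ⟨⟨fun h => ?_, fun h hh => ?_⟩, fun f => ?_⟩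
        · obtain ⟨h, rfl⟩ := (faceEq D1).surjective h
          rw [← hcj, ← hcj, h1.invol]
        · obtain ⟨h, rfl⟩ := (faceEq D1).surjective h
          apply h1.fpf h
          apply (faceEq D1).injective
          rw [hcj, hh]
        · obtain ⟨f, rfl⟩ := (faceEq D1).surjective f
          rw [← hcj, hcz, hcz, h2])
  rw [← E'.tsum_eq]
  refine tsum_congr fun β => ?_
  have hE' : (E' β).1 = cj D1 β.1 := rfl
  rw [hE']
  congr 1
  symm
  let ψ : Cyc (cj D1 β.1) ≃ Cyc β.1 :=
    Quotient.congr (faceEq D1) (fun a b => cj_sameCycle (faceEq D1) β.1 a b)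
  refine Fintype.prod_equiv ψ _ _ fun c => ?_
  congr 2
  rw [← hcz]
  refine inv_sameCycle (g := β.1) (w := csz (lY D1)) β.2.2 ?_
  rw [← cyc_eq_iff, cyc_rep]
  have h3 : ψ (cyc (cj D1 β.1) c.rep) = cyc β.1 (faceEq D1 c.rep) := rfl
  rw [← h3, cyc_rep]

end Pool.Agent.Helper84.MVA
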