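import Pool.Agent.Helper84.MVA.Card
import Pool.Agent.Helper84.MVA.Trans
import Pool.Agent.Helper84.MVA.Confs
import Pool.Agent.Helper84.MVA.Transp

/-!
MV-A16: assembly of block A.
-/

namespace Pool.Agent.Helper84.MVA

open Pool.Agent.Helper60.MV Finset

theorem hasSum_of_ofReal {ι : Type} (c : ι → ℝ) (hc : ∀ n, 0 ≤ c n) (S : ℝ) (hS : 0 ≤ S)
    (h : ∑' n, ENNReal.ofReal (c n) = ENNReal.ofReal S) : HasSum c S := by
  have h1 : ∑' n, ENNReal.ofReal (c n) ≠ ⊤ := by rw [h]; exact ENNReal.ofReal_ne_top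
  have h2 := ENNReal.summable_toReal h1
  simp only [ENNReal.toReal_ofReal (hc _)] at h2
  have h3 : ∑' n, c n = S := by
    rw [← ENNReal.ofReal_tsum_of_nonneg hc h2] at h
    exact (ENNReal.ofReal_eq_ofReal_iff (tsum_nonneg hc) hS).1 h
  rw [← h3]
  exact h2.hasSum

theorem even_card {X : Type} [Finite X] (t : Equiv.Perm X) (ht : IsPairing t) :
    Even (Nat.card X) := by
  classical
  have : Fintype X := Fintype.ofFinite X
  rw [Nat.card_eq_fintype_card]
  have h1 : (Finset.univ.filter (fun x => t x ≠ x)) = Finset.univ := by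
    ext x
    simp [ht.fpf x]
  have h2 := Equiv.Perm.two_dvd_card_support (σ := t) (by
    ext x
    simp [pow_two, ht.invol x])
  have h3 : t.support = Finset.univ := by
    ext x
    simp [ht.fpf x]
  rw [h3, Finset.card_univ] at h2
  exact even_iff_two_dvd.2 h2

/-- double towers = pairs of towers -/
def ddEquiv {ρ : Type} (K : ρ → ℕ) : DD K ≃
    Σ D1 : {D1 : TD (HK K) // ∀ h, D1.τ h ≠ h}, {D2 : TD D1.1.T // IsGl (lY D1.1) D2} where
  toFun D := ⟨⟨D.D1, D.f1⟩, ⟨D.D2, D.f2⟩⟩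
  invFun q := ⟨q.1.1, q.1.2, q.2.1, q.2.2⟩
  left_inv _ := rfl
  right_inv _ := rfl

/-- step 1: sum over the number of squares = sum over connected double towers -/
theorem sum_L {ρ : Type} [Fintype ρ] [Nonempty ρ] (K : ρ → ℕ) (hK : ∀ i, 0 < K i) (t : ℝ) :
    ∑' L : ℕ, ENNReal.ofReal (cL K L * Real.exp (-(t * L))) =
      ∑' D : {D : DD K // D.Cn}, ENNReal.ofReal (Real.exp (-(t * ((Nat.card D.1.X : ℝ) / 2)))) := by
  classical
  have h1 : ∀ L : ℕ, ENNReal.ofReal (cL K L * Real.exp (-(t * L))) =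
      ∑' _D : {D : DD K // D.Cn ∧ Nat.card D.X = 2 * L}, ENNReal.ofReal (Real.exp (-(t * L))) := by
    intro L
    obtain ⟨hf, hc⟩ := card_DD K hK L
    have : Fintype {D : DD K // D.Cn ∧ Nat.card D.X = 2 * L} := Fintype.ofFinite _
    rw [tsum_fintype, Finset.sum_const, hc, Nat.card_eq_fintype_card, Finset.card_univ,
      ENNReal.ofReal_mul (by positivity), nsmul_eq_mul, ENNReal.ofReal_natCast]
  rw [tsum_congr h1]
  let f : {D : DD K // D.Cn} → ℕ := fun D => Nat.card D.1.X / 2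
  rw [← (Equiv.sigmaFiberEquiv f).tsum_eq, ENNReal.tsum_sigma']
  refine tsum_congr fun L => ?_
  have h2 : ∀ D : {D : DD K // D.Cn}, Nat.card D.1.X = 2 * (Nat.card D.1.X / 2) := by
    intro D
    have := even_card D.1.io ⟨D.1.D2.al_al, D.1.D2.al_fpf D.1.f2.fpf⟩
    exact (Nat.two_mul_div_two_of_even this).symm
  let e : {D : DD K // D.Cn ∧ Nat.card D.X = 2 * L} ≃ {D : {D : DD K // D.Cn} // f D = L} :=
    { toFun := fun D => ⟨⟨D.1, D.2.1⟩, by
        show Nat.card D.1.X / 2 = L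
        rw [D.2.2]; omega⟩
      invFun := fun D => ⟨D.1.1, D.1.2, by rw [h2 D.1]; rw [show Nat.card D.1.1.X / 2 = L from D.2]⟩
      left_inv := fun _ => rfl
      right_inv := fun _ => rfl }
  rw [← e.tsum_eq]
  refine tsum_congr fun D => ?_
  have h3 : Nat.card D.1.X = 2 * L := D.2.2
  show ENNReal.ofReal (Real.exp (-(t * L))) =
    ENNReal.ofReal (Real.exp (-(t * ((Nat.card D.1.X : ℝ) / 2))))
  rw [h3]
  congr 3
  push_cast
  ring

/-- the indicator of connectedness -/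
noncomputable def cind {ρ : Type} {K : ρ → ℕ} (τ : Equiv.Perm (HK K)) (hτ : IsPairing τ)
    (β : Equiv.Perm (Cyc (rot K * τ))) : ENNReal := by
  classical
  exact if h : IsPairing β then (if (⟨τ, hτ, β, h⟩ : Conf (rot K)).Conn then 1 else 0) else 0

theorem cind_toConf {ρ : Type} [Finite ρ] {K : ρ → ℕ} (D : DD K) [Decidable D.Cn] :
    cind D.D1.τ ⟨D.D1.inv, D.f1⟩ (cj D.D1 (glBeta D.f2)) = if D.Cn then 1 else 0 := by
  classical
  unfold cind
  have h : IsPairing (cj D.D1 (glBeta D.f2)) := D.toConf.hβ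
  rw [dif_pos h]
  have h2 : (⟨D.D1.τ, ⟨D.D1.inv, D.f1⟩, cj D.D1 (glBeta D.f2), h⟩ : Conf (rot K)) = D.toConf := rfl
  rw [h2]
  have h3 := Cn_iff D
  by_cases hc : D.Cn
  · rw [if_pos (h3.1 hc), if_pos hc]
  · rw [if_neg (fun h => hc (h3.2 h)), if_neg hc]

/-- step 2 -/
theorem sum_DD {ρ : Type} [Fintype ρ] (K : ρ → ℕ) (t : ℝ) (ht : 0 < t) :
    ∑' D : {D : DD K // D.Cn}, ENNReal.ofReal (Real.exp (-(t * ((Nat.card D.1.X : ℝ) / 2)))) =
    ∑' D1 : {D1 : TD (HK K) // ∀ h, D1.τ h ≠ h},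
      ∑' β : {β : Equiv.Perm (Cyc (rot K * D1.1.τ)) // IsPairing β}, (by
      classical
      exact if ∀ f, pr D1.1 (β.1 f) = pr D1.1 f then
        cind D1.1.τ ⟨D1.1.inv, D1.2⟩ β.1 * ∏ c : Cyc β.1, ENNReal.ofReal (wt t (pr D1.1 c.rep))
        else 0) := by
  classical
  have h1 : ∑' D : {D : DD K // D.Cn}, ENNReal.ofReal (Real.exp (-(t * ((Nat.card D.1.X : ℝ) / 2))))
      = ∑' D : DD K, (if D.Cn then 1 else 0) *
        ENNReal.ofReal (Real.exp (-(t * ((Nat.card D.X : ℝ) / 2)))) := by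
    rw [show (∑' D : {D : DD K // D.Cn},
      ENNReal.ofReal (Real.exp (-(t * ((Nat.card D.1.X : ℝ) / 2))))) =
      ∑' D : ({D : DD K | D.Cn} : Set (DD K)),
        ENNReal.ofReal (Real.exp (-(t * ((Nat.card D.1.X : ℝ) / 2)))) from rfl]
    rw [tsum_subtype {D : DD K | D.Cn}
      (fun D => ENNReal.ofReal (Real.exp (-(t * ((Nat.card D.X : ℝ) / 2)))))]
    refine tsum_congr fun D => ?_
    by_cases hc : D.Cn
    · rw [Set.indicator_of_mem (show D ∈ {D : DD K | D.Cn} from hc), if_pos hc, one_mul]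
    · rw [Set.indicator_of_notMem (show D ∉ {D : DD K | D.Cn} from hc), if_neg hc, zero_mul]
  rw [h1, ← (ddEquiv K).symm.tsum_eq, ENNReal.tsum_sigma']
  refine tsum_congr fun D1 => ?_
  have h2 := glue_face D1.1 t ht (cind D1.1.τ ⟨D1.1.inv, D1.2⟩)
  rw [← h2]
  refine tsum_congr fun D2 => ?_
  have h3 := cind_toConf (⟨D1.1, D1.2, D2.1, D2.2⟩ : DD K)
  rw [h3]
  rfl

/-- cycles of an involution -/
theorem sameCycle_invol {F : Type} {β : Equiv.Perm F} (h : ∀ f, β (β f) = f) {f g : F}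
    (hs : β.SameCycle f g) : g = f ∨ g = β f := by
  obtain ⟨k, rfl⟩ := hs
  have h2 : β ^ (2 : ℤ) = 1 := by
    ext f
    rw [zpow_two]
    exact h f
  rcases Int.even_or_odd' k with ⟨j, hj | hj⟩
  · left
    rw [hj, zpow_mul, h2, one_zpow]
    rfl
  · right
    rw [hj, zpow_add, zpow_mul, h2, one_zpow, one_mul, zpow_one]

theorem rep_or {F : Type} {β : Equiv.Perm F} (h : ∀ f, β (β f) = f) (f : F) :
    f = (cyc β f).rep ∨ f = β (cyc β f).rep :=
  sameCycle_invol h (cyc_eq_iff.1 (cyc_rep (cyc β f)))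

/-- perimeter of a length function on the half-edges -/
noncomputable def prH {ρ : Type} [Fintype ρ] {K : ρ → ℕ} (τ : Equiv.Perm (HK K)) (ℓ : HK K → ℕ)
    (f : Cyc (rot K * τ)) : ℕ := ∑ h : HK K, if cyc (rot K * τ) h = f then ℓ h else 0

/-- the summand -/
noncomputable def GG {ρ : Type} [Fintype ρ] {K : ρ → ℕ} (t : ℝ) (τ : Equiv.Perm (HK K))
    (hτ : IsPairing τ) (β : Equiv.Perm (Cyc (rot K * τ))) (_ : IsPairing β) (ℓ : HK K → ℕ) :
    ENNReal := by
  classical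
  exact if ∀ f, prH τ ℓ (β f) = prH τ ℓ f then
    cind τ hτ β * ∏ c : Cyc β, ENNReal.ofReal (wt t (prH τ ℓ c.rep)) else 0

theorem GG_conf {ρ : Type} [Fintype ρ] {K : ρ → ℕ} (t : ℝ) (ht : 0 < t) (R : Conf (rot K)) 
    [Decidable R.Conn] :
    ∑' l : R.Edge → ℕ+, GG t R.τ R.hτ R.β R.hβ (fun h => (l (R.edge h) : ℕ)) =
      (if R.Conn then 1 else 0) * ENNReal.ofReal (R.S t) := by
  classical
  have hc : cind R.τ R.hτ R.β = if R.Conn then 1 else 0 := by
    unfold cind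
    rw [dif_pos R.hβ]
    by_cases hc : R.Conn
    · rw [if_pos hc, if_pos (show (⟨R.τ, R.hτ, R.β, R.hβ⟩ : Conf (rot K)).Conn from hc)]
    · rw [if_neg hc, if_neg (show ¬ (⟨R.τ, R.hτ, R.β, R.hβ⟩ : Conf (rot K)).Conn from hc)]
  have hS := (ofReal_SM R.P (P_col R) t ht).2
  rw [show R.S t = SM R.P t from rfl, hS, ← ENNReal.tsum_mul_left]
  refine tsum_congr fun l => ?_
  have hp : ∀ c b, ∑ e, R.P c b e * (l e : ℕ) =
      prH R.τ (fun h => (l (R.edge h) : ℕ)) (R.cface c b) := by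
    intro c b
    rw [P_mul R c b (fun e => (l e : ℕ))]
    rfl
  unfold GG
  rw [hc]
  have hiff : (∀ f, prH R.τ (fun h => (l (R.edge h) : ℕ)) (R.β f) =
      prH R.τ (fun h => (l (R.edge h) : ℕ)) f) ↔
      ∀ c, ∑ e, R.P c false e * (l e : ℕ) = ∑ e, R.P c true e * (l e : ℕ) := by
    constructor
    · intro h c
      rw [hp, hp]
      exact (h c.rep).symm
    · intro h f
      have h1 := h (cyc R.β f)
      rw [hp, hp] at h1
      have h1' : prH R.τ (fun h => (l (R.edge h) : ℕ)) (cyc R.β f).rep =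
        prH R.τ (fun h => (l (R.edge h) : ℕ)) (R.β (cyc R.β f).rep) := h1
      rcases rep_or R.hβ.invol f with h2 | h2
      · rw [← h2] at h1'
        exact h1'.symm
      · have h3 : R.β f = (cyc R.β f).rep := by
          conv_lhs => rw [h2]
          exact R.hβ.invol _
        rw [h3, h1', ← h2]
  by_cases h : ∀ f, prH R.τ (fun h => (l (R.edge h) : ℕ)) (R.β f) =
      prH R.τ (fun h => (l (R.edge h) : ℕ)) f
  · rw [if_pos h, if_pos (hiff.1 h)]
    congr 1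
    refine Finset.prod_congr rfl fun c _ => ?_
    rw [hp]
    rfl
  · rw [if_neg h, if_neg (fun h' => h (hiff.2 h')), mul_zero]

theorem blockA {ρ : Type} [Fintype ρ] [Nonempty ρ] (K : ρ → ℕ) (hK : ∀ i, Odd (K i))
    (t : ℝ) (ht : 0 < t) :
    HasSum (fun L : ℕ => cL K L * Real.exp (-(t * L)))
      (by classical exact ∑ R ∈ univ.filter (fun R : Conf (rot K) => R.Conn), R.S t) := by
  classical
  have hK' : ∀ i, 0 < K i := fun i => (hK i).pos
  refine hasSum_of_ofReal _ (fun L => ?_) _ (Finset.sum_nonneg fun R _ => ?_) ?_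
  · exact mul_nonneg (div_nonneg (Nat.cast_nonneg _) (Nat.cast_nonneg _)) (Real.exp_pos _).le
  · exact (ofReal_SM R.P (P_col R) t ht).1
  · rw [sum_L K hK' t, sum_DD K t ht]
    have h0 : ENNReal.ofReal (∑ R ∈ univ.filter (fun R : Conf (rot K) => R.Conn), R.S t) =
        ∑ R ∈ univ.filter (fun R : Conf (rot K) => R.Conn), ENNReal.ofReal (R.S t) :=
      ENNReal.ofReal_sum_of_nonneg (fun R _ => (ofReal_SM R.P (P_col R) t ht).1)
    rw [h0]
    have h1 := conf_sum (K := K) (GG t)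
    have h2 : (∑' D1 : {D1 : TD (HK K) // ∀ h, D1.τ h ≠ h},
      ∑' β : {β : Equiv.Perm (Cyc (rot K * D1.1.τ)) // IsPairing β},
        GG t D1.1.τ ⟨D1.1.inv, D1.2⟩ β.1 β.2 D1.1.ℓ) = ∑' D1 : {D1 : TD (HK K) // ∀ h, D1.τ h ≠ h},
      ∑' β : {β : Equiv.Perm (Cyc (rot K * D1.1.τ)) // IsPairing β},
        (if ∀ f, pr D1.1 (β.1 f) = pr D1.1 f then
        cind D1.1.τ ⟨D1.1.inv, D1.2⟩ β.1 * ∏ c : Cyc β.1, ENNReal.ofReal (wt t (pr D1.1 c.rep))
        else 0) := rfl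
    rw [h2] at h1
    refine h1.trans ?_
    rw [Finset.sum_filter]
    refine Finset.sum_congr rfl fun R _ => ?_
    rw [GG_conf t ht R]
    by_cases hc : R.Conn
    · rw [if_pos hc, if_pos hc, one_mul]
    · rw [if_neg hc, if_neg hc, zero_mul]

end Pool.Agent.Helper84.MVA
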