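import Pool.Agent.Helper84.MVA.FaceEq

/-!
MV-A8 (number of antitranslations).

`AT l β`: the involutions `t` of `Y` with `t l t = l⁻¹` which induce `β` on the cycles of `l`.

PROOF of `AT_csz`.  `t` maps the cycle `f` bijectively onto the cycle `β f` (inverse `t`).

PROOF of `card_AT`.  For `c : Cyc β` let `f_c = c.rep : Cyc l`, `y_c = f_c.rep : Y`
(`cyc l y_c = f_c`, `cyc_rep`).  Since `β` is a fixed point free involution, every `f : Cyc l` is
either `f_c` or `β f_c ≠ f_c` for exactly one `c = cyc β f` (cycles of an involution: `SameCycle β f g`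
iff `g = f` or `g = β f`).  The map
`AT l β → Π c : Cyc β, {z : Y // cyc l z = β f_c}`, `t ↦ (t y_c)_c` is a bijection; then
`Nat.card_pi`, and the cardinality of `{z // cyc l z = β f_c}` is `csz l (β f_c) = csz l f_c`.
Injective: `t (l^k y_c) = l^(-k) (t y_c)` (`anti_zpow` in Double.lean), so `t` is determined on the
cycles `f_c`; and on `β f_c` it is the inverse (`t (l^(-k) z_c) = l^k (t z_c)`, `t z_c = y_c`).
Surjective: given `z_c`, define `t (l^k y_c) = l^(-k) z_c`, `t (l^(-k) z_c) = l^k y_c`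
(`k : ℤ`).  Well defined because `y_c` and `z_c` have the same minimal period under `l`
(`= csz l f_c = csz l (β f_c)`): `l^k y_c = l^j y_c ↔ l^k z_c = l^j z_c` (prove this first; e.g.
`csz l (cyc l y) = Function.minimalPeriod l y`, and `l^k y = y ↔ (minimalPeriod l y : ℤ) ∣ k`,
cf. `Function.isPeriodicPt...`, `Equiv.Perm.zpow_apply_eq...`).
To define the function: for `y : Y` let `c = cyc β (cyc l y)`; if `cyc l y = f_c` choose `k` with
`y = l^k y_c` and put `t y = l^(-k) z_c`; otherwise choose `k` with `y = l^(-k) z_c` and put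
`t y = l^k y_c`.  It is an involution, so it is a permutation (`Function.Involutive.toPerm`).
-/

namespace Pool.Agent.Helper84.MVA

open Pool.Agent.Helper60.MV Finset

/-- antitranslations inducing `β` -/
def AT {Y : Type} (l : Equiv.Perm Y) (β : Equiv.Perm (Cyc l)) : Type :=
  {t : Equiv.Perm Y // (∀ y, t (t y) = y) ∧ (∀ y, t (l (t y)) = l.symm y) ∧
    ∀ y, cyc l (t y) = β (cyc l y)}

private theorem an_dvd {Y : Type} [Finite Y] (l : Equiv.Perm Y) (a : Y) (k : ℤ) :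
    (l ^ k) a = a ↔ (csz l (cyc l a) : ℤ) ∣ k := by
  classical
  have := Fintype.ofFinite Y
  have := Fintype.ofFinite (MulAction.orbit (Subgroup.zpowers l) a)
  have h1 := MulAction.zpow_smul_eq_iff_minimalPeriod_dvd (a := l) (b := a) (n := k)
  have h2 : csz l (cyc l a) = Function.minimalPeriod (l • ·) a := by
    rw [MulAction.minimalPeriod_eq_card, ← Nat.card_eq_fintype_card]
    unfold csz
    refine Nat.card_congr (Equiv.subtypeEquivRight ?_)
    intro y
    rw [cyc_eq_iff]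
    constructor
    · intro h
      obtain ⟨n, hn⟩ := h.symm
      exact ⟨⟨l ^ n, ⟨n, rfl⟩⟩, hn⟩
    · rintro ⟨⟨g, n, rfl⟩, hg⟩
      exact Equiv.Perm.SameCycle.symm ⟨n, hg⟩
  rw [h2]
  exact h1

private theorem an_shift {Y : Type} [Finite Y] (l : Equiv.Perm Y) {a b : Y}
    (h : csz l (cyc l a) = csz l (cyc l b)) {k j : ℤ} (e : (l ^ k) a = (l ^ j) a) :
    (l ^ (-k)) b = (l ^ (-j)) b := by
  have h1 : (l ^ (k - j)) a = a := by
    have h2 := congrArg (fun y => (l ^ (-j)) y) e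
    simp only [← Equiv.Perm.mul_apply, ← zpow_add] at h2
    rw [show -j + k = k - j by ring, show -j + j = 0 by ring, zpow_zero] at h2
    simpa using h2
  rw [an_dvd, h] at h1
  have h3 : (l ^ (-j + k)) b = b := by
    rw [an_dvd]
    rwa [show -j + k = k - j by ring]
  have h4 := congrArg (fun y => (l ^ (-k)) y) h3
  simp only [← Equiv.Perm.mul_apply, ← zpow_add] at h4
  rw [show -k + (-j + k) = -j by ring] at h4
  exact h4.symm

private theorem an_two {F : Type} {β : Equiv.Perm F} (hβ : ∀ f, β (β f) = f) {f g : F}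
    (h : cyc β f = cyc β g) : g = f ∨ g = β f := by
  obtain ⟨k, hk⟩ := cyc_eq_iff.1 h
  rcases Int.even_or_odd' k with ⟨j, hj | hj⟩
  · left
    rw [← hk, hj, zpow_mul]
    have : β ^ (2 : ℤ) = 1 := by
      ext x
      simpa [zpow_ofNat, sq] using hβ x
    rw [this, one_zpow]
    rfl
  · right
    rw [← hk, hj, zpow_add, zpow_mul]
    have : β ^ (2 : ℤ) = 1 := by
      ext x
      simpa [zpow_ofNat, sq] using hβ x
    rw [this, one_zpow]
    simp

private theorem an_cyc_zpow {Y : Type} (l : Equiv.Perm Y) (k : ℤ) (y : Y) :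
    cyc l ((l ^ k) y) = cyc l y :=
  (cyc_eq_iff.2 ⟨k, rfl⟩ : cyc l y = cyc l ((l ^ k) y)).symm

/-- the graph of the antitranslation with values `z` -/
private def anR {Y : Type} (l : Equiv.Perm Y) (β : Equiv.Perm (Cyc l)) (z : Cyc β → Y)
    (y w : Y) : Prop :=
  ∃ (c : Cyc β) (k : ℤ), (y = (l ^ k) c.rep.rep ∧ w = (l ^ (-k)) (z c)) ∨
    (y = (l ^ (-k)) (z c) ∧ w = (l ^ k) c.rep.rep)

private theorem anR_symm {Y : Type} {l : Equiv.Perm Y} {β : Equiv.Perm (Cyc l)} {z : Cyc β → Y}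
    {y w : Y} (h : anR l β z y w) : anR l β z w y := by
  obtain ⟨c, k, h | h⟩ := h
  · exact ⟨c, k, Or.inr ⟨h.2, h.1⟩⟩
  · exact ⟨c, k, Or.inl ⟨h.2, h.1⟩⟩

private theorem anR_ex {Y : Type} {l : Equiv.Perm Y} {β : Equiv.Perm (Cyc l)}
    (hβ : ∀ f, β (β f) = f) {z : Cyc β → Y} (hz : ∀ c, cyc l (z c) = β c.rep) (y : Y) :
    ∃ w, anR l β z y w := by
  have h1 : cyc β (cyc β (cyc l y)).rep = cyc β (cyc l y) := cyc_rep _
  rcases an_two hβ h1 with h2 | h2
  · have h3 : cyc l (cyc β (cyc l y)).rep.rep = cyc l y := (cyc_rep _).trans h2.symm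
    obtain ⟨k, hk⟩ := cyc_eq_iff.1 h3
    exact ⟨_, cyc β (cyc l y), k, Or.inl ⟨hk.symm, rfl⟩⟩
  · have h3 : cyc l (z (cyc β (cyc l y))) = cyc l y := (hz _).trans h2.symm
    obtain ⟨k, hk⟩ := cyc_eq_iff.1 h3
    refine ⟨_, cyc β (cyc l y), -k, Or.inr ⟨?_, rfl⟩⟩
    rw [neg_neg]
    exact hk.symm

private theorem anR_uniq {Y : Type} [Finite Y] {l : Equiv.Perm Y} {β : Equiv.Perm (Cyc l)}
    (hβ : IsPairing β) (h : ∀ f, csz l (β f) = csz l f) {z : Cyc β → Y}
    (hz : ∀ c, cyc l (z c) = β c.rep) {y w w' : Y} (h1 : anR l β z y w)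
    (h2 : anR l β z y w') : w = w' := by
  have hsz : ∀ c, csz l (cyc l c.rep.rep) = csz l (cyc l (z c)) := by
    intro c
    rw [cyc_rep, hz, h]
  have hcc : ∀ c : Cyc β, cyc β c.rep = c := fun c => cyc_rep c
  have hcb : ∀ c : Cyc β, cyc β (β c.rep) = c := fun c => by
    rw [cyc_apply, cyc_rep]
  obtain ⟨c, k, ⟨e1, e2⟩ | ⟨e1, e2⟩⟩ := h1 <;> obtain ⟨c', k', ⟨e3, e4⟩ | ⟨e3, e4⟩⟩ := h2
  · have e5 : cyc l ((l ^ k) c.rep.rep) = cyc l ((l ^ k') c'.rep.rep) := by rw [← e1, e3]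
    rw [an_cyc_zpow, an_cyc_zpow, cyc_rep, cyc_rep] at e5
    have e6 : c = c' := by rw [← hcc c, e5, hcc]
    subst e6
    rw [e2, e4]
    exact an_shift l (hsz c) (by rw [← e1, e3])
  · exfalso
    have e5 : cyc l ((l ^ k) c.rep.rep) = cyc l ((l ^ (-k')) (z c')) := by rw [← e1, e3]
    rw [an_cyc_zpow, an_cyc_zpow, cyc_rep, hz] at e5
    have e6 : c = c' := by rw [← hcc c, e5, hcb]
    subst e6
    exact hβ.fpf _ e5.symm
  · exfalso
    have e5 : cyc l ((l ^ (-k)) (z c)) = cyc l ((l ^ k') c'.rep.rep) := by rw [← e1, e3]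
    rw [an_cyc_zpow, an_cyc_zpow, cyc_rep, hz] at e5
    have e6 : c = c' := by rw [← hcb c, e5, hcc]
    subst e6
    exact hβ.fpf _ e5
  · have e5 : cyc l ((l ^ (-k)) (z c)) = cyc l ((l ^ (-k')) (z c')) := by rw [← e1, e3]
    rw [an_cyc_zpow, an_cyc_zpow, hz, hz] at e5
    have e6 : c = c' := by rw [← hcb c, e5, hcb]
    subst e6
    rw [e2, e4]
    have := an_shift l (hsz c).symm (k := -k) (j := -k') (by rw [← e1, e3])
    simpa using this

private theorem anR_anti {Y : Type} {l : Equiv.Perm Y} {β : Equiv.Perm (Cyc l)} {z : Cyc β → Y}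
    {y w : Y} (h : anR l β z y w) : anR l β z (l w) (l.symm y) := by
  have hs : ∀ (k : ℤ) (a : Y), l ((l ^ k) a) = (l ^ (k + 1)) a := by
    intro k a
    rw [← Equiv.Perm.mul_apply, ← zpow_one_add, add_comm]
  have hs' : ∀ (k : ℤ) (a : Y), l.symm ((l ^ k) a) = (l ^ (k - 1)) a := by
    intro k a
    rw [Equiv.symm_apply_eq, hs]
    congr 2
    ring
  obtain ⟨c, k, ⟨e1, e2⟩ | ⟨e1, e2⟩⟩ := h
  · refine ⟨c, k - 1, Or.inr ⟨?_, ?_⟩⟩
    · rw [e2, hs]
      congr 2
      ring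
    · rw [e1, hs']
  · refine ⟨c, k + 1, Or.inl ⟨?_, ?_⟩⟩
    · rw [e2, hs]
    · rw [e1, hs']
      congr 2
      ring

private theorem anR_cyc {Y : Type} {l : Equiv.Perm Y} {β : Equiv.Perm (Cyc l)}
    (hβ : ∀ f, β (β f) = f) {z : Cyc β → Y} (hz : ∀ c, cyc l (z c) = β c.rep) {y w : Y}
    (h : anR l β z y w) : cyc l w = β (cyc l y) := by
  obtain ⟨c, k, ⟨e1, e2⟩ | ⟨e1, e2⟩⟩ := h
  · rw [e1, e2, an_cyc_zpow, an_cyc_zpow, hz, cyc_rep]
  · rw [e1, e2, an_cyc_zpow, an_cyc_zpow, hz, cyc_rep, hβ]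

theorem AT_csz {Y : Type} (l : Equiv.Perm Y) (β : Equiv.Perm (Cyc l)) (t : AT l β) (f : Cyc l) :
    csz l (β f) = csz l f := by
  have hinv : β (β f) = f := by
    have h1 := t.2.2.2 f.rep
    have h2 := t.2.2.2 (t.1 f.rep)
    rw [t.2.1, h1, cyc_rep] at h2
    exact h2.symm
  refine Nat.card_congr ⟨fun y => ⟨t.1 y.1, ?_⟩, fun y => ⟨t.1 y.1, ?_⟩, ?_, ?_⟩
  · rw [t.2.2.2, y.2, hinv]
  · rw [t.2.2.2, y.2]
  · intro y
    exact Subtype.ext (t.2.1 y.1)
  · intro y
    exact Subtype.ext (t.2.1 y.1)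

theorem card_AT {Y : Type} [Fintype Y] (l : Equiv.Perm Y) (β : Equiv.Perm (Cyc l))
    (hβ : IsPairing β) (h : ∀ f, csz l (β f) = csz l f) :
    Nat.card (AT l β) = ∏ c : Cyc β, csz l c.rep := by
  classical
  have hinv := hβ.invol
  let Φ : AT l β → (∀ c : Cyc β, {z : Y // cyc l z = β c.rep}) := fun t c =>
    ⟨t.1 c.rep.rep, by rw [t.2.2.2, cyc_rep]⟩
  have hinj : Function.Injective Φ := by
    intro t t' hE
    have hE' : ∀ c : Cyc β, t.1 c.rep.rep = t'.1 c.rep.rep := fun c =>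
      congrArg Subtype.val (congrFun hE c)
    have hE2 : ∀ (c : Cyc β) (k : ℤ), t.1 ((l ^ k) c.rep.rep) = t'.1 ((l ^ k) c.rep.rep) := by
      intro c k
      rw [anti_zpow t.2.1 t.2.2.1, anti_zpow t'.2.1 t'.2.2.1, hE']
    refine Subtype.ext (Equiv.ext ?_)
    intro y
    have h1 : cyc β (cyc β (cyc l y)).rep = cyc β (cyc l y) := cyc_rep _
    rcases an_two hinv h1 with h2 | h2
    · have h3 : cyc l (cyc β (cyc l y)).rep.rep = cyc l y := (cyc_rep _).trans h2.symm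
      obtain ⟨k, hk⟩ := cyc_eq_iff.1 h3
      rw [← hk]
      exact hE2 _ k
    · have h3 : cyc l (cyc β (cyc l y)).rep.rep = cyc l (t.1 y) := by
        rw [t.2.2.2]
        exact (cyc_rep _).trans ((congrArg β h2).trans (hinv _)).symm
      obtain ⟨k, hk⟩ := cyc_eq_iff.1 h3
      have h4 := hE2 (cyc β (cyc l y)) k
      rw [hk, t.2.1] at h4
      have h5 := congrArg t'.1 h4
      rw [t'.2.1] at h5
      exact h5.symm
  have hsurj : Function.Surjective Φ := by
    intro zz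
    let z : Cyc β → Y := fun c => (zz c).1
    have hz : ∀ c, cyc l (z c) = β c.rep := fun c => (zz c).2
    choose T hT using anR_ex (l := l) hinv hz
    have hTT : ∀ y, T (T y) = y := fun y =>
      anR_uniq hβ h hz (hT (T y)) (anR_symm (hT y))
    have hTl : ∀ y, T (l (T y)) = l.symm y := fun y =>
      anR_uniq hβ h hz (hT (l (T y))) (anR_anti (hT y))
    have hTc : ∀ y, cyc l (T y) = β (cyc l y) := fun y => anR_cyc hinv hz (hT y)
    refine ⟨⟨⟨T, T, hTT, hTT⟩, hTT, hTl, hTc⟩, ?_⟩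
    funext c
    refine Subtype.ext ?_
    change T c.rep.rep = (zz c).1
    exact anR_uniq hβ h hz (hT _) ⟨c, 0, Or.inl ⟨by simp, by simp [z]⟩⟩
  rw [Nat.card_congr (Equiv.ofBijective Φ ⟨hinj, hsurj⟩), Nat.card_pi]
  refine Finset.prod_congr rfl ?_
  intro c _
  exact h c.rep

end Pool.Agent.Helper84.MVA
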