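import Pool.Agent.Helper84.MVA.Double

/-!
MV-A3 (a double tower is a marked surface).  `D.X = D.D2.T`, `D.io = D.D2.al`,
`D.b = D.D2.ga D.D1.al`, `D.l = D.D2.sh (lY D.D1) _`, `D.a = D.l * D.io`.
Write `τ₁ = D.D1.τ`, `τ₂ = D.D2.τ`, `m = D.D2.ℓ`, `σ = rot K`, `lY = D.D1.ga σ * D.D1.al`.

PROOF.
* `io` is a pairing: `TD.al_al`, `TD.al_fpf` (`D.f2.fpf`).
* `b` is a pairing: on `base y`: `b (base y) = base (al y)`, `al (al y) = y`, `al y ≠ y`
  (`TD.al_fpf` with `D.f1`); on `pt y k`, `k ≠ 0`: `TD.ga_ga_pt`, `TD.ga_fpf`.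
* `a` is a pairing: `a (pt y k) = pt (lY (τ₂ y)) (m y - 1 - k)`.  `a (a p) = p` since
  `lY (τ₂ (lY (τ₂ y))) = lY (lY⁻¹ y) = y` (`D.f2.anti`), heights by `D.f2.hl`, `TD.sym`;
  `a p ≠ p` by `D.f2.fpf'`.
* `v = a * io * b = l * b` (as `io (io p) = p`).  `v (base y) = base (lY (al y)) = base (ga σ y)`;
  so `v (base (base h)) = base (base (σ h))`, and for `y = pt h j`, `j ≠ 0`:
  `v (v (base y)) = base y`, `v (base y) ≠ base y` (`TD.ga_ga_pt`, `TD.ga_fpf` with `D.f1`).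
  For `k ≠ 0`: `v (pt y k) = pt (lY (τ₂ y)) (m y - k)`, so `v (v (pt y k)) = pt y k` and
  `v (pt y k) ≠ pt y k` by `D.f2.fpf'`.
* `mark`: the map `f h = base (base h)` is injective and `v ∘ f = f ∘ σ`, so
  `minimalPeriod v (f h) = minimalPeriod σ h`; `σ^n ⟨i, 0⟩ = ⟨i, n mod K i⟩` (`finRotate`), so
  `minimalPeriod σ ⟨i, 0⟩ = K i` (prove `rot_period` below; `K i = 1` is allowed).
* `dist`: `v^n (f ⟨i, 0⟩) = f (σ^n ⟨i, 0⟩)` has first component `i` (`σ^n` for integers `n`).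
* `rest`: if `y` is not in the cycle of any `x i` then `y ≠ f h` for all `h` (`rot_reach`), so by the
  above `v (v y) = y`, `v y ≠ y`, i.e. `minimalPeriod v y = 2`.
-/

namespace Pool.Agent.Helper84.MVA

open Pool.Agent.Helper60.MV

private theorem finRotate_iter (m : ℕ) (j : Fin (m + 1)) (n : ℕ) :
    (((finRotate (m + 1))^[n] j : Fin (m + 1)) : ℕ) = ((j : ℕ) + n) % (m + 1) := by
  induction n with
  | zero =>
    rw [Function.iterate_zero, id_eq, add_zero, Nat.mod_eq_of_lt j.isLt]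
  | succ n ih =>
    rw [Function.iterate_succ_apply', finRotate_apply, Fin.val_add, ih, Fin.val_one',
      ← Nat.add_mod, add_assoc]

private theorem finRotate_minimalPeriod (k : ℕ) (j : Fin k) :
    Function.minimalPeriod (finRotate k) j = k := by
  cases k with
  | zero => exact j.elim0
  | succ m =>
    have key : ∀ n : ℕ, Function.IsPeriodicPt (finRotate (m + 1)) n j ↔ (m + 1) ∣ n := by
      intro n
      rw [Function.IsPeriodicPt, Function.IsFixedPt, Fin.ext_iff, finRotate_iter]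
      have hj := Nat.mod_eq_of_lt j.isLt
      constructor
      · intro h
        have h1 : (j : ℕ) + n ≡ (j : ℕ) + 0 [MOD (m + 1)] := by
          rw [Nat.ModEq, add_zero, h, hj]
        exact (Nat.modEq_zero_iff_dvd).1 (Nat.ModEq.add_left_cancel' _ h1)
      · rintro ⟨q, rfl⟩
        rw [Nat.add_mul_mod_self_left, hj]
    apply Nat.dvd_antisymm
    · exact ((key (m + 1)).2 dvd_rfl).minimalPeriod_dvd
    · exact (key _).1 (Function.isPeriodicPt_minimalPeriod _ _)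

private theorem finRotate_reach (k : ℕ) (hk : 0 < k) (j : Fin k) :
    (finRotate k)^[(j : ℕ)] ⟨0, hk⟩ = j := by
  cases k with
  | zero => exact j.elim0
  | succ m =>
    apply Fin.ext
    rw [finRotate_iter]
    simp only [zero_add]
    exact Nat.mod_eq_of_lt j.isLt

private theorem rot_iter {ρ : Type} (K : ρ → ℕ) (i : ρ) (j : Fin (K i)) (n : ℕ) :
    (rot K)^[n] ⟨i, j⟩ = ⟨i, (finRotate (K i))^[n] j⟩ := by
  induction n with
  | zero => rfl
  | succ n ih =>
    rw [Function.iterate_succ_apply', ih, Function.iterate_succ_apply']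
    rfl

theorem rot_period {ρ : Type} (K : ρ → ℕ) (h : HK K) :
    Function.minimalPeriod (rot K) h = K h.1 := by
  obtain ⟨i, j⟩ := h
  rw [← finRotate_minimalPeriod (K i) j, Function.minimalPeriod_eq_minimalPeriod_iff]
  intro n
  unfold Function.IsPeriodicPt Function.IsFixedPt
  rw [rot_iter]
  constructor
  · intro h
    have := (Sigma.mk.inj_iff.1 h).2
    exact eq_of_heq this
  · intro h
    rw [h]

theorem rot_reach {ρ : Type} (K : ρ → ℕ) (hK : ∀ i, 0 < K i) (i : ρ) (j : Fin (K i)) :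
    ((rot K) ^ (j : ℕ)) ⟨i, ⟨0, hK i⟩⟩ = ⟨i, j⟩ := by
  rw [← Equiv.Perm.iterate_eq_pow, rot_iter, finRotate_reach]

private theorem rot_pow_fst {ρ : Type} (K : ρ → ℕ) (n : ℕ) (h : HK K) :
    ((rot K ^ n) h).1 = h.1 := by
  induction n with
  | zero => rfl
  | succ n ih =>
    rw [pow_succ', Equiv.Perm.mul_apply]
    exact ih

theorem rot_fst {ρ : Type} (K : ρ → ℕ) (n : ℤ) (h : HK K) : (((rot K) ^ n) h).1 = h.1 := by
  rcases Int.eq_nat_or_neg n with ⟨m, rfl | rfl⟩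
  · rw [zpow_natCast, rot_pow_fst]
  · have h1 := rot_pow_fst K m (((rot K) ^ (-(m : ℤ))) h)
    rw [← zpow_natCast, ← Equiv.Perm.mul_apply, ← zpow_add, add_neg_cancel, zpow_zero,
      Equiv.Perm.one_apply] at h1
    exact h1.symm

namespace DD

variable {ρ : Type} {K : ρ → ℕ} (D : DD K)

private theorem b_base (y : D.D1.T) : D.b (D.D2.base y) = D.D2.base (D.D1.al y) :=
  D.D2.ga_base _ _

private theorem b_pt {y : D.D1.T} {k : ℕ} (hk : k < D.D2.ℓ y) (h0 : k ≠ 0) :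
    D.b (D.D2.pt y k hk) = D.D2.pt (D.D2.τ y) (D.D2.ℓ y - k) (by rw [D.D2.sym]; omega) :=
  D.D2.ga_pt _ hk h0

private theorem io_pt {y : D.D1.T} {k : ℕ} (hk : k < D.D2.ℓ y) :
    D.io (D.D2.pt y k hk) = D.D2.pt (D.D2.τ y) (D.D2.ℓ y - 1 - k) (by rw [D.D2.sym]; omega) :=
  D.D2.al_pt hk

private theorem l_pt {y : D.D1.T} {k : ℕ} (hk : k < D.D2.ℓ y) :
    D.l (D.D2.pt y k hk) = D.D2.pt (lY D.D1 y) k (by rw [D.f2.hl]; exact hk) :=
  D.D2.sh_pt _ _ hk

private theorem io_io (p : D.X) : D.io (D.io p) = p := D.D2.al_al p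

private theorem lY_anti (y : D.D1.T) :
    lY D.D1 (D.D2.τ (lY D.D1 (D.D2.τ y))) = y := by
  rw [D.f2.anti, Equiv.apply_symm_apply]

private theorem a_pt {y : D.D1.T} {k : ℕ} (hk : k < D.D2.ℓ y) :
    D.a (D.D2.pt y k hk) = D.D2.pt (lY D.D1 (D.D2.τ y)) (D.D2.ℓ y - 1 - k)
      (by rw [D.f2.hl, D.D2.sym]; omega) := by
  show D.l (D.io _) = _
  rw [io_pt, l_pt]

private theorem v_eq (p : D.X) : (D.a * D.io * D.b) p = D.l (D.b p) := by
  show D.l (D.io (D.io (D.b p))) = _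
  rw [io_io]

private theorem v_base (y : D.D1.T) :
    (D.a * D.io * D.b) (D.D2.base y) = D.D2.base (D.D1.ga (rot K) y) := by
  rw [v_eq, b_base]
  show D.D2.pt (lY D.D1 (D.D1.al y)) 0 _ = _
  refine TD.pt_ext ?_ rfl
  show D.D1.ga (rot K) (D.D1.al (D.D1.al y)) = _
  rw [D.D1.al_al]

private theorem v_pt {y : D.D1.T} {k : ℕ} (hk : k < D.D2.ℓ y) (h0 : k ≠ 0) :
    (D.a * D.io * D.b) (D.D2.pt y k hk) = D.D2.pt (lY D.D1 (D.D2.τ y)) (D.D2.ℓ y - k)
      (by rw [D.f2.hl, D.D2.sym]; omega) := by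
  rw [v_eq, b_pt D hk h0, l_pt]

private theorem v_f (h : HK K) :
    (D.a * D.io * D.b) (D.D2.base (D.D1.base h)) = D.D2.base (D.D1.base (rot K h)) := by
  rw [v_base, D.D1.ga_base]

private theorem v_iter (n : ℕ) (h : HK K) :
    (D.a * D.io * D.b)^[n] (D.D2.base (D.D1.base h)) =
      D.D2.base (D.D1.base ((rot K)^[n] h)) := by
  induction n with
  | zero => rfl
  | succ n ih =>
    rw [Function.iterate_succ_apply', ih, Function.iterate_succ_apply', v_f]

private theorem v_pow (n : ℕ) (h : HK K) :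
    ((D.a * D.io * D.b) ^ n) (D.D2.base (D.D1.base h)) =
      D.D2.base (D.D1.base (((rot K) ^ n) h)) := by
  rw [← Equiv.Perm.iterate_eq_pow, ← Equiv.Perm.iterate_eq_pow, v_iter]

private theorem v_zpow (n : ℤ) (h : HK K) :
    ((D.a * D.io * D.b) ^ n) (D.D2.base (D.D1.base h)) =
      D.D2.base (D.D1.base (((rot K) ^ n) h)) := by
  rcases Int.eq_nat_or_neg n with ⟨m, rfl | rfl⟩
  · rw [zpow_natCast, zpow_natCast, v_pow]
  · have h1 := v_pow D m (((rot K) ^ (-(m : ℤ))) h)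
    have h2 : ((rot K) ^ m) (((rot K) ^ (-(m : ℤ))) h) = h := by
      rw [← zpow_natCast, ← Equiv.Perm.mul_apply, ← zpow_add, add_neg_cancel, zpow_zero,
        Equiv.Perm.one_apply]
    rw [h2] at h1
    rw [zpow_neg, zpow_natCast, Equiv.Perm.inv_eq_iff_eq]
    exact h1.symm

private theorem f_inj {h h' : HK K} (e : D.D2.base (D.D1.base h) = D.D2.base (D.D1.base h')) :
    h = h' := TD.base_inj (TD.base_inj e)

end DD

private theorem period_two {X : Type} (v : Equiv.Perm X) (y : X) (h1 : v (v y) = y)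
    (h2 : v y ≠ y) : Function.minimalPeriod v y = 2 := by
  have : Fact (Nat.Prime 2) := ⟨Nat.prime_two⟩
  exact Function.minimalPeriod_eq_prime (p := 2) h1 h2

theorem DD.isSurf {ρ : Type} {K : ρ → ℕ} (hK : ∀ i, 0 < K i) (D : DD K) (hc : D.Cn) :
    IsSurf K D.a D.io D.b (D.x hK) where
  ha := by
    constructor
    · intro p
      obtain ⟨y, k, hk, rfl⟩ := TD.exists_pt (D := D.D2) p
      rw [DD.a_pt, DD.a_pt]
      refine TD.pt_ext (DD.lY_anti D y) ?_
      rw [D.f2.hl, D.D2.sym]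
      omega
    · intro p
      obtain ⟨y, k, hk, rfl⟩ := TD.exists_pt (D := D.D2) p
      rw [DD.a_pt]
      intro e
      exact D.f2.fpf' y (TD.pt_inj e).1
  hι := ⟨D.D2.al_al, D.D2.al_fpf D.f2.fpf⟩
  hb := by
    constructor
    · intro p
      obtain ⟨y, k, hk, rfl⟩ := TD.exists_pt (D := D.D2) p
      by_cases h0 : k = 0
      · subst h0
        rw [TD.pt_zero, DD.b_base, DD.b_base, D.D1.al_al]
      · exact D.D2.ga_ga_pt _ hk h0
    · intro p
      obtain ⟨y, k, hk, rfl⟩ := TD.exists_pt (D := D.D2) p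
      by_cases h0 : k = 0
      · subst h0
        rw [TD.pt_zero, DD.b_base]
        intro e
        exact D.D1.al_fpf D.f1 y (TD.base_inj e)
      · exact D.D2.ga_fpf D.f2.fpf _ hk h0
  conn := hc
  mark := by
    intro i
    rw [← rot_period K ⟨i, ⟨0, hK i⟩⟩, Function.minimalPeriod_eq_minimalPeriod_iff]
    intro n
    unfold Function.IsPeriodicPt Function.IsFixedPt
    show (D.a * D.io * D.b)^[n] (D.D2.base (D.D1.base ⟨i, ⟨0, hK i⟩⟩)) =
      D.D2.base (D.D1.base ⟨i, ⟨0, hK i⟩⟩) ↔ _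
    rw [DD.v_iter]
    constructor
    · intro e
      exact DD.f_inj D e
    · intro e
      rw [e]
  dist := by
    intro i j hij
    rintro ⟨n, hn⟩
    have h1 : ((D.a * D.io * D.b) ^ n) (D.D2.base (D.D1.base ⟨i, ⟨0, hK i⟩⟩)) =
      D.D2.base (D.D1.base ⟨j, ⟨0, hK j⟩⟩) := hn
    rw [DD.v_zpow] at h1
    have h2 := DD.f_inj D h1
    have h3 := rot_fst K n ⟨i, ⟨0, hK i⟩⟩
    rw [h2] at h3
    exact hij h3.symm
  rest := by
    intro y hy
    obtain ⟨z, k, hk, rfl⟩ := TD.exists_pt (D := D.D2) y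
    by_cases h0 : k = 0
    · subst h0
      obtain ⟨h, j, hj, rfl⟩ := TD.exists_pt (D := D.D1) z
      by_cases hj0 : j = 0
      · subst hj0
        exfalso
        obtain ⟨i, a⟩ := h
        refine hy i ⟨((a : ℕ) : ℤ), ?_⟩
        show ((D.a * D.io * D.b) ^ ((a : ℕ) : ℤ)) (D.D2.base (D.D1.base ⟨i, ⟨0, hK i⟩⟩)) = _
        rw [DD.v_zpow, zpow_natCast, rot_reach]
        rfl
      · refine period_two _ _ ?_ ?_
        · rw [TD.pt_zero, DD.v_base, DD.v_base, D.D1.ga_ga_pt _ hj hj0]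
        · rw [TD.pt_zero, DD.v_base]
          intro e
          exact D.D1.ga_fpf D.f1 _ hj hj0 (TD.base_inj e)
    · refine period_two _ _ ?_ ?_
      · rw [DD.v_pt D hk h0, DD.v_pt D _ (by omega)]
        refine TD.pt_ext (DD.lY_anti D z) ?_
        rw [D.f2.hl, D.D2.sym]
        omega
      · rw [DD.v_pt D hk h0]
        intro e
        exact D.f2.fpf' z (TD.pt_inj e).1

end Pool.Agent.Helper84.MVA
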