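import Pool.Agent.Helper84.MVA.Rigid
import Pool.Agent.Helper84.MVA.Surf

/-!
MV-A5 (uniqueness of the double tower).  Uses `rigid` (Rigid.lean) and `rot_reach` (Surf.lean).

PROOF.  Let `v = a * ι * b`.  `w1 y = e (D.D2.base y)` is injective on `D.D1.T`, with
`w1 (al y) = b (w1 y)` (`D.b (base y) = base (al y)`, `TD.ga_base`) and
`w1 (ga (rot K) y) = v (w1 y)` (`D.a * D.io * D.b = D.l * D.b` as `D.io` is an involution, and
`D.l (base z) = base (lY z)`, `lY (al y) = ga (rot K) (al (al y)) = ga (rot K) y`).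
`w1 (base h)` with `h = ⟨i, j⟩`: `base h = (ga (rot K))^j (base ⟨i,0⟩)` (`rot_reach`, `ga_base`), so
`w1 (base h) = v^j (x i)`.  The same for `D'`.  So `rigid` (with `α = b`, `γ = v`, `g = rot K`)
gives `D.D1 = D'.D1` and `w1 = w1'`.  After `subst` (destruct `D`, `D'` first:
`obtain ⟨D1, f1, D2, f2⟩ := D`), `rigid` with `α = ι`, `γ = b`, `g = D1.al` gives `D2 = D2'` and
`e = e'`.
-/

namespace Pool.Agent.Helper84.MVA

open Pool.Agent.Helper60.MV

private theorem w_al {ρ X : Type} {K : ρ → ℕ} {hK : ∀ i, 0 < K i} {a ι b : Equiv.Perm X}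
    {x : ρ → X} {D : DD K} {e : D.X ≃ X} (h : IsIso hK a ι b x D e) (y : D.D1.T) :
    e (D.D2.base (D.D1.al y)) = b (e (D.D2.base y)) := by
  rw [← h.hb (D.D2.base y)]
  exact congrArg e (D.D2.ga_base D.D1.al y).symm

private theorem w_ga {ρ X : Type} {K : ρ → ℕ} {hK : ∀ i, 0 < K i} {a ι b : Equiv.Perm X}
    {x : ρ → X} {D : DD K} {e : D.X ≃ X} (h : IsIso hK a ι b x D e) (y : D.D1.T) :
    e (D.D2.base (D.D1.ga (rot K) y)) = (a * ι * b) (e (D.D2.base y)) := by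
  have h1 : (a * ι * b) (e (D.D2.base y)) = a (ι (b (e (D.D2.base y)))) := rfl
  rw [h1, ← h.hb (D.D2.base y), ← h.hι, ← h.ha]
  congr 1
  have h2 : D.b (D.D2.base y) = D.D2.base (D.D1.al y) := D.D2.ga_base D.D1.al y
  have h3 : D.a (D.io (D.b (D.D2.base y))) = D.l (D.io (D.io (D.b (D.D2.base y)))) := rfl
  have h4 : D.io (D.io (D.b (D.D2.base y))) = D.b (D.D2.base y) := D.D2.al_al _
  rw [h3, h4, h2]
  have h5 : D.l (D.D2.base (D.D1.al y)) = D.D2.base (lY D.D1 (D.D1.al y)) := rfl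
  rw [h5]
  have h6 : lY D.D1 (D.D1.al y) = D.D1.ga (rot K) (D.D1.al (D.D1.al y)) := rfl
  rw [h6, D.D1.al_al]

private theorem base_pow {ρ : Type} {K : ρ → ℕ} (D1 : TD (HK K)) (n : ℕ) (s : HK K) :
    D1.base (((rot K) ^ n) s) = ((D1.ga (rot K)) ^ n) (D1.base s) := by
  induction n with
  | zero => rfl
  | succ n ih =>
    rw [pow_succ', pow_succ', Equiv.Perm.mul_apply, Equiv.Perm.mul_apply, ← ih, D1.ga_base]

private theorem w_base {ρ X : Type} {K : ρ → ℕ} {hK : ∀ i, 0 < K i} {a ι b : Equiv.Perm X}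
    {x : ρ → X} {D : DD K} {e : D.X ≃ X} (h : IsIso hK a ι b x D e) (s : HK K) :
    e (D.D2.base (D.D1.base s)) = ((a * ι * b) ^ (s.2 : ℕ)) (x s.1) := by
  obtain ⟨i, j⟩ := s
  have h0 : ∀ n : ℕ, ∀ y : D.D1.T, e (D.D2.base (((D.D1.ga (rot K)) ^ n) y)) =
      ((a * ι * b) ^ n) (e (D.D2.base y)) := by
    intro n
    induction n with
    | zero => intro y; rfl
    | succ n ih =>
      intro y
      rw [pow_succ', pow_succ', Equiv.Perm.mul_apply, Equiv.Perm.mul_apply, w_ga h, ih]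
  have h1 : D.D1.base (⟨i, j⟩ : HK K) =
      ((D.D1.ga (rot K)) ^ (j : ℕ)) (D.D1.base ⟨i, ⟨0, hK i⟩⟩) := by
    rw [← base_pow, rot_reach K hK i j]
  rw [h1, h0]
  have h2 : e (D.D2.base (D.D1.base ⟨i, ⟨0, hK i⟩⟩)) = x i := h.hx i
  rw [h2]

theorem unique_iso {ρ X : Type} {K : ρ → ℕ} (hK : ∀ i, 0 < K i) (a ι b : Equiv.Perm X)
    (x : ρ → X) (D D' : DD K) (e : D.X ≃ X) (e' : D'.X ≃ X) (h : IsIso hK a ι b x D e)
    (h' : IsIso hK a ι b x D' e') : (⟨D, e⟩ : Σ D : DD K, D.X ≃ X) = ⟨D', e'⟩ := by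
  have key := rigid D.D1 D'.D1 b (a * ι * b) (rot K) (fun y => e (D.D2.base y))
    (fun y => e' (D'.D2.base y)) (fun y z hyz => TD.base_inj (e.injective hyz))
    (fun y z hyz => TD.base_inj (e'.injective hyz))
    (fun s => (w_base h s).trans (w_base h' s).symm)
    (fun y => w_al h y) (fun y => w_ga h y) (fun y => w_al h' y) (fun y => w_ga h' y)
  obtain ⟨hD1, hw⟩ := key
  obtain ⟨D1, f1, D2, f2⟩ := D
  obtain ⟨D1', f1', D2', f2'⟩ := D'
  simp only at hD1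
  subst hD1
  have hw2 : ∀ y : D1.T, e (D2.base y) = e' (D2'.base y) := by
    intro y
    obtain ⟨s, j, hj, rfl⟩ := TD.exists_pt y
    exact hw s j hj hj
  have key2 := rigid D2 D2' ι b D1.al (fun p => e p) (fun p => e' p) e.injective e'.injective
    hw2 h.hι h.hb h'.hι h'.hb
  obtain ⟨hD2, hw3⟩ := key2
  subst hD2
  have he : e = e' := by
    ext p
    obtain ⟨s, j, hj, hp⟩ := TD.exists_pt (D := D2) p
    rw [hp]
    exact hw3 s j hj hj
  subst he
  rfl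

end Pool.Agent.Helper84.MVA
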