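import Pool.Agent.Helper84.MVA.Exists
import Pool.Agent.Helper84.MVA.Unique

/-!
MV-A6 (counting surfaces = counting double towers).  Uses `exists_iso`, `unique_iso`, `DD.isSurf`.

PROOF.  Put `X = Fin (2 * L)`.  For `(D, e)` with `D.Cn`, `e : D.X ≃ X`, transport the structure of
`D` by `e`: `a' = e.permCongr D.a` etc., `x' = e ∘ D.x hK`; it satisfies `IsSurf` (`DD.isSurf`,
transport) and `IsIso`.  Conversely (`exists_iso`) every surface has a `(D, e)` with `IsIso`, and then
`D.Cn` holds by transport of `hS.conn`.  `(D, e)` is unique by `unique_iso`.  Hence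
`{surfaces on X} ≃ Σ D : {D : DD K // D.Cn}, (D.X ≃ X)`
`≃ Σ D : {D : DD K // D.Cn ∧ Nat.card D.X = 2 * L}, (D.X ≃ X)` (if `D.X ≃ Fin (2 L)` then the
cardinality is `2 L`) `≃ {D // ..} × Equiv.Perm (Fin (2 * L))` (choose for each `D` in the subtype an
equivalence `D.X ≃ Fin (2 L)`: `Finite.equivFinOfCardEq`, compose).  `Nat.card_prod`,
`Nat.card_perm`/`Fintype.card_perm`, divide by `(2 L)!`.  Finiteness: the set of surfaces is finite
(subtype of a finite type), so the product is finite, and `Equiv.Perm _` is nonempty.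
-/

namespace Pool.Agent.Helper84.MVA

open Pool.Agent.Helper60.MV

private theorem pc_apply {X Y : Type} (e : X ≃ Y) (f : Equiv.Perm X) (x : X) :
    e.permCongrHom f (e x) = e (f x) := by
  change e (f (e.symm (e x))) = e (f x)
  rw [e.symm_apply_apply]

private theorem pc_apply' {X Y : Type} (e : X ≃ Y) (f : Equiv.Perm X) (y : Y) :
    e.permCongrHom f y = e (f (e.symm y)) := rfl

private theorem pc_eq {X Y : Type} (e : X ≃ Y) (f : Equiv.Perm X) (g : Equiv.Perm Y)
    (h : ∀ x, e (f x) = g (e x)) : e.permCongrHom f = g := by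
  ext y
  rw [pc_apply', h, e.apply_symm_apply]

private theorem pc_pairing {X Y : Type} (e : X ≃ Y) {f : Equiv.Perm X} (h : IsPairing f) :
    IsPairing (e.permCongrHom f) where
  invol y := by
    obtain ⟨x, rfl⟩ := e.surjective y
    rw [pc_apply, pc_apply, h.invol]
  fpf y := by
    obtain ⟨x, rfl⟩ := e.surjective y
    rw [pc_apply]
    exact fun h' => h.fpf x (e.injective h')

private theorem pc_zpow {X Y : Type} (e : X ≃ Y) (f : Equiv.Perm X) (k : ℤ) (x : X) :
    ((e.permCongrHom f) ^ k) (e x) = e ((f ^ k) x) := by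
  rw [← map_zpow, pc_apply]

private theorem pc_same {X Y : Type} (e : X ≃ Y) (f : Equiv.Perm X) (x x' : X) :
    (e.permCongrHom f).SameCycle (e x) (e x') ↔ f.SameCycle x x' := by
  constructor
  · rintro ⟨k, hk⟩
    refine ⟨k, e.injective ?_⟩
    rw [← pc_zpow, hk]
  · rintro ⟨k, hk⟩
    refine ⟨k, ?_⟩
    rw [pc_zpow, hk]

private theorem pc_period {X Y : Type} (e : X ≃ Y) (f : Equiv.Perm X) (x : X) :
    Function.minimalPeriod (e.permCongrHom f) (e x) = Function.minimalPeriod f x := by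
  rw [Function.minimalPeriod_eq_minimalPeriod_iff]
  intro n
  constructor
  · intro h
    have h2 := h.map (g := e.symm) (fb := f) (fun y => by
      rw [pc_apply', e.symm_apply_apply])
    rwa [e.symm_apply_apply] at h2
  · intro h
    exact h.map (g := e) (fun x => (pc_apply e f x).symm)

private theorem pc_clos {X Y : Type} (e : X ≃ Y) (a ι b : Equiv.Perm X) {g : Equiv.Perm X}
    (hg : g ∈ Subgroup.closure ({a, ι, b} : Set (Equiv.Perm X))) :
    e.permCongrHom g ∈ Subgroup.closure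
      ({e.permCongrHom a, e.permCongrHom ι, e.permCongrHom b} : Set (Equiv.Perm Y)) := by
  induction hg using Subgroup.closure_induction with
  | mem x hx =>
    apply Subgroup.subset_closure
    rcases hx with rfl | rfl | rfl
    · exact Or.inl rfl
    · exact Or.inr (Or.inl rfl)
    · exact Or.inr (Or.inr rfl)
  | one => rw [map_one]; exact Subgroup.one_mem _
  | mul x y _ _ h1 h2 => rw [map_mul]; exact Subgroup.mul_mem _ h1 h2
  | inv x _ h1 => rw [map_inv]; exact Subgroup.inv_mem _ h1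

private theorem pc_trans {X Y : Type} (e : X ≃ Y) (a ι b : Equiv.Perm X)
    (hc : ∀ y z : X, ∃ g ∈ Subgroup.closure ({a, ι, b} : Set (Equiv.Perm X)), g y = z) :
    ∀ y z : Y, ∃ g ∈ Subgroup.closure
      ({e.permCongrHom a, e.permCongrHom ι, e.permCongrHom b} : Set (Equiv.Perm Y)), g y = z := by
  intro y z
  obtain ⟨y, rfl⟩ := e.surjective y
  obtain ⟨z, rfl⟩ := e.surjective z
  obtain ⟨g, hg, hgy⟩ := hc y z
  refine ⟨e.permCongrHom g, pc_clos e a ι b hg, ?_⟩
  rw [pc_apply, hgy]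

private theorem pc_surf {X Y ρ : Type} {K : ρ → ℕ} (e : X ≃ Y) {a ι b : Equiv.Perm X} {x : ρ → X}
    (h : IsSurf K a ι b x) :
    IsSurf K (e.permCongrHom a) (e.permCongrHom ι) (e.permCongrHom b) (fun i => e (x i)) where
  ha := pc_pairing e h.ha
  hι := pc_pairing e h.hι
  hb := pc_pairing e h.hb
  conn := pc_trans e a ι b h.conn
  mark i := by
    rw [← map_mul, ← map_mul, pc_period, h.mark]
  dist i j hij := by
    rw [← map_mul, ← map_mul, pc_same]
    exact h.dist i j hij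
  rest y hy := by
    obtain ⟨y, rfl⟩ := e.surjective y
    rw [← map_mul, ← map_mul, pc_period]
    apply h.rest
    intro i
    have := hy i
    rwa [← map_mul, ← map_mul, pc_same] at this

/-- the type of surfaces -/
private def Srf {ρ : Type} (K : ρ → ℕ) (X : Type) : Type :=
  {q : (Equiv.Perm X × Equiv.Perm X × Equiv.Perm X) × (ρ → X) //
    IsSurf K q.1.1 q.1.2.1 q.1.2.2 q.2}

/-- connected double towers with `N` elements -/
private def Sb {ρ : Type} (K : ρ → ℕ) (N : ℕ) : Type :=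
  {D : DD K // D.Cn ∧ Nat.card D.X = N}

/-- transport -/
private def tr {ρ : Type} {K : ρ → ℕ} (hK : ∀ i, 0 < K i) (X : Type) (N : ℕ)
    (p : Σ D : Sb K N, (D.1.X ≃ X)) : Srf K X :=
  ⟨((p.2.permCongrHom p.1.1.a, p.2.permCongrHom p.1.1.io, p.2.permCongrHom p.1.1.b),
    fun i => p.2 (p.1.1.x hK i)), pc_surf p.2 (DD.isSurf hK p.1.1 p.1.2.1)⟩

private theorem tr_iso {ρ : Type} {K : ρ → ℕ} (hK : ∀ i, 0 < K i) (X : Type) (N : ℕ)
    (p : Σ D : Sb K N, (D.1.X ≃ X)) :
    IsIso hK (tr hK X N p).1.1.1 (tr hK X N p).1.1.2.1 (tr hK X N p).1.1.2.2 (tr hK X N p).1.2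
      p.1.1 p.2 where
  ha q := (pc_apply p.2 p.1.1.a q).symm
  hι q := (pc_apply p.2 p.1.1.io q).symm
  hb q := (pc_apply p.2 p.1.1.b q).symm
  hx _ := rfl

private theorem tr_inj {ρ : Type} {K : ρ → ℕ} (hK : ∀ i, 0 < K i) (X : Type) (N : ℕ) :
    Function.Injective (tr hK X N) := by
  intro p q hpq
  have h1 := tr_iso hK X N p
  have h2 := tr_iso hK X N q
  rw [← hpq] at h2
  have h3 := unique_iso hK _ _ _ _ _ _ _ _ h1 h2
  obtain ⟨⟨D, hD⟩, e⟩ := p
  obtain ⟨⟨D', hD'⟩, e'⟩ := q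
  simp only [Sigma.mk.injEq] at h3
  obtain ⟨h4, h5⟩ := h3
  subst h4
  have h6 : e = e' := eq_of_heq h5
  subst h6
  rfl

private theorem tr_surj {ρ : Type} [Nonempty ρ] {K : ρ → ℕ} (hK : ∀ i, 0 < K i) (X : Type)
    [Finite X] : Function.Surjective (tr hK X (Nat.card X)) := by
  rintro ⟨⟨⟨a, ι, b⟩, x⟩, hS⟩
  obtain ⟨D, e, hI⟩ := exists_iso hK a ι b x hS
  have ea : e.permCongrHom D.a = a := pc_eq e _ _ hI.ha
  have ei : e.permCongrHom D.io = ι := pc_eq e _ _ hI.hι
  have eb : e.permCongrHom D.b = b := pc_eq e _ _ hI.hb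
  have ea' : e.symm.permCongrHom a = D.a := by
    rw [← ea]; ext q
    rw [pc_apply', pc_apply', e.symm_symm, e.symm_apply_apply, e.symm_apply_apply]
  have ei' : e.symm.permCongrHom ι = D.io := by
    rw [← ei]; ext q
    rw [pc_apply', pc_apply', e.symm_symm, e.symm_apply_apply, e.symm_apply_apply]
  have eb' : e.symm.permCongrHom b = D.b := by
    rw [← eb]; ext q
    rw [pc_apply', pc_apply', e.symm_symm, e.symm_apply_apply, e.symm_apply_apply]
  have hcn : D.Cn := by
    have h := pc_trans e.symm a ι b hS.conn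
    rw [ea', ei', eb'] at h
    exact h
  refine ⟨⟨⟨D, hcn, Nat.card_congr e⟩, e⟩, ?_⟩
  apply Subtype.ext
  change ((e.permCongrHom D.a, e.permCongrHom D.io, e.permCongrHom D.b),
    fun i => e (D.x hK i)) = ((a, ι, b), x)
  rw [ea, ei, eb]
  congr 1
  funext i
  exact hI.hx i

theorem card_DD {ρ : Type} [Fintype ρ] [Nonempty ρ] (K : ρ → ℕ) (hK : ∀ i, 0 < K i) (L : ℕ) :
    Finite {D : DD K // D.Cn ∧ Nat.card D.X = 2 * L} ∧
    cL K L = (Nat.card {D : DD K // D.Cn ∧ Nat.card D.X = 2 * L} : ℝ) := by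
  classical
  have hX : Nat.card (Fin (2 * L)) = 2 * L := by simp
  let E1 : (Σ D : Sb K (Nat.card (Fin (2 * L))), (D.1.X ≃ Fin (2 * L))) ≃ Srf K (Fin (2 * L)) :=
    Equiv.ofBijective _ ⟨tr_inj hK _ _, tr_surj hK _⟩
  have hE : ∀ D : Sb K (Nat.card (Fin (2 * L))), Nonempty (D.1.X ≃ Fin (2 * L)) := by
    intro D
    have : Finite D.1.X := inferInstance
    exact ⟨Finite.equivFinOfCardEq (D.2.2.trans hX)⟩
  let E2 : (Σ D : Sb K (Nat.card (Fin (2 * L))), (D.1.X ≃ Fin (2 * L))) ≃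
      Sb K (Nat.card (Fin (2 * L))) × Equiv.Perm (Fin (2 * L)) :=
    Equiv.sigmaEquivProdOfEquiv fun D => Equiv.equivCongr (hE D).some (Equiv.refl _)
  let E3 := E2.symm.trans E1
  have : Finite (Srf K (Fin (2 * L))) := by
    unfold Srf
    infer_instance
  have hf : Finite (Sb K (Nat.card (Fin (2 * L)))) := by
    have := Finite.of_equiv _ E3.symm
    exact Finite.prod_left (Equiv.Perm (Fin (2 * L)))
  have hc := Nat.card_congr E3
  rw [Nat.card_prod, Nat.card_perm, hX] at hc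
  rw [hX] at hf
  refine ⟨hf, ?_⟩
  have h2 : cL K L = (Nat.card (Srf K (Fin (2 * L))) : ℝ) / ((2 * L).factorial : ℝ) := rfl
  rw [h2, ← hc, Nat.cast_mul, mul_div_assoc, div_self, mul_one]
  · rfl
  · exact_mod_cast (Nat.factorial_pos _).ne'

end Pool.Agent.Helper84.MVA
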