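import Pool.Agent.Helper84.MVA.Tower

/-!
Project MV, block A: double towers.

`IsGl l D`: the tower datum `D` over `Y` is compatible with the permutation `l` of `Y`
(`D.τ` is an antitranslation of the cycles of `l`, without fixed point, heights constant on cycles).
`glBeta`: the induced pairing of the cycles of `l`.
`DD K`: double tower data of type `K`; `D.X` its space, with `D.a`, `D.io`, `D.b`, `D.x`.
-/

namespace Pool.Agent.Helper84.MVA

open Pool.Agent.Helper60.MV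

/-! ## Gluing data over a permutation -/

/-- compatibility of a tower datum over `Y` with a permutation `l` of `Y` -/
structure IsGl {Y : Type} (l : Equiv.Perm Y) (D : TD Y) : Prop where
  fpf : ∀ y, D.τ y ≠ y
  anti : ∀ y, D.τ (l (D.τ y)) = l.symm y
  fpf' : ∀ y, l (D.τ y) ≠ y
  hl : ∀ y, D.ℓ (l y) = D.ℓ y

section gl

variable {Y : Type} {l : Equiv.Perm Y} {t : Equiv.Perm Y}

theorem anti_zpow (h1 : ∀ y, t (t y) = y) (h2 : ∀ y, t (l (t y)) = l.symm y) (k : ℤ) (y : Y) :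
    t ((l ^ k) y) = (l ^ (-k)) (t y) := by
  have hc : t * l * t⁻¹ = l⁻¹ := by
    have ht : t⁻¹ = t := by
      ext y
      rw [Equiv.Perm.inv_eq_iff_eq, h1]
    rw [ht]
    ext y
    exact h2 y
  have h3 : (t * l * t⁻¹) ^ k = (l⁻¹) ^ k := by rw [hc]
  rw [conj_zpow, inv_zpow, ← zpow_neg] at h3
  have h4 := congrArg (fun g : Equiv.Perm Y => g (t y)) h3
  simpa using h4

theorem anti_sameCycle (h1 : ∀ y, t (t y) = y) (h2 : ∀ y, t (l (t y)) = l.symm y) {y z : Y}
    (h : l.SameCycle y z) : l.SameCycle (t y) (t z) := by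
  obtain ⟨k, rfl⟩ := h
  exact ⟨-k, (anti_zpow h1 h2 k y).symm⟩

/-- the involution of the cycles induced by an antitranslation -/
def cycMap (h1 : ∀ y, t (t y) = y) (h2 : ∀ y, t (l (t y)) = l.symm y) : Equiv.Perm (Cyc l) where
  toFun := Quotient.map t (fun _ _ h => anti_sameCycle h1 h2 h)
  invFun := Quotient.map t (fun _ _ h => anti_sameCycle h1 h2 h)
  left_inv c := by
    obtain ⟨y, rfl⟩ := Quotient.exists_rep c
    rw [Quotient.map_mk, Quotient.map_mk, h1]
  right_inv c := by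
    obtain ⟨y, rfl⟩ := Quotient.exists_rep c
    rw [Quotient.map_mk, Quotient.map_mk, h1]

theorem cycMap_cyc (h1 : ∀ y, t (t y) = y) (h2 : ∀ y, t (l (t y)) = l.symm y) (y : Y) :
    cycMap h1 h2 (cyc l y) = cyc l (t y) := rfl

theorem cyc_eq_iff {y z : Y} : cyc l y = cyc l z ↔ l.SameCycle y z :=
  ⟨fun h => Quotient.exact h, fun h => Quotient.sound h⟩

theorem cyc_surj (c : Cyc l) : ∃ y, c = cyc l y := by
  obtain ⟨y, rfl⟩ := Quotient.exists_rep c
  exact ⟨y, rfl⟩

theorem cyc_rep (c : Cyc l) : cyc l c.rep = c := Quotient.out_eq c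

theorem cyc_apply (y : Y) : cyc l (l y) = cyc l y :=
  cyc_eq_iff.2 ⟨-1, by simp⟩

/-- no cycle is fixed -/
theorem cyc_ne (h1 : ∀ y, t (t y) = y) (h2 : ∀ y, t (l (t y)) = l.symm y) (h3 : ∀ y, t y ≠ y)
    (h4 : ∀ y, l (t y) ≠ y) (y : Y) : cyc l (t y) ≠ cyc l y := by
  intro h
  obtain ⟨k, hk⟩ := cyc_eq_iff.1 h.symm
  rcases Int.even_or_odd' k with ⟨j, hj | hj⟩
  · refine h3 ((l ^ j) y) ?_
    rw [anti_zpow h1 h2, ← hk, ← Equiv.Perm.mul_apply, ← zpow_add]
    congr 2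
    omega
  · refine h4 ((l ^ (j + 1)) y) ?_
    rw [anti_zpow h1 h2, ← hk]
    have : l ((l ^ (-(j + 1))) ((l ^ k) y)) = (l ^ (1 + -(j + 1) + k)) y := by
      rw [zpow_add, zpow_add, zpow_one]
      rfl
    rw [this]
    congr 2
    omega

theorem cycMap_pairing (h1 : ∀ y, t (t y) = y) (h2 : ∀ y, t (l (t y)) = l.symm y)
    (h3 : ∀ y, t y ≠ y) (h4 : ∀ y, l (t y) ≠ y) : IsPairing (cycMap h1 h2) where
  invol c := (cycMap h1 h2).left_inv c
  fpf c := by
    obtain ⟨y, rfl⟩ := cyc_surj c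
    rw [cycMap_cyc]
    exact cyc_ne h1 h2 h3 h4 y

end gl

/-- the pairing of the cycles induced by a gluing datum -/
def glBeta {Y : Type} {l : Equiv.Perm Y} {D : TD Y} (h : IsGl l D) : Equiv.Perm (Cyc l) :=
  cycMap D.inv h.anti

theorem glBeta_cyc {Y : Type} {l : Equiv.Perm Y} {D : TD Y} (h : IsGl l D) (y : Y) :
    glBeta h (cyc l y) = cyc l (D.τ y) := rfl

theorem glBeta_pairing {Y : Type} {l : Equiv.Perm Y} {D : TD Y} (h : IsGl l D) :
    IsPairing (glBeta h) := cycMap_pairing D.inv h.anti h.fpf h.fpf'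

namespace TD

variable {Y : Type} (D : TD Y)

/-- horizontal shift of the tower -/
def sh (l : Equiv.Perm Y) (hl : ∀ y, D.ℓ (l y) = D.ℓ y) : Equiv.Perm D.T where
  toFun p := D.pt (l p.1.1) p.1.2 (by rw [hl]; exact p.2)
  invFun p := D.pt (l.symm p.1.1) p.1.2 (by
    rw [← hl (l.symm p.1.1), Equiv.apply_symm_apply]; exact p.2)
  left_inv p := by
    obtain ⟨s, j, h, rfl⟩ := exists_pt p
    exact pt_ext (by simp [pt]) rfl
  right_inv p := by
    obtain ⟨s, j, h, rfl⟩ := exists_pt p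
    exact pt_ext (by simp [pt]) rfl

theorem sh_pt (l : Equiv.Perm Y) (hl : ∀ y, D.ℓ (l y) = D.ℓ y) {y : Y} {j : ℕ} (h : j < D.ℓ y) :
    D.sh l hl (D.pt y j h) = D.pt (l y) j (by rw [hl]; exact h) := rfl

end TD

/-! ## The first tower -/

/-- the rows of squares in the first tower -/
def lY {ρ : Type} {K : ρ → ℕ} (D1 : TD (HK K)) : Equiv.Perm D1.T := D1.ga (rot K) * D1.al

theorem lY_pt {ρ : Type} {K : ρ → ℕ} (D1 : TD (HK K)) {h : HK K} {j : ℕ} (hj : j + 1 < D1.ℓ h) :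
    lY D1 (D1.pt h j (by omega)) = D1.pt h (j + 1) hj := D1.ga_al_pt _ hj

theorem lY_top {ρ : Type} {K : ρ → ℕ} (D1 : TD (HK K)) {h : HK K} {j : ℕ} (hj : j + 1 = D1.ℓ h) :
    lY D1 (D1.pt h j (by omega)) = D1.base ((rot K * D1.τ) h) := D1.ga_al_top _ hj

/-! ## Double towers -/

/-- double tower data -/
structure DD {ρ : Type} (K : ρ → ℕ) where
  D1 : TD (HK K)
  f1 : ∀ h, D1.τ h ≠ h
  D2 : TD D1.T
  f2 : IsGl (lY D1) D2

namespace DD

variable {ρ : Type} {K : ρ → ℕ} (D : DD K)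

/-- the set of oriented squares -/
def X : Type := D.D2.T

/-- shift along rows -/
def l : Equiv.Perm D.X := D.D2.sh (lY D.D1) D.f2.hl

/-- rotation by `π` -/
def io : Equiv.Perm D.X := D.D2.al

/-- pairing of the top sides -/
def b : Equiv.Perm D.X := D.D2.ga D.D1.al

/-- pairing of the right sides -/
def a : Equiv.Perm D.X := D.l * D.io

/-- the marked squares -/
def x (hK : ∀ i, 0 < K i) (i : ρ) : D.X := D.D2.base (D.D1.base ⟨i, ⟨0, hK i⟩⟩)

/-- transitivity -/
def Cn : Prop := ∀ y z : D.X,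
  ∃ g ∈ Subgroup.closure ({D.a, D.io, D.b} : Set (Equiv.Perm D.X)), g y = z

instance [Finite ρ] : Finite D.X := by
  have : Finite (HK K) := inferInstance
  have : Finite D.D1.T := inferInstance
  exact inferInstanceAs (Finite D.D2.T)

end DD

/-- an identification of a double tower with a marked surface -/
structure IsIso {ρ X : Type} {K : ρ → ℕ} (hK : ∀ i, 0 < K i) (a ι b : Equiv.Perm X) (x : ρ → X)
    (D : DD K) (e : D.X ≃ X) : Prop where
  ha : ∀ p, e (D.a p) = a (e p)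
  hι : ∀ p, e (D.io p) = ι (e p)
  hb : ∀ p, e (D.b p) = b (e p)
  hx : ∀ i, e (D.x hK i) = x i

end Pool.Agent.Helper84.MVA
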