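import Pool.Agent.Helper84.MVA.Fold
import Pool.Agent.Helper84.MVA.Surf

/-!
MV-A4 (every marked surface is a double tower).  Uses `fold`, `fold_fpf`, `rot_*` (Fold, Surf).

PROOF.  `v = a * ι * b`.  `η h = (v ^ (h.2 : ℕ)) (x h.1)` for `h : HK K`.
(1) `η` is injective (`hS.dist` gives equal first components, then `hS.mark`: exponents are
`< minimalPeriod`), `v (η h) = η (rot K h)` (at the last element use `v ^ (K i) (x i) = x i`),
and an element not in `range η` is in no cycle of an `x i`, so `v (v z) = z`, `v z ≠ z` (`hS.rest`,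
`minimalPeriod = 2`).
(2) `fold` with `α = b`, `γ = v`: `D1`, `w1 : D1.T → X`; `fold_fpf`: `D1.τ` has no fixed point.
`w1 (lY D1 y) = v (b (w1 y)) = l (w1 y)` where `l = a * ι` (`b (b z) = z`).
(3) `fold` with `α = ι`, `γ = b`, `η = w1`, `g = D1.al` (`b (b z) = z` everywhere): `D2`,
`w2 : D2.T → X`; `w2 (base y) = w1 y`; `fold_fpf`: `D2.τ` has no fixed point.
(4) For `z` not in `range w1`: `b (l z) = l⁻¹ (b z)` and `l (b z) = b (l⁻¹ z)`.  [`v = l b`; for `z'`
not in `range η`, `v (v z') = z'`, i.e. `l (b (l (b z'))) = z'`.  `range w1` is invariant under `b`,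
`l`, `l⁻¹` (and contains `range η`), so apply it to `z' = b z`: `l (b (l z)) = b z`; second: apply
the first to `l⁻¹ z`.]  Also `ι (l z) = l⁻¹ (ι z)` for all `z` (`ι a ι ι`: `l⁻¹ = ι a`).
(5) CLAIM: for all `j` and `y` with `j < D2.ℓ y` and `j < D2.ℓ (lY y)`:
`w2 (pt (lY y) j) = l (w2 (pt y j))`.  Induction on `j`: `j = 0` is (2).  Step: put
`u = w2 (al (pt y j)) = ι (w2 (pt y j))`, `u' = ι (w2 (pt (lY y) j)) = ι (l (w2 (pt y j))) =
l⁻¹ u`.  Since `j + 1 < D2.ℓ y`, `al (pt y j)` is not in the base, `u` is not in `range w1`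
(injectivity of `w2`), so `w2 (pt (lY y) (j+1)) = b u' = b (l⁻¹ u) = l (b u) = l (w2 (pt y (j+1)))`.
(6) `D2.ℓ (lY y) = D2.ℓ y`: with `j` as in (5), `j + 1 = D2.ℓ y` iff `al (pt y j)` is in the base
iff `u ∈ range w1` iff `l⁻¹ u ∈ range w1` iff `j + 1 = D2.ℓ (lY y)`.  At the top `j + 1 = D2.ℓ y`:
`w1 (τ₂ (lY y)) = u' = l⁻¹ u = l⁻¹ (w1 (τ₂ y))`, so `lY (τ₂ (lY y)) = τ₂ y`; applied to `τ₂ y`:
`anti`.
(7) `fpf'`: let `lY (τ₂ y) = y`, `m = D2.ℓ y`.  By (5), (6): `a (w2 (pt y k)) = l (ι (w2 (pt y k))) =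
l (w2 (pt (τ₂ y) (m-1-k))) = w2 (pt y (m-1-k))`: for `m` odd, `k = (m-1)/2` this is a fixed point
of `a`.  `v (w2 (pt y k)) = l (b (w2 (pt y k))) = w2 (pt y (m-k))` for `k ≠ 0`: for `m` even,
`k = m/2`, this is a fixed point of `v`; it is not in `range w1` (injectivity of `w2`), hence not in
`range η`: contradiction with (1).
(8) `D = ⟨D1, _, D2, _⟩`.  `w2` intertwines `D.io`, `D.b` (fold) and `D.l` with `l` ((5), (6)), so
also `D.a`.  It is injective; it is surjective because its range is invariant under the subgroup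
generated by `a, ι, b` (`Subgroup.closure_induction`; finite, so inverses are fine: each generator
is an involution), `ρ` is nonempty and `hS.conn`.  `e = Equiv.ofBijective w2 _`.
-/

namespace Pool.Agent.Helper84.MVA

open Pool.Agent.Helper60.MV

private theorem ex_finRotate (n : ℕ) (j : Fin n) :
    ((finRotate n j : Fin n) : ℕ) = if (j : ℕ) + 1 = n then 0 else (j : ℕ) + 1 := by
  cases n with
  | zero => exact j.elim0
  | succ n =>
    rw [coe_finRotate]
    by_cases h : j = Fin.last n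
    · rw [if_pos h, if_pos]
      rw [h, Fin.val_last]
    · rw [if_neg h, if_neg]
      intro h2
      apply h
      apply Fin.ext
      rw [Fin.val_last]
      omega

private noncomputable def exEta {ρ X : Type} (K : ρ → ℕ) (v : Equiv.Perm X) (x : ρ → X)
    (h : HK K) : X := (v ^ (h.2 : ℕ)) (x h.1)

private theorem exEta_inj {ρ X : Type} (K : ρ → ℕ) (v : Equiv.Perm X) (x : ρ → X)
    (mark : ∀ i, Function.minimalPeriod v (x i) = K i)
    (dist : ∀ i j, i ≠ j → ¬ v.SameCycle (x i) (x j)) : Function.Injective (exEta K v x) := by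
  rintro ⟨i, j⟩ ⟨i', j'⟩ h
  have h' : (v ^ (j : ℕ)) (x i) = (v ^ (j' : ℕ)) (x i') := h
  have hii : i = i' := by
    by_contra hne
    apply dist i i' hne
    have h1 : v.SameCycle (x i) ((v ^ (j : ℕ)) (x i)) :=
      Equiv.Perm.sameCycle_pow_right.mpr (Equiv.Perm.SameCycle.refl v (x i))
    rw [h'] at h1
    exact Equiv.Perm.sameCycle_pow_right.mp h1
  subst hii
  have hj : (j : ℕ) = (j' : ℕ) := by
    apply Function.iterate_injOn_Iio_minimalPeriod (f := v) (x := x i)
    · rw [mark i]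
      exact j.2
    · rw [mark i]
      exact j'.2
    · show v^[(j : ℕ)] (x i) = v^[(j' : ℕ)] (x i)
      rw [Equiv.Perm.iterate_eq_pow, Equiv.Perm.iterate_eq_pow]
      exact h'
  have hj2 : j = j' := Fin.ext hj
  subst hj2
  rfl

private theorem exEta_rot {ρ X : Type} (K : ρ → ℕ) (v : Equiv.Perm X) (x : ρ → X)
    (mark : ∀ i, Function.minimalPeriod v (x i) = K i) (h : HK K) :
    v (exEta K v x h) = exEta K v x (rot K h) := by
  obtain ⟨i, j⟩ := h
  have h1 : rot K ⟨i, j⟩ = ⟨i, finRotate (K i) j⟩ := rfl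
  rw [h1]
  show v ((v ^ (j : ℕ)) (x i)) = (v ^ ((finRotate (K i) j : Fin (K i)) : ℕ)) (x i)
  rw [ex_finRotate]
  have h2 : v ((v ^ (j : ℕ)) (x i)) = (v ^ ((j : ℕ) + 1)) (x i) := by
    rw [pow_succ']
    rfl
  rw [h2]
  split_ifs with h3
  · rw [h3, ← mark i, ← Equiv.Perm.iterate_eq_pow, Function.iterate_minimalPeriod]
    rfl
  · rfl

private theorem exEta_rest {ρ X : Type} [Finite X] (K : ρ → ℕ) (hK : ∀ i, 0 < K i)
    (v : Equiv.Perm X) (x : ρ → X)
    (mark : ∀ i, Function.minimalPeriod v (x i) = K i)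
    (rest : ∀ y, (∀ i, ¬ v.SameCycle (x i) y) → Function.minimalPeriod v y = 2) (z : X)
    (hz : z ∉ Set.range (exEta K v x)) : v (v z) = z ∧ v z ≠ z := by
  have h1 : ∀ i, ¬ v.SameCycle (x i) z := by
    intro i hi
    obtain ⟨n, hn⟩ := hi.exists_nat_pow_eq
    apply hz
    refine ⟨⟨i, ⟨n % K i, Nat.mod_lt _ (hK i)⟩⟩, ?_⟩
    show (v ^ (n % K i)) (x i) = z
    rw [← hn, ← Equiv.Perm.iterate_eq_pow, ← Equiv.Perm.iterate_eq_pow, ← mark i,
      Function.iterate_mod_minimalPeriod_eq]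
  have h2 := rest z h1
  refine ⟨?_, ?_⟩
  · have h3 := Function.iterate_minimalPeriod (f := v) (x := z)
    rw [h2] at h3
    exact h3
  · intro h3
    have h4 := Function.minimalPeriod_eq_one_iff_isFixedPt.mpr h3
    rw [h2] at h4
    omega

theorem exists_iso {ρ X : Type} [Nonempty ρ] [Finite X] {K : ρ → ℕ} (hK : ∀ i, 0 < K i)
    (a ι b : Equiv.Perm X) (x : ρ → X) (hS : IsSurf K a ι b x) :
    ∃ (D : DD K) (e : D.X ≃ X), IsIso hK a ι b x D e := by
  classical
  obtain ⟨ha, hι, hb, conn, mark, dist, rest⟩ := hS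
  -- step 1
  have hηinj := exEta_inj K (a * ι * b) x mark dist
  have hηrot := exEta_rot K (a * ι * b) x mark
  have hηrest := exEta_rest K hK (a * ι * b) x mark rest
  -- step 2
  obtain ⟨D1, w1, hw1, hbase1, hal1, hga1⟩ := fold b (a * ι * b) hb.invol _ hηinj (rot K) hηrot
    (fun z hz => (hηrest z hz).1)
  have f1 : ∀ s, D1.τ s ≠ s := by
    refine fold_fpf b (a * ι * b) (rot K) D1 w1 hw1 hal1 hga1 hb.fpf ?_
    intro z hz
    apply (hηrest z ?_).2
    rintro ⟨s, hs⟩
    exact hz s ((hbase1 s).trans hs)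
  have hlY : ∀ y, w1 (lY D1 y) = a (ι (w1 y)) := by
    intro y
    have h1 : lY D1 y = D1.ga (rot K) (D1.al y) := rfl
    rw [h1, hga1, hal1]
    show a (ι (b (b (w1 y)))) = _
    rw [hb.invol]
  -- step 3
  obtain ⟨D2, w2, hw2, hbase2, hal2, hga2⟩ := fold ι b hι.invol w1 hw1 D1.al
    (fun s => (hal1 s).symm) (fun z _ => hb.invol z)
  have f2 : ∀ y, D2.τ y ≠ y :=
    fold_fpf ι b D1.al D2 w2 hw2 hal2 hga2 hι.fpf (fun z _ => hb.fpf z)
  -- step 4
  have hRl : ∀ z, a (ι z) ∈ Set.range w1 ↔ z ∈ Set.range w1 := by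
    intro z
    constructor
    · rintro ⟨y, hy⟩
      refine ⟨(lY D1).symm y, ?_⟩
      have h1 := hlY ((lY D1).symm y)
      rw [Equiv.apply_symm_apply, hy] at h1
      exact (ι.injective (a.injective h1)).symm
    · rintro ⟨y, rfl⟩
      exact ⟨lY D1 y, hlY y⟩
  have hRb : ∀ z, b z ∈ Set.range w1 → z ∈ Set.range w1 := by
    rintro z ⟨y, hy⟩
    refine ⟨D1.al y, ?_⟩
    rw [hal1, hy, hb.invol]
  have hA : ∀ z, z ∉ Set.range w1 → a (ι (b (a (ι z)))) = b z := by
    intro z hz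
    have h1 : b z ∉ Set.range (exEta K (a * ι * b) x) := by
      rintro ⟨s, hs⟩
      apply hz
      apply hRb
      exact ⟨D1.base s, (hbase1 s).trans hs⟩
    have h2 := (hηrest _ h1).1
    have h3 : (a * ι * b) ((a * ι * b) (b z)) = a (ι (b (a (ι (b (b z)))))) := rfl
    rw [h3, hb.invol] at h2
    exact h2
  have hC : ∀ z, a (ι (ι (a (ι z)))) = ι z := by
    intro z
    rw [hι.invol, ha.invol]
  -- top of the tower
  have hnotR : ∀ (y : D1.T) (j : ℕ) (h : j < D2.ℓ y),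
      (ι (w2 (D2.pt y j h)) ∈ Set.range w1 ↔ j + 1 = D2.ℓ y) := by
    intro y j h
    constructor
    · rintro ⟨y', hy'⟩
      rw [← hal2, ← hbase2, D2.al_pt h] at hy'
      have h2 := (TD.pt_inj (hw2 hy')).2
      omega
    · intro h1
      refine ⟨D2.τ y, ?_⟩
      rw [← hbase2, ← D2.al_top h1, hal2]
  -- step 5
  have hcl : ∀ (j : ℕ) (y : D1.T) (h : j < D2.ℓ y) (h' : j < D2.ℓ (lY D1 y)),
      w2 (D2.pt (lY D1 y) j h') = a (ι (w2 (D2.pt y j h))) := by
    intro j
    induction j with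
    | zero =>
      intro y h h'
      rw [TD.pt_zero, TD.pt_zero, hbase2, hbase2, hlY]
    | succ j ih =>
      intro y h h'
      have ihy := ih y (by omega) (by omega)
      rw [← D2.ga_al_pt D1.al h, ← D2.ga_al_pt D1.al h', hga2, hga2, hal2, hal2, ihy]
      have h1 : ι (w2 (D2.pt y j (by omega))) ∉ Set.range w1 := by
        rw [hnotR]
        omega
      have h2 : ι (a (ι (w2 (D2.pt y j (by omega))))) ∉ Set.range w1 := by
        rw [← hRl, hC]
        exact h1
      have h3 := hA _ h2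
      rw [hC] at h3
      exact h3.symm
  -- step 6
  have htop : ∀ (j : ℕ) (y : D1.T) (_ : j < D2.ℓ y) (_ : j < D2.ℓ (lY D1 y)),
      (j + 1 = D2.ℓ y ↔ j + 1 = D2.ℓ (lY D1 y)) := by
    intro j y h h'
    rw [← hnotR y j h, ← hnotR (lY D1 y) j h', hcl j y h h', ← hRl (ι (a (ι (w2 (D2.pt y j h))))),
      hC]
  have hhl : ∀ y, D2.ℓ (lY D1 y) = D2.ℓ y := by
    intro y
    have p1 := D2.pos y
    have p2 := D2.pos (lY D1 y)
    rcases lt_trichotomy (D2.ℓ (lY D1 y)) (D2.ℓ y) with h | h | h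
    · have h1 := htop (D2.ℓ (lY D1 y) - 1) y (by omega) (by omega)
      omega
    · exact h
    · have h1 := htop (D2.ℓ y - 1) y (by omega) (by omega)
      omega
  have hcl2 : ∀ (j : ℕ) (y : D1.T) (h : j < D2.ℓ y),
      w2 (D2.pt (lY D1 y) j (by rw [hhl]; exact h)) = a (ι (w2 (D2.pt y j h))) := by
    intro j y h
    exact hcl j y h _
  have hanti0 : ∀ y, lY D1 (D2.τ (lY D1 y)) = D2.τ y := by
    intro y
    have p1 := D2.pos y
    have h1 : D2.ℓ y - 1 + 1 = D2.ℓ y := by omega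
    have h2 : D2.ℓ y - 1 + 1 = D2.ℓ (lY D1 y) := by rw [hhl]; exact h1
    have e1 : ι (w2 (D2.pt y (D2.ℓ y - 1) (by omega))) = w1 (D2.τ y) := by
      rw [← hal2, D2.al_top h1, hbase2]
    have e2 : ι (w2 (D2.pt (lY D1 y) (D2.ℓ y - 1) (by omega))) = w1 (D2.τ (lY D1 y)) := by
      rw [← hal2, D2.al_top h2, hbase2]
    apply hw1
    rw [hlY, ← e1, ← e2, hcl2 (D2.ℓ y - 1) y (by omega), hC]
  have hanti : ∀ y, D2.τ (lY D1 (D2.τ y)) = (lY D1).symm y := by
    intro y
    rw [Equiv.eq_symm_apply, hanti0, D2.inv]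
  -- step 7
  have hfpf : ∀ y, lY D1 (D2.τ y) ≠ y := by
    intro y hy
    have p1 := D2.pos y
    have hsym := D2.sym y
    rcases Nat.even_or_odd' (D2.ℓ y) with ⟨k, hk | hk⟩
    · have hj : k < D2.ℓ y := by omega
      have hk0 : k ≠ 0 := by omega
      have h1 : w2 (D2.pt y k hj) ∉ Set.range (exEta K (a * ι * b) x) := by
        rintro ⟨s, hs⟩
        rw [← hbase1, ← hbase2] at hs
        exact hk0 (TD.pt_inj (hw2 hs)).2.symm
      apply (hηrest _ h1).2
      show a (ι (b (w2 (D2.pt y k hj)))) = _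
      rw [← hga2, D2.ga_pt D1.al hj hk0, ← hcl2]
      exact congrArg w2 (TD.pt_ext hy (by omega))
    · have hj : k < D2.ℓ y := by omega
      apply ha.fpf (w2 (D2.pt y k hj))
      have h1 : a (w2 (D2.pt y k hj)) = a (ι (ι (w2 (D2.pt y k hj)))) := by rw [hι.invol]
      rw [h1, ← hal2, D2.al_pt hj, ← hcl2]
      exact congrArg w2 (TD.pt_ext hy (by omega))
  -- step 8
  have hgl : IsGl (lY D1) D2 := ⟨f2, hanti, hfpf, hhl⟩
  have key : ∃ e : (⟨D1, f1, D2, hgl⟩ : DD K).X ≃ X, IsIso hK a ι b x ⟨D1, f1, D2, hgl⟩ e := by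
    have hlD : ∀ p : D2.T, w2 ((⟨D1, f1, D2, hgl⟩ : DD K).l p) = a (ι (w2 p)) := by
      intro p
      obtain ⟨y, j, hj, rfl⟩ := TD.exists_pt p
      exact hcl2 j y hj
    have haD : ∀ p : D2.T, w2 ((⟨D1, f1, D2, hgl⟩ : DD K).a p) = a (w2 p) := by
      intro p
      have h1 : (⟨D1, f1, D2, hgl⟩ : DD K).a p = (⟨D1, f1, D2, hgl⟩ : DD K).l (D2.al p) := rfl
      rw [h1, hlD, hal2, hι.invol]
    have hxD : ∀ i, w2 ((⟨D1, f1, D2, hgl⟩ : DD K).x hK i) = x i := by
      intro i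
      show w2 (D2.base (D1.base ⟨i, ⟨0, hK i⟩⟩)) = x i
      rw [hbase2, hbase1]
      rfl
    have hsurj : Function.Surjective w2 := by
      intro z
      obtain ⟨i0⟩ := ‹Nonempty ρ›
      obtain ⟨g, hg, hgz⟩ := conn (x i0) z
      have hclos : ∀ g ∈ Subgroup.closure ({a, ι, b} : Set (Equiv.Perm X)),
          ∀ p, (p ∈ Set.range w2 ↔ g p ∈ Set.range w2) := by
        intro g hg
        induction hg using Subgroup.closure_induction with
        | mem g hg =>
          have hstep : ∀ g : Equiv.Perm X, (∀ p, g (g p) = p) →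
              (∀ p, p ∈ Set.range w2 → g p ∈ Set.range w2) →
              ∀ p, (p ∈ Set.range w2 ↔ g p ∈ Set.range w2) := by
            intro g h1 h2 p
            refine ⟨h2 p, fun h3 => ?_⟩
            have h4 := h2 _ h3
            rw [h1] at h4
            exact h4
          rcases hg with rfl | rfl | rfl
          · apply hstep _ ha.invol
            rintro p ⟨q, rfl⟩
            exact ⟨_, haD q⟩
          · apply hstep _ hι.invol
            rintro p ⟨q, rfl⟩
            exact ⟨_, hal2 q⟩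
          · apply hstep _ hb.invol
            rintro p ⟨q, rfl⟩
            exact ⟨_, hga2 q⟩
        | one => intro p; rfl
        | mul g g' _ _ h1 h2 =>
          intro p
          rw [h2 p, h1 (g' p)]
          rfl
        | inv g _ h1 =>
          intro p
          have h2 : g (g⁻¹ p) = p := by simp
          rw [h1 (g⁻¹ p), h2]
      have h5 := (hclos g hg (x i0)).mp ⟨_, hxD i0⟩
      rw [hgz] at h5
      exact h5
    refine ⟨Equiv.ofBijective w2 ⟨hw2, hsurj⟩, ⟨?_, ?_, ?_, ?_⟩⟩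
    · intro p
      exact haD p
    · intro p
      exact hal2 p
    · intro p
      exact hga2 p
    · intro i
      exact hxD i
  exact ⟨_, key⟩

end Pool.Agent.Helper84.MVA
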