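import Pool.Agent.Helper84.MVA.Double

/-!
MV-A1 (FOLDING LEMMA).  Only the statements below matter; add as many helper lemmas as you like.

PROOF of `fold`.  Put `S = range η`.  `γ` maps `S` onto `S` (`hg`, `g` surjective), hence maps the
complement of `S` to itself.  For `s : S` define `w_0 = η s`, `w_{j+1} = γ (α (w_j))`
(`w_j = (γ * α)^j (η s)`), `u_j = α (w_j)`.  There is a least `n = n(s) ≥ 0` with `u_n ∈ S`:
otherwise all `w_{j+1} = γ u_j ∉ S`, but `γ * α` is a permutation of the finite set `X`, so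
`w_m = w_0 ∈ S` for some `m ≥ 1` (`Function.minimalPeriod`, `isOfFinOrder`, `pow_orderOf_eq_one`).
Put `ℓ(s) = n(s) + 1 ≥ 1` and `η (τ s) = u_n` (choose the preimage; `η` is injective).
* `w_j ∉ S` for `1 ≤ j < ℓ(s)` (`w_j = γ u_{j-1}`, `u_{j-1} ∉ S`).
* reversed walk: `w_j(τ s) = u_{n-j}(s)` and `u_j(τ s) = w_{n-j}(s)` for `0 ≤ j ≤ n`
  (induction on `j`: `w_0(τ s) = u_n(s)`; `u_j = α w_j` gives the second from the first by `hα`;
  `w_{j+1}(τ s) = γ (u_j(τ s)) = γ (w_{n-j}(s)) = γ γ u_{n-j-1}(s) = u_{n-j-1}(s)` by `hγ`, because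
  `u_{n-j-1}(s) ∉ S`).  So `u_j(τ s) = w_{n-j}(s)` is in `S` exactly for `j = n` (in the range
  `0 ≤ j ≤ n`), i.e. `ℓ(τ s) = ℓ(s)` and `τ (τ s) = s`.
* The map `w (s, j) = w_j(s)`, `0 ≤ j < ℓ(s)`, is injective: if `(γα)^j (η s) = (γα)^{j'} (η s')`
  with `j ≤ j'` then `η s = (γα)^{j'-j} (η s')`, which is not in `S` if `1 ≤ j' - j < ℓ(s')`; so
  `j = j'`, `s = s'`.
* `α w_j(s) = u_j(s) = w_{n-j}(τ s)`; `γ w_0(s) = η (g s)`; for `1 ≤ j < ℓ(s)`:
  `γ w_j(s) = γ γ u_{j-1}(s) = u_{j-1}(s) = w_{n-j+1}(τ s) = w_{ℓ-j}(τ s)`.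

PROOF of `fold_fpf`.  Let `τ s = s`.  If `ℓ s` is odd, `p = pt s ((ℓ s - 1)/2)` is fixed by `D.al`
(`al_pt`, `pt_ext`), so `α (w p) = w p`.  If `ℓ s` is even, `j = ℓ s / 2 ≥ 1`, `p = pt s j` is fixed
by `D.ga g` (`ga_pt`), so `γ (w p) = w p`, and `w p` is not in `range (w ∘ base)` by injectivity of
`w` (`j ≠ 0`).
-/

namespace Pool.Agent.Helper84.MVA

open Pool.Agent.Helper60.MV

theorem fold {X S : Type} [Finite X] (α γ : Equiv.Perm X) (hα : ∀ x, α (α x) = x)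
    (η : S → X) (hη : Function.Injective η) (g : Equiv.Perm S) (hg : ∀ s, γ (η s) = η (g s))
    (hγ : ∀ x, x ∉ Set.range η → γ (γ x) = x) :
    ∃ (D : TD S) (w : D.T → X), Function.Injective w ∧ (∀ s, w (D.base s) = η s) ∧
      (∀ p, w (D.al p) = α (w p)) ∧ (∀ p, w (D.ga g p) = γ (w p)) := by
  classical
  have hr : ∀ x, γ x ∈ Set.range η → x ∈ Set.range η := by
    rintro x ⟨t, ht⟩
    refine ⟨g.symm t, ?_⟩
    apply γ.injective
    rw [hg, Equiv.apply_symm_apply, ht]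
  obtain ⟨P, hP⟩ : ∃ P : Equiv.Perm X, P = γ * α := ⟨_, rfl⟩
  have hPs : ∀ (k : ℕ) (x : X), (P ^ (k + 1)) x = γ (α ((P ^ k) x)) := by
    intro k x
    rw [pow_succ', Equiv.Perm.mul_apply]
    generalize (P ^ k) x = y
    rw [hP, Equiv.Perm.mul_apply]
  have hex : ∀ s, ∃ n, α ((P ^ n) (η s)) ∈ Set.range η := by
    intro s
    have hm : 0 < orderOf P := orderOf_pos P
    refine ⟨orderOf P - 1, hr _ ?_⟩
    rw [← hPs, Nat.sub_add_cancel hm, pow_orderOf_eq_one]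
    exact ⟨s, rfl⟩
  obtain ⟨n, hn⟩ : ∃ n : S → ℕ, n = fun s => Nat.find (hex s) := ⟨_, rfl⟩
  have hn1 : ∀ s, α ((P ^ (n s)) (η s)) ∈ Set.range η := by
    intro s
    rw [hn]
    exact Nat.find_spec (hex s)
  have hn2 : ∀ s k, k < n s → α ((P ^ k) (η s)) ∉ Set.range η := by
    intro s k hk
    rw [hn] at hk
    exact Nat.find_min (hex s) hk
  choose τ hτ using hn1
  have hnr : ∀ s k, 1 ≤ k → k ≤ n s → (P ^ k) (η s) ∉ Set.range η := by
    intro s k h1 h2 h3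
    obtain ⟨k, rfl⟩ : ∃ k', k = k' + 1 := ⟨k - 1, by omega⟩
    rw [hPs] at h3
    exact hn2 s k (by omega) (hr _ h3)
  have hrev : ∀ s j, j ≤ n s → (P ^ j) (η (τ s)) = α ((P ^ (n s - j)) (η s)) := by
    intro s j
    induction j with
    | zero =>
      intro _
      rw [Nat.sub_zero, ← hτ]
      rfl
    | succ j ih =>
      intro hj
      rw [hPs, ih (by omega), hα]
      obtain ⟨k, hk⟩ : ∃ k, n s - j = k + 1 := ⟨n s - j - 1, by omega⟩
      rw [hk, hPs, hγ _ (hn2 s k (by omega)), show n s - (j + 1) = k by omega]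
  have hnt : ∀ s, n (τ s) = n s := by
    intro s
    have h : n (τ s) = Nat.find (hex (τ s)) := by rw [hn]
    rw [h, Nat.find_eq_iff]
    constructor
    · rw [hrev s _ le_rfl, hα, Nat.sub_self]
      exact ⟨s, rfl⟩
    · intro k hk h3
      rw [hrev s k hk.le, hα] at h3
      exact hnr s (n s - k) (by omega) (by omega) h3
  have hinv : ∀ s, τ (τ s) = s := by
    intro s
    apply hη
    rw [hτ, hnt, hrev s _ le_rfl, hα, Nat.sub_self]
    rfl
  obtain ⟨D, hD1, hD2⟩ : ∃ D : TD S, (∀ s, D.τ s = τ s) ∧ (∀ s, D.ℓ s = n s + 1) :=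
    ⟨⟨⟨τ, τ, hinv, hinv⟩, fun s => n s + 1, hinv, fun s => Nat.succ_pos _,
      fun s => by
        change n (τ s) + 1 = n s + 1
        rw [hnt]⟩, fun _ => rfl, fun _ => rfl⟩
  refine ⟨D, fun p => (P ^ p.1.2) (η p.1.1), ?_, ?_, ?_, ?_⟩
  · have key : ∀ s s' j j', j ≤ j' → j' < D.ℓ s' → (P ^ j) (η s) = (P ^ j') (η s') →
        s = s' ∧ j = j' := by
      intro s s' j j' h1 h2 h3
      rw [hD2] at h2
      obtain ⟨d, rfl⟩ := Nat.exists_eq_add_of_le h1
      rw [pow_add, Equiv.Perm.mul_apply] at h3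
      have h4 := (P ^ j).injective h3
      have hd : d = 0 := by
        by_contra hd
        exact hnr s' d (by omega) (by omega) (h4 ▸ ⟨s, rfl⟩)
      subst hd
      exact ⟨hη h4, rfl⟩
    intro p p' h
    obtain ⟨s, j, hj, rfl⟩ := TD.exists_pt p
    obtain ⟨s', j', hj', rfl⟩ := TD.exists_pt p'
    change (P ^ j) (η s) = (P ^ j') (η s') at h
    rcases le_total j j' with h1 | h1
    · obtain ⟨h2, h3⟩ := key s s' j j' h1 hj' h
      exact TD.pt_ext h2 h3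
    · obtain ⟨h2, h3⟩ := key s' s j' j h1 hj h.symm
      exact TD.pt_ext h2.symm h3.symm
  · intro s
    rfl
  · intro p
    obtain ⟨s, j, hj, rfl⟩ := TD.exists_pt p
    rw [D.al_pt hj]
    change (P ^ (D.ℓ s - 1 - j)) (η (D.τ s)) = α ((P ^ j) (η s))
    rw [hD2] at hj
    rw [hD1, hD2, hrev s _ (by omega), show n s - (n s + 1 - 1 - j) = j by omega]
  · intro p
    obtain ⟨s, j, hj, rfl⟩ := TD.exists_pt p
    by_cases h0 : j = 0
    · subst h0
      rw [TD.pt_zero, D.ga_base]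
      exact (hg s).symm
    · rw [D.ga_pt g hj h0]
      change (P ^ (D.ℓ s - j)) (η (D.τ s)) = γ ((P ^ j) (η s))
      rw [hD2] at hj
      obtain ⟨k, rfl⟩ : ∃ k', j = k' + 1 := ⟨j - 1, by omega⟩
      rw [hD1, hD2, hrev s _ (by omega), hPs, hγ _ (hn2 s k (by omega)),
        show n s - (n s + 1 - (k + 1)) = k by omega]

theorem fold_fpf {X S : Type} (α γ : Equiv.Perm X) (g : Equiv.Perm S) (D : TD S) (w : D.T → X)
    (hw : Function.Injective w) (h1 : ∀ p, w (D.al p) = α (w p))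
    (h2 : ∀ p, w (D.ga g p) = γ (w p)) (hα : ∀ x, α x ≠ x)
    (hγ : ∀ x, (∀ s, w (D.base s) ≠ x) → γ x ≠ x) : ∀ s, D.τ s ≠ s := by
  intro s hs
  have hp := D.pos s
  rcases Nat.even_or_odd' (D.ℓ s) with ⟨k, hk | hk⟩
  · have hj : k < D.ℓ s := by omega
    have hk0 : k ≠ 0 := by omega
    refine hγ (w (D.pt s k hj)) ?_ ?_
    · intro s' h
      exact hk0 (TD.pt_inj (hw h)).2.symm
    · rw [← h2, D.ga_pt g hj hk0]
      exact congrArg w (TD.pt_ext hs (by omega))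
  · have hj : k < D.ℓ s := by omega
    refine hα (w (D.pt s k hj)) ?_
    rw [← h1, D.al_pt hj]
    exact congrArg w (TD.pt_ext hs (by omega))

end Pool.Agent.Helper84.MVA
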