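import Mathlib

/-!
MV-A10 (sums in `ENNReal`).

PROOF of `pi_tsum`.  Induction on the finite type `κ` (`Fintype.induction_empty_option`) or prove it
for `Fin n → ℕ+` by induction on `n` with `Fin.consEquiv`/`Fin.insertNthEquiv`,
`ENNReal.tsum_prod`, `ENNReal.tsum_mul_left`, `ENNReal.tsum_mul_right`, then transport along
`Fintype.equivFin κ`.
PROOF of `geom_tsum`.  `∑_{n ≥ 1} q^n = q/(1-q)`, `q = exp (-(t p)) < 1`
(`tsum_geometric_of_lt_one`, `ENNReal.ofReal_tsum_of_nonneg`, `tsum_pnat..`/`PNat` equivalence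
`Equiv.pnatEquivNat`).
-/

namespace Pool.Agent.Helper84.MVA

open Finset

theorem pi_tsum {κ : Type} [Fintype κ] (f : κ → ℕ+ → ENNReal) :
    ∑' m : κ → ℕ+, ∏ c, f c (m c) = ∏ c, ∑' n : ℕ+, f c n := by
  refine Fintype.induction_empty_option
    (P := fun (α : Type) (_ : Fintype α) => ∀ f : α → ℕ+ → ENNReal,
      ∑' m : α → ℕ+, ∏ c, f c (m c) = ∏ c, ∑' n : ℕ+, f c n) ?_ ?_ ?_ κ f
  · intro α β _ e h f
    letI : Fintype α := Fintype.ofEquiv β e.symm
    have h1 := h (fun a => f (e a))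
    have h2 : ∑' m : β → ℕ+, ∏ c, f c (m c) = ∑' m : α → ℕ+, ∏ a, f (e a) (m a) := by
      rw [← (Equiv.arrowCongr e (Equiv.refl ℕ+)).tsum_eq]
      refine tsum_congr fun m => ?_
      refine (Fintype.prod_equiv e _ _ fun a => ?_).symm
      simp [Equiv.arrowCongr]
    rw [h2, h1]
    exact Fintype.prod_equiv e _ _ fun a => rfl
  · intro f
    simp
  · intro α _ h f
    rw [Fintype.prod_option, ← h (fun a => f (some a)), ← ENNReal.tsum_mul_right]
    rw [← (Equiv.piOptionEquivProd (β := fun _ : Option α => ℕ+)).symm.tsum_eq, ENNReal.tsum_prod']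
    refine tsum_congr fun n => ?_
    rw [← ENNReal.tsum_mul_left]
    refine tsum_congr fun m => ?_
    rw [Fintype.prod_option]
    rfl

theorem geom_tsum (t : ℝ) (ht : 0 < t) (p : ℕ) (hp : 0 < p) :
    ∑' n : ℕ+, ENNReal.ofReal (Real.exp (-(t * ((p : ℝ) * (n : ℕ))))) =
      ENNReal.ofReal (1 / (Real.exp (t * p) - 1)) := by
  set q : ℝ := Real.exp (-(t * p)) with hq
  have hp' : (0 : ℝ) < p := Nat.cast_pos.mpr hp
  have hq0 : 0 < q := Real.exp_pos _
  have hq1 : q < 1 := by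
    rw [hq, Real.exp_lt_one_iff]
    have := mul_pos ht hp'
    linarith
  have h1 : ∀ n : ℕ+, ENNReal.ofReal (Real.exp (-(t * ((p : ℝ) * (n : ℕ))))) =
      (fun k : ℕ => (ENNReal.ofReal q) ^ k) n := by
    intro n
    show _ = (ENNReal.ofReal q) ^ (n : ℕ)
    rw [← ENNReal.ofReal_pow hq0.le, hq, ← Real.exp_nat_mul]
    congr 2
    ring
  rw [tsum_congr h1, tsum_pnat_eq_tsum_succ (f := fun k : ℕ => (ENNReal.ofReal q) ^ k),
    ENNReal.tsum_geometric_add_one]
  have h2 : (1 : ENNReal) - ENNReal.ofReal q = ENNReal.ofReal (1 - q) := by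
    rw [ENNReal.ofReal_sub _ hq0.le, ENNReal.ofReal_one]
  rw [h2, ← ENNReal.ofReal_inv_of_pos (by linarith), ← ENNReal.ofReal_mul hq0.le]
  congr 1
  have h3 : Real.exp (t * p) = q⁻¹ := by
    rw [hq, Real.exp_neg, inv_inv]
  rw [h3]
  have h4 : (1 : ℝ) - q ≠ 0 := by linarith
  have h5 : q⁻¹ - 1 ≠ 0 := by
    have : q⁻¹ - 1 = (1 - q) / q := by field_simp
    rw [this]
    exact div_ne_zero h4 hq0.ne'
  have h6 : q⁻¹ - 1 = (1 - q) / q := by field_simp
  rw [h6]
  field_simp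

end Pool.Agent.Helper84.MVA
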