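import Pool.Agent.Helper84.MVA.Height
import Pool.Agent.Helper84.MVA.PiSum

/-!
MV-A11 (sum over the gluing data of a permutation `l`).  Uses `card_AT`, `AT_csz`,
`exists_heightEq`, `pi_tsum`, `geom_tsum`.

PROOF.  `{D : TD Y // IsGl l D} ≃ Σ β : {β // IsPairing β}, Σ t : AT l β.1, HT l t.1`:
`D ↦ (glBeta, D.τ, D.ℓ)`; conversely `(β, t, m)` gives `D = ⟨t, m, ..⟩`, `IsGl l D` holds:
`t y ≠ y` and `l (t y) ≠ y` since `cyc l (t y) = β (cyc l y) ≠ cyc l y`
(`cyc_apply`).  `glBeta` of it is `β` (`cyc_surj`).  `AT l β` is empty unless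
`csz l (β f) = csz l f` for all `f` (`AT_csz`).  `Nat.card D.T = ∑ y, D.ℓ y` (`D.T` is
`Σ y, Fin (D.ℓ y)`).  So with `exists_heightEq`
`∑'_D F (glBeta D) ofReal (exp (-(t * card / 2)))`
`= ∑'_β F β ∑'_{t' : AT l β} ∑'_{n : Cyc β → ℕ+} ofReal (exp (-(t * ∑_c csz * n_c)))`
`= ∑'_β F β (card AT) ∏_c ∑'_{n : ℕ+} ofReal (exp (-(t csz_c n)))`  (`pi_tsum`,
`Real.exp_sum`, `ENNReal.ofReal_prod_of_nonneg`)
`= ∑'_β F β ∏_c csz_c ∏_c ofReal (1/(exp (t csz_c) - 1))`, and `csz l c.rep > 0` (`Y` finite, the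
cycle contains its representative).  The sum over the finite type `AT l β` of a constant is
`Nat.card * constant` (`tsum_fintype`/`ENNReal.tsum_const`..).
-/

namespace Pool.Agent.Helper84.MVA

open Pool.Agent.Helper60.MV Finset

/-- weight of a cylinder of circumference `p` -/
noncomputable def wt (t : ℝ) (p : ℕ) : ℝ := (p : ℝ) / (Real.exp (t * p) - 1)

/-- parameters of the gluing data -/
private abbrev Par {Y : Type} (l : Equiv.Perm Y) : Type :=
  Σ β : {β : Equiv.Perm (Cyc l) // IsPairing β ∧ ∀ f, csz l (β f) = csz l f},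
    Σ t : AT l β.1, HT l t.1

private def toGl {Y : Type} {l : Equiv.Perm Y} (β : Equiv.Perm (Cyc l)) (hβ : IsPairing β)
    (t : AT l β) (m : HT l t.1) : {D : TD Y // IsGl l D} :=
  ⟨⟨t.1, m.1, t.2.1, m.2.1, m.2.2.1⟩,
    { fpf := fun y h => by
        have h1 := t.2.2.2 y
        have h2 : t.1 y = y := h
        rw [h2] at h1
        exact hβ.fpf _ h1.symm
      anti := t.2.2.1
      fpf' := fun y h => by
        have h1 := t.2.2.2 y
        have h2 : l (t.1 y) = y := h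
        rw [← cyc_apply (t.1 y), h2] at h1
        exact hβ.fpf _ h1.symm
      hl := m.2.2.2 }⟩

private theorem glBeta_toGl {Y : Type} {l : Equiv.Perm Y} (β : Equiv.Perm (Cyc l))
    (hβ : IsPairing β) (t : AT l β) (m : HT l t.1) : glBeta (toGl β hβ t m).2 = β := by
  ext c
  obtain ⟨y, rfl⟩ := cyc_surj c
  rw [glBeta_cyc]
  exact t.2.2.2 y

private theorem toGl_bij {Y : Type} (l : Equiv.Perm Y) :
    Function.Bijective (fun x : Par l => toGl x.1.1 x.1.2.1 x.2.1 x.2.2) := by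
  constructor
  · rintro ⟨⟨β, hβ⟩, t, m⟩ ⟨⟨β', hβ'⟩, t', m'⟩ h
    have h1 : t.1 = t'.1 := congrArg (fun D : {D : TD Y // IsGl l D} => D.1.τ) h
    have h2 : m.1 = m'.1 := congrArg (fun D : {D : TD Y // IsGl l D} => D.1.ℓ) h
    have h3 : β = β' := by
      ext c
      obtain ⟨y, rfl⟩ := cyc_surj c
      rw [← t.2.2.2 y, ← t'.2.2.2 y, h1]
    subst h3
    have h4 : t = t' := Subtype.ext h1
    subst h4
    have h5 : m = m' := Subtype.ext h2
    subst h5
    rfl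
  · rintro ⟨D, hD⟩
    refine ⟨⟨⟨glBeta hD, glBeta_pairing hD, fun f => ?_⟩,
      ⟨D.τ, D.inv, hD.anti, fun y => (glBeta_cyc hD y).symm⟩, ⟨D.ℓ, D.pos, D.sym, hD.hl⟩⟩, rfl⟩
    exact AT_csz l (glBeta hD) ⟨D.τ, D.inv, hD.anti, fun y => (glBeta_cyc hD y).symm⟩ f

private theorem card_T {Y : Type} [Fintype Y] (D : TD Y) : Nat.card D.T = ∑ y, D.ℓ y := by
  have e : D.T ≃ Σ y : Y, Fin (D.ℓ y) :=
    { toFun := fun p => ⟨p.1.1, ⟨p.1.2, p.2⟩⟩
      invFun := fun p => ⟨(p.1, p.2.1), p.2.2⟩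
      left_inv := fun p => rfl
      right_inv := fun p => rfl }
  rw [Nat.card_congr e, Nat.card_eq_fintype_card, Fintype.card_sigma]
  simp

private theorem csz_pos {Y : Type} [Fintype Y] (l : Equiv.Perm Y) (f : Cyc l) : 0 < csz l f := by
  unfold csz
  haveI : Nonempty {y : Y // cyc l y = f} := ⟨⟨f.rep, cyc_rep f⟩⟩
  exact Nat.card_pos

theorem glue_sum {Y : Type} [Fintype Y] (l : Equiv.Perm Y) (t : ℝ) (ht : 0 < t)
    (F : Equiv.Perm (Cyc l) → ENNReal) :
    ∑' D : {D : TD Y // IsGl l D}, F (glBeta D.2) *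
      ENNReal.ofReal (Real.exp (-(t * ((Nat.card D.1.T : ℝ) / 2)))) =
    ∑' β : {β : Equiv.Perm (Cyc l) // IsPairing β ∧ ∀ f, csz l (β f) = csz l f},
      F β.1 * ∏ c : Cyc β.1, ENNReal.ofReal (wt t (csz l c.rep)) := by
  classical
  rw [← (Equiv.ofBijective _ (toGl_bij l)).tsum_eq, ENNReal.tsum_sigma']
  refine tsum_congr fun β => ?_
  rw [ENNReal.tsum_sigma']
  obtain ⟨β, hβ, hcs⟩ := β
  -- the sum over the heights
  have key : ∀ t' : AT l β, ∑' m : HT l t'.1,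
      (F (glBeta (toGl β hβ t' m).2) *
        ENNReal.ofReal (Real.exp (-(t * ((Nat.card (toGl β hβ t' m).1.T : ℝ) / 2))))) =
      F β * ∏ c : Cyc β, ENNReal.ofReal (1 / (Real.exp (t * (csz l c.rep : ℕ)) - 1)) := by
    intro t'
    obtain ⟨G, hG⟩ := exists_heightEq l β hβ t'
    have h1 : ∀ m : HT l t'.1,
        F (glBeta (toGl β hβ t' m).2) *
          ENNReal.ofReal (Real.exp (-(t * ((Nat.card (toGl β hβ t' m).1.T : ℝ) / 2)))) =
        F β * ∏ c : Cyc β, ENNReal.ofReal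
          (Real.exp (-(t * ((csz l c.rep : ℕ) * ((G m c : ℕ+) : ℕ))))) := by
      intro m
      rw [glBeta_toGl]
      congr 1
      have h2 : (Nat.card (toGl β hβ t' m).1.T : ℝ) / 2 =
          ∑ c : Cyc β, ((csz l c.rep : ℕ) : ℝ) * ((G m c : ℕ+) : ℕ) := by
        have h3 : Nat.card (toGl β hβ t' m).1.T =
            2 * ∑ c : Cyc β, csz l c.rep * ((G m c : ℕ+) : ℕ) := by
          rw [card_T]
          exact hG m
        rw [h3]
        push_cast
        ring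
      rw [h2, mul_sum, ← sum_neg_distrib, Real.exp_sum, ENNReal.ofReal_prod_of_nonneg]
      intro c _
      exact (Real.exp_pos _).le
    rw [tsum_congr h1, ENNReal.tsum_mul_left]
    congr 1
    rw [G.tsum_eq (fun n : Cyc β → ℕ+ => ∏ c : Cyc β, ENNReal.ofReal
          (Real.exp (-(t * ((csz l c.rep : ℕ) * ((n c : ℕ+) : ℕ))))))]
    rw [pi_tsum (fun (c : Cyc β) (n : ℕ+) => ENNReal.ofReal
          (Real.exp (-(t * ((csz l c.rep : ℕ) * (n : ℕ))))))]
    refine prod_congr rfl fun c _ => ?_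
    exact geom_tsum t ht _ (csz_pos l _)
  have hfin : Finite (AT l β) := inferInstanceAs (Finite {t : Equiv.Perm Y //
    (∀ y, t (t y) = y) ∧ (∀ y, t (l (t y)) = l.symm y) ∧ ∀ y, cyc l (t y) = β (cyc l y)})
  letI : Fintype (AT l β) := Fintype.ofFinite _
  have e1 : ∑' t' : AT l β, ∑' m : HT l t'.1,
      (F (glBeta (toGl β hβ t' m).2) *
        ENNReal.ofReal (Real.exp (-(t * ((Nat.card (toGl β hβ t' m).1.T : ℝ) / 2))))) =
      (Nat.card (AT l β) : ENNReal) *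
        (F β * ∏ c : Cyc β, ENNReal.ofReal (1 / (Real.exp (t * (csz l c.rep : ℕ)) - 1))) := by
    rw [tsum_congr key, tsum_fintype, sum_const, card_univ, nsmul_eq_mul,
      Nat.card_eq_fintype_card]
  refine e1.trans ?_
  rw [card_AT l β hβ hcs, mul_left_comm]
  congr 1
  rw [Nat.cast_prod, ← prod_mul_distrib]
  refine prod_congr rfl fun c _ => ?_
  rw [← ENNReal.ofReal_natCast, ← ENNReal.ofReal_mul (Nat.cast_nonneg _)]
  congr 1
  unfold wt
  ring

end Pool.Agent.Helper84.MVA
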