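import Pool.Agent.Helper84.MVA.Anti

/-!
MV-A9 (heights of the cylinders).

A height function is a function on the cylinders; sum of a height function.
-/

namespace Pool.Agent.Helper84.MVA

open Pool.Agent.Helper60.MV Finset

/-- height functions -/
def HT {Y : Type} (l t : Equiv.Perm Y) : Type :=
  {m : Y → ℕ // (∀ y, 0 < m y) ∧ (∀ y, m (t y) = m y) ∧ ∀ y, m (l y) = m y}

private theorem hc_zpow {Y A : Type} (g : Equiv.Perm Y) (m : Y → A) (h : ∀ y, m (g y) = m y)
    (k : ℤ) (y : Y) : m ((g ^ k) y) = m y := by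
  have hs : ∀ y, m (g.symm y) = m y := fun y => by
    have := h (g.symm y)
    rw [Equiv.apply_symm_apply] at this
    exact this.symm
  induction k using Int.induction_on generalizing y with
  | zero => simp
  | succ i ih =>
    rw [zpow_add_one, Equiv.Perm.mul_apply, ih, h]
  | pred i ih =>
    rw [zpow_sub_one, Equiv.Perm.mul_apply, ih]
    exact hs y

private theorem hc_cyc {Y A : Type} (g : Equiv.Perm Y) (m : Y → A) (h : ∀ y, m (g y) = m y)
    {y z : Y} (e : cyc g y = cyc g z) : m y = m z := by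
  obtain ⟨k, rfl⟩ := cyc_eq_iff.1 e
  exact (hc_zpow g m h k y).symm

private theorem hc_two {F : Type} {β : Equiv.Perm F} (hβ : ∀ f, β (β f) = f) {f g : F}
    (h : cyc β f = cyc β g) : g = f ∨ g = β f := by
  obtain ⟨k, hk⟩ := cyc_eq_iff.1 h
  have h2 : β ^ (2 : ℤ) = 1 := by
    ext x
    simpa [zpow_ofNat, sq] using hβ x
  rcases Int.even_or_odd' k with ⟨j, hj | hj⟩
  · left
    rw [← hk, hj, zpow_mul, h2, one_zpow]
    rfl
  · right
    rw [← hk, hj, zpow_add, zpow_mul, h2, one_zpow]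
    simp

theorem exists_heightEq {Y : Type} [Fintype Y] (l : Equiv.Perm Y) (β : Equiv.Perm (Cyc l))
    (hβ : IsPairing β) (t : AT l β) :
    ∃ F : HT l t.1 ≃ (Cyc β → ℕ+), ∀ m : HT l t.1,
      ∑ y, m.1 y = 2 * ∑ c : Cyc β, csz l c.rep * (F m c : ℕ) := by
  classical
  have hkey : ∀ (m : HT l t.1) (y : Y), m.1 y = m.1 (cyc β (cyc l y)).rep.rep := by
    intro m y
    have h1 : ∀ f : Cyc l, m.1 (β f).rep = m.1 f.rep := by
      intro f
      rw [← m.2.2.1 f.rep]
      refine hc_cyc l m.1 m.2.2.2 ?_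
      rw [cyc_rep, t.2.2.2, cyc_rep]
    have h2 : m.1 (cyc l y).rep = m.1 (cyc β (cyc l y)).rep.rep :=
      hc_cyc β (fun f : Cyc l => m.1 f.rep) h1 (by rw [cyc_rep])
    rw [← h2]
    exact hc_cyc l m.1 m.2.2.2 (by rw [cyc_rep])
  let F : HT l t.1 ≃ (Cyc β → ℕ+) :=
    { toFun := fun m c => ⟨m.1 c.rep.rep, m.2.1 _⟩
      invFun := fun n => ⟨fun y => (n (cyc β (cyc l y)) : ℕ), fun y => (n _).pos, fun y => by
        show ((n (cyc β (cyc l (t.1 y))) : ℕ+) : ℕ) = n (cyc β (cyc l y))
        rw [t.2.2.2, cyc_apply], fun y => by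
        show ((n (cyc β (cyc l (l y))) : ℕ+) : ℕ) = n (cyc β (cyc l y))
        rw [cyc_apply]⟩
      left_inv := fun m => Subtype.ext (funext fun y => (hkey m y).symm)
      right_inv := fun n => funext fun c => PNat.eq (by
        show ((n (cyc β (cyc l c.rep.rep)) : ℕ+) : ℕ) = n c
        rw [cyc_rep, cyc_rep]) }
  refine ⟨F, fun m => ?_⟩
  have hF : ∀ c, ((F m c : ℕ+) : ℕ) = m.1 c.rep.rep := fun c => rfl
  have e1 : ∑ y, m.1 y = ∑ f : Cyc l, csz l f * (F m (cyc β f) : ℕ) := by
    rw [← Finset.sum_fiberwise univ (fun y => cyc l y)]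
    refine Finset.sum_congr rfl fun f _ => ?_
    rw [Finset.sum_congr rfl (g := fun _ => (F m (cyc β f) : ℕ)) (fun y hy => by
      rw [hF, hkey m y, (Finset.mem_filter.1 hy).2])]
    rw [Finset.sum_const, smul_eq_mul]
    congr 1
    rw [csz, Nat.card_eq_fintype_card, Fintype.card_subtype]
  have e2 : ∑ f : Cyc l, csz l f * (F m (cyc β f) : ℕ)
      = ∑ c : Cyc β, 2 * (csz l c.rep * (F m c : ℕ)) := by
    rw [← Finset.sum_fiberwise univ (fun f => cyc β f)]
    refine Finset.sum_congr rfl fun c _ => ?_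
    have hfib : (univ.filter fun f : Cyc l => cyc β f = c) = {c.rep, β c.rep} := by
      ext f
      simp only [Finset.mem_filter, Finset.mem_univ, true_and, Finset.mem_insert,
        Finset.mem_singleton]
      constructor
      · intro h
        refine hc_two hβ.invol ?_
        rw [cyc_rep, h]
      · rintro (h | h)
        · rw [h, cyc_rep]
        · rw [h, cyc_apply, cyc_rep]
    rw [hfib, Finset.sum_pair (fun h => hβ.fpf _ h.symm), AT_csz l β t, cyc_apply, cyc_rep]
    ring
  rw [e1, e2, Finset.mul_sum]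

end Pool.Agent.Helper84.MVA
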