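import Pool.Agent.Helper84.MVA.Double

/-!
MV-A2 (RIGIDITY OF TOWERS).

PROOF.  Step 1: by induction on `j`, for all `s` with `j < D.ℓ s`, `j < D'.ℓ s`:
`w (pt s j) = w' (pt s j)` (`TD.ga_al_pt`: `pt s (j+1) = ga g (al (pt s j))`, so
`w (pt s (j+1)) = γ (α (w (pt s j)))`, the same for `w'`).
Step 2: `D.ℓ s = D'.ℓ s`.  Suppose `n + 1 = D.ℓ s < D'.ℓ s`.  Then by `TD.al_top`
`w (al (pt s n)) = w (base (τ s)) = w' (base (τ s))`, and `w' (al (pt s n)) = α (w' (pt s n)) =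
α (w (pt s n)) = w (al (pt s n))`; so by injectivity of `w'`, `D'.al (pt s n) = D'.base (τ s)`, but
`D'.al (pt s n) = pt (τ' s) (D'.ℓ s - 1 - n)` with `D'.ℓ s - 1 - n ≥ 1`: contradiction (`pt_inj`).
Symmetric for `>`.  Then also `τ s = τ' s` (both tops are in the base).
Step 3: `TD.ext` (`τ`, `ℓ`; the other fields are proofs).
-/

namespace Pool.Agent.Helper84.MVA

open Pool.Agent.Helper60.MV

private theorem rigid_step {X S : Type} (D D' : TD S) (α γ : Equiv.Perm X) (g : Equiv.Perm S)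
    (w : D.T → X) (w' : D'.T → X)
    (hb : ∀ s, w (D.base s) = w' (D'.base s))
    (h1 : ∀ p, w (D.al p) = α (w p)) (h2 : ∀ p, w (D.ga g p) = γ (w p))
    (h1' : ∀ p, w' (D'.al p) = α (w' p)) (h2' : ∀ p, w' (D'.ga g p) = γ (w' p))
    (s : S) (j : ℕ) : ∀ (h : j < D.ℓ s) (h' : j < D'.ℓ s),
      w (D.pt s j h) = w' (D'.pt s j h') := by
  induction j with
  | zero => intro h h'; exact hb s
  | succ j ih =>
    intro h h'
    rw [← D.ga_al_pt g h, ← D'.ga_al_pt g h', h2, h2', h1, h1', ih]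

private theorem rigid_top {X S : Type} (D D' : TD S) (α γ : Equiv.Perm X) (g : Equiv.Perm S)
    (w : D.T → X) (w' : D'.T → X) (hw' : Function.Injective w')
    (hb : ∀ s, w (D.base s) = w' (D'.base s))
    (h1 : ∀ p, w (D.al p) = α (w p)) (h2 : ∀ p, w (D.ga g p) = γ (w p))
    (h1' : ∀ p, w' (D'.al p) = α (w' p)) (h2' : ∀ p, w' (D'.ga g p) = γ (w' p))
    (s : S) (n : ℕ) (hn : n + 1 = D.ℓ s) (h' : n < D'.ℓ s) :
    D'.τ s = D.τ s ∧ D'.ℓ s - 1 - n = 0 := by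
  have e1 : w (D.al (D.pt s n (by omega))) = w' (D'.base (D.τ s)) := by
    rw [D.al_top hn, hb]
  have e2 : w' (D'.al (D'.pt s n h')) = w' (D'.base (D.τ s)) := by
    rw [h1', ← rigid_step D D' α γ g w w' hb h1 h2 h1' h2' s n (by omega) h', ← h1, e1]
  have e3 := hw' e2
  rw [D'.al_pt h'] at e3
  exact TD.pt_inj e3

private theorem rigid_le {X S : Type} (D D' : TD S) (α γ : Equiv.Perm X) (g : Equiv.Perm S)
    (w : D.T → X) (w' : D'.T → X) (hw' : Function.Injective w')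
    (hb : ∀ s, w (D.base s) = w' (D'.base s))
    (h1 : ∀ p, w (D.al p) = α (w p)) (h2 : ∀ p, w (D.ga g p) = γ (w p))
    (h1' : ∀ p, w' (D'.al p) = α (w' p)) (h2' : ∀ p, w' (D'.ga g p) = γ (w' p))
    (s : S) : D'.ℓ s ≤ D.ℓ s := by
  by_contra hlt
  have hp := D.pos s
  have := (rigid_top D D' α γ g w w' hw' hb h1 h2 h1' h2' s (D.ℓ s - 1) (by omega)
    (by omega)).2
  omega

theorem rigid {X S : Type} (D D' : TD S) (α γ : Equiv.Perm X) (g : Equiv.Perm S)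
    (w : D.T → X) (w' : D'.T → X) (hw : Function.Injective w) (hw' : Function.Injective w')
    (hb : ∀ s, w (D.base s) = w' (D'.base s))
    (h1 : ∀ p, w (D.al p) = α (w p)) (h2 : ∀ p, w (D.ga g p) = γ (w p))
    (h1' : ∀ p, w' (D'.al p) = α (w' p)) (h2' : ∀ p, w' (D'.ga g p) = γ (w' p)) :
    D = D' ∧ ∀ s j (h : j < D.ℓ s) (h' : j < D'.ℓ s), w (D.pt s j h) = w' (D'.pt s j h') := by
  have hl : ∀ s, D.ℓ s = D'.ℓ s := fun s => le_antisymm
    (rigid_le D' D α γ g w' w hw (fun s => (hb s).symm) h1' h2' h1 h2 s)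
    (rigid_le D D' α γ g w w' hw' hb h1 h2 h1' h2' s)
  refine ⟨?_, fun s j h h' => rigid_step D D' α γ g w w' hb h1 h2 h1' h2' s j h h'⟩
  refine TD.ext ?_ (funext hl)
  ext s
  have hp := D.pos s
  have hl' := hl s
  exact (rigid_top D D' α γ g w w' hw' hb h1 h2 h1' h2' s (D.ℓ s - 1) (by omega)
    (by omega)).1.symm

end Pool.Agent.Helper84.MVA
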