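import Pool.Agent.Helper84.MVA.GlueSum

/-!
MV-A13 (summability of `SM`).

PROOF.  `w / (exp w - 1) ≤ exp (-(w/2))` for `w > 0` (as `w ≤ 2 sinh (w/2)`), so
`wt t p ≤ (1/t) exp (-(t p / 2))` (also for `p = 0`: `0/0 = 0`), `wt ≥ 0`.  With
`p_{c,b} = ∑_e P c b e * l e`: if `p_{c,false} = p_{c,true}` for all `c` then
`∑_c p_{c,false} = (1/2) ∑_c (p_{c,false} + p_{c,true}) = ∑_e l e` (`hcol`), so the term is at most
`(1/t)^|κ| ∏_e exp (-(t/2) * l e)`, which is summable over `ι → ℕ+`.  (In `ENNReal`: the sum of the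
bounds is finite by `pi_tsum`, `geom_tsum`.)  Then `ENNReal.ofReal_tsum_of_nonneg`,
`ENNReal.ofReal_prod_of_nonneg`.
-/

namespace Pool.Agent.Helper84.MVA

open Pool.Agent.Helper60.MV Finset

private theorem summ_wt_nonneg (t : ℝ) (ht : 0 < t) (p : ℕ) : 0 ≤ wt t p := by
  unfold wt
  refine div_nonneg (Nat.cast_nonneg p) ?_
  have : 1 ≤ Real.exp (t * p) := Real.one_le_exp (by positivity)
  linarith

private theorem summ_wt_le (t : ℝ) (ht : 0 < t) (p : ℕ) :
    wt t p ≤ (1 / t) * Real.exp (-(t / 2 * p)) := by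
  unfold wt
  rcases Nat.eq_zero_or_pos p with rfl | hp
  · simp only [Nat.cast_zero, zero_div]
    positivity
  · have hp' : (0:ℝ) < p := Nat.cast_pos.2 hp
    have hw : 0 < t * p := by positivity
    have h1 : t * p / 2 ≤ Real.sinh (t * p / 2) := Real.self_le_sinh_iff.2 (by positivity)
    rw [Real.sinh_eq] at h1
    have h2 : Real.exp (t * p) = Real.exp (t * p / 2) * Real.exp (t * p / 2) := by
      rw [← Real.exp_add]
      congr 1
      ring
    have h3 : Real.exp (-(t / 2 * p)) * Real.exp (t * p / 2) = 1 := by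
      rw [← Real.exp_add, Real.exp_eq_one_iff]
      ring
    have h4 : 0 < Real.exp (t * p) - 1 := by
      have := Real.add_one_lt_exp hw.ne'
      linarith
    have h7 : Real.exp (-(t / 2 * p)) = Real.exp (-(t * p / 2)) := by
      congr 1
      ring
    have h5 : Real.exp (-(t / 2 * p)) * (Real.exp (t * p) - 1) =
        Real.exp (t * p / 2) - Real.exp (-(t * p / 2)) := by
      rw [h2, mul_sub, ← mul_assoc, h3, one_mul, mul_one, h7]
    rw [div_le_iff₀ h4, mul_assoc, h5, one_div, ← div_eq_inv_mul, le_div_iff₀ ht]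
    linarith

private theorem summ_term_le {ι κ : Type} [Fintype ι] [Fintype κ] (P : κ → Bool → ι → ℕ)
    (hcol : ∀ e, ∑ c, (P c false e + P c true e) = 2) (t : ℝ) (ht : 0 < t) (l : ι → ℕ+)
    (h : ∀ c, ∑ e, P c false e * (l e : ℕ) = ∑ e, P c true e * (l e : ℕ)) :
    ∏ c : κ, wt t (∑ e, P c false e * (l e : ℕ)) ≤
      (1 / t) ^ (Fintype.card κ) * ∏ e, Real.exp (-(t / 2 * (((1 : ℕ) : ℝ) * (l e : ℕ)))) := by
  have hsum : ∑ c, ∑ e, P c false e * (l e : ℕ) = ∑ e, (l e : ℕ) := by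
    have h2 : 2 * ∑ c, ∑ e, P c false e * (l e : ℕ) = 2 * ∑ e, (l e : ℕ) := by
      calc 2 * ∑ c, ∑ e, P c false e * (l e : ℕ)
          = ∑ c, ∑ e, P c false e * (l e : ℕ) + ∑ c, ∑ e, P c true e * (l e : ℕ) := by
            rw [two_mul]
            congr 1
            exact Finset.sum_congr rfl fun c _ => h c
        _ = ∑ c, ∑ e, (P c false e + P c true e) * (l e : ℕ) := by
            rw [← Finset.sum_add_distrib]
            refine Finset.sum_congr rfl fun c _ => ?_
            rw [← Finset.sum_add_distrib]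
            exact Finset.sum_congr rfl fun e _ => (add_mul _ _ _).symm
        _ = ∑ e, (∑ c, (P c false e + P c true e)) * (l e : ℕ) := by
            rw [Finset.sum_comm]
            exact Finset.sum_congr rfl fun e _ => (Finset.sum_mul _ _ _).symm
        _ = 2 * ∑ e, (l e : ℕ) := by
            rw [Finset.mul_sum]
            exact Finset.sum_congr rfl fun e _ => by rw [hcol]
    omega
  calc ∏ c : κ, wt t (∑ e, P c false e * (l e : ℕ))
      ≤ ∏ c : κ, ((1 / t) * Real.exp (-(t / 2 * ((∑ e, P c false e * (l e : ℕ) : ℕ) : ℝ)))) :=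
        Finset.prod_le_prod (fun c _ => summ_wt_nonneg t ht _) (fun c _ => summ_wt_le t ht _)
    _ = (1 / t) ^ (Fintype.card κ) * ∏ e, Real.exp (-(t / 2 * (((1 : ℕ) : ℝ) * (l e : ℕ)))) := by
        rw [Finset.prod_mul_distrib, Finset.prod_const, Finset.card_univ, ← Real.exp_sum,
          ← Real.exp_sum]
        congr 2
        rw [Finset.sum_neg_distrib, Finset.sum_neg_distrib, ← Finset.mul_sum, ← Finset.mul_sum,
          ← Nat.cast_sum, hsum]
        simp

theorem ofReal_SM {ι κ : Type} [Fintype ι] [Fintype κ] (P : κ → Bool → ι → ℕ)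
    (hcol : ∀ e, ∑ c, (P c false e + P c true e) = 2) (t : ℝ) (ht : 0 < t) :
    0 ≤ SM P t ∧ ENNReal.ofReal (SM P t) = ∑' l : ι → ℕ+, (by
      classical
      exact if ∀ c, ∑ e, P c false e * (l e : ℕ) = ∑ e, P c true e * (l e : ℕ) then
        ∏ c : κ, ENNReal.ofReal (wt t (∑ e, P c false e * (l e : ℕ))) else 0) := by
  classical
  let f : (ι → ℕ+) → ℝ := fun l =>
    if ∀ c, ∑ e, P c false e * (l e : ℕ) = ∑ e, P c true e * (l e : ℕ) then
      ∏ c : κ, wt t (∑ e, P c false e * (l e : ℕ)) else 0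
  have hfl : ∀ l, f l =
    if ∀ c, ∑ e, P c false e * (l e : ℕ) = ∑ e, P c true e * (l e : ℕ) then
      ∏ c : κ, wt t (∑ e, P c false e * (l e : ℕ)) else 0 := fun l => rfl
  have hf0 : ∀ l, 0 ≤ f l := by
    intro l
    rw [hfl]
    split_ifs with h
    · exact Finset.prod_nonneg fun c _ => summ_wt_nonneg t ht _
    · exact le_rfl
  have hSM : SM P t = ∑' l, f l := by
    unfold SM
    refine tsum_congr fun l => ?_
    rw [hfl]
    by_cases h : ∀ c, ∑ e, P c false e * (l e : ℕ) = ∑ e, P c true e * (l e : ℕ)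
    · rw [if_pos h, if_pos h]
      rfl
    · rw [if_neg h, if_neg h]
  have hfin : ∑' l, ENNReal.ofReal (f l) ≠ ⊤ := by
    have hle : ∑' l, ENNReal.ofReal (f l) ≤ ∑' l : ι → ℕ+,
        ENNReal.ofReal ((1 / t) ^ (Fintype.card κ)) *
          ∏ e, ENNReal.ofReal (Real.exp (-(t / 2 * (((1 : ℕ) : ℝ) * (l e : ℕ))))) := by
      refine ENNReal.tsum_le_tsum fun l => ?_
      rw [← ENNReal.ofReal_prod_of_nonneg (fun e _ => (Real.exp_pos _).le),
        ← ENNReal.ofReal_mul (by positivity)]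
      refine ENNReal.ofReal_le_ofReal ?_
      rw [hfl]
      split_ifs with h
      · exact summ_term_le P hcol t ht l h
      · exact mul_nonneg (by positivity) (Finset.prod_nonneg fun e _ => (Real.exp_pos _).le)
    refine ne_top_of_le_ne_top ?_ hle
    rw [ENNReal.tsum_mul_left, pi_tsum (fun _ n => ENNReal.ofReal
      (Real.exp (-(t / 2 * (((1 : ℕ) : ℝ) * (n : ℕ))))))]
    refine ENNReal.mul_ne_top ENNReal.ofReal_ne_top (ENNReal.prod_ne_top fun e _ => ?_)
    rw [geom_tsum (t / 2) (by positivity) 1 one_pos]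
    exact ENNReal.ofReal_ne_top
  have hsumm : Summable f := by
    have h1 := ENNReal.summable_toReal hfin
    refine h1.congr fun l => ?_
    rw [ENNReal.toReal_ofReal (hf0 l)]
  refine ⟨by rw [hSM]; exact tsum_nonneg hf0, ?_⟩
  rw [hSM, ENNReal.ofReal_tsum_of_nonneg hf0 hsumm]
  refine tsum_congr fun l => ?_
  rw [hfl]
  by_cases h : ∀ c, ∑ e, P c false e * (l e : ℕ) = ∑ e, P c true e * (l e : ℕ)
  · rw [if_pos h, if_pos h, ENNReal.ofReal_prod_of_nonneg fun c _ => summ_wt_nonneg t ht _]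
  · rw [if_neg h, if_neg h, ENNReal.ofReal_zero]

end Pool.Agent.Helper84.MVA
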