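import Pool.Agent.Helper60.MV.Defs

/-!
Project MV, block A: towers.

`TD S`: a tower datum over `S` (an involution `τ` of `S`, heights `ℓ ≥ 1`, `ℓ ∘ τ = ℓ`).
`D.T`: the tower `{(s, j) : j < ℓ s}`.
`D.al`: the involution `(s, j) ↦ (τ s, ℓ s - 1 - j)`.
`D.ga g`: `(s, 0) ↦ (g s, 0)`, `(s, j) ↦ (τ s, ℓ s - j)` for `j ≥ 1`.
-/

namespace Pool.Agent.Helper84.MVA

open Pool.Agent.Helper60.MV

/-- tower data on `S` -/
@[ext] structure TD (S : Type) where
  τ : Equiv.Perm S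
  ℓ : S → ℕ
  inv : ∀ s, τ (τ s) = s
  pos : ∀ s, 0 < ℓ s
  sym : ∀ s, ℓ (τ s) = ℓ s

namespace TD

variable {S : Type} (D : TD S)

/-- the tower -/
def T : Type := {p : S × ℕ // p.2 < D.ℓ p.1}

/-- an element of the tower -/
def pt (s : S) (j : ℕ) (h : j < D.ℓ s) : D.T := ⟨(s, j), h⟩

/-- the base of the tower -/
def base (s : S) : D.T := D.pt s 0 (D.pos s)

variable {D}

theorem pt_ext {s s' : S} {j j' : ℕ} {h : j < D.ℓ s} {h' : j' < D.ℓ s'} (e1 : s = s')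
    (e2 : j = j') : D.pt s j h = D.pt s' j' h' := by
  subst e1; subst e2; rfl

theorem pt_inj {s s' : S} {j j' : ℕ} {h : j < D.ℓ s} {h' : j' < D.ℓ s'}
    (e : D.pt s j h = D.pt s' j' h') : s = s' ∧ j = j' := by
  have := congrArg Subtype.val e
  exact Prod.mk.inj this

theorem exists_pt (p : D.T) : ∃ s j, ∃ h : j < D.ℓ s, p = D.pt s j h :=
  ⟨p.1.1, p.1.2, p.2, rfl⟩

theorem base_inj : Function.Injective D.base := fun _ _ h => (pt_inj h).1

theorem pt_zero {s : S} (h : 0 < D.ℓ s) : D.pt s 0 h = D.base s := rfl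

variable (D)

/-- the involution of the tower -/
def alFun (p : D.T) : D.T :=
  D.pt (D.τ p.1.1) (D.ℓ p.1.1 - 1 - p.1.2) (by
    have := p.2
    rw [D.sym]
    omega)

theorem alFun_pt {s : S} {j : ℕ} (h : j < D.ℓ s) :
    D.alFun (D.pt s j h) = D.pt (D.τ s) (D.ℓ s - 1 - j) (by rw [D.sym]; omega) := rfl

theorem alFun_alFun (p : D.T) : D.alFun (D.alFun p) = p := by
  obtain ⟨s, j, h, rfl⟩ := exists_pt p
  rw [alFun_pt, alFun_pt]
  refine pt_ext (D.inv s) ?_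
  rw [D.sym]
  omega

/-- the involution of the tower -/
def al : Equiv.Perm D.T := ⟨D.alFun, D.alFun, D.alFun_alFun, D.alFun_alFun⟩

theorem al_pt {s : S} {j : ℕ} (h : j < D.ℓ s) :
    D.al (D.pt s j h) = D.pt (D.τ s) (D.ℓ s - 1 - j) (by rw [D.sym]; omega) := rfl

theorem al_al (p : D.T) : D.al (D.al p) = p := D.alFun_alFun p

/-- the permutation `γ` of the tower, as a function -/
def gaFun (g : Equiv.Perm S) (p : D.T) : D.T :=
  if h : p.1.2 = 0 then D.base (g p.1.1)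
  else D.pt (D.τ p.1.1) (D.ℓ p.1.1 - p.1.2) (by
    have := p.2
    rw [D.sym]
    omega)

theorem gaFun_base (g : Equiv.Perm S) (s : S) : D.gaFun g (D.base s) = D.base (g s) := by
  unfold gaFun
  rw [dif_pos]
  · rfl
  · rfl

theorem gaFun_pt (g : Equiv.Perm S) {s : S} {j : ℕ} (h : j < D.ℓ s) (hj : j ≠ 0) :
    D.gaFun g (D.pt s j h) = D.pt (D.τ s) (D.ℓ s - j) (by rw [D.sym]; omega) := by
  unfold gaFun
  rw [dif_neg]
  · rfl
  · exact hj

theorem gaFun_gaFun_pt (g g' : Equiv.Perm S) {s : S} {j : ℕ} (h : j < D.ℓ s) (hj : j ≠ 0) :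
    D.gaFun g (D.gaFun g' (D.pt s j h)) = D.pt s j h := by
  rw [gaFun_pt _ _ _ hj, gaFun_pt _ _ _ (by omega)]
  refine pt_ext (D.inv s) ?_
  rw [D.sym]
  omega

/-- the permutation `γ` of the tower -/
def ga (g : Equiv.Perm S) : Equiv.Perm D.T where
  toFun := D.gaFun g
  invFun := D.gaFun g.symm
  left_inv p := by
    obtain ⟨s, j, h, rfl⟩ := exists_pt p
    by_cases hj : j = 0
    · subst hj
      rw [pt_zero, gaFun_base, gaFun_base]
      simp
    · exact D.gaFun_gaFun_pt _ _ h hj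
  right_inv p := by
    obtain ⟨s, j, h, rfl⟩ := exists_pt p
    by_cases hj : j = 0
    · subst hj
      rw [pt_zero, gaFun_base, gaFun_base]
      simp
    · exact D.gaFun_gaFun_pt _ _ h hj

theorem ga_base (g : Equiv.Perm S) (s : S) : D.ga g (D.base s) = D.base (g s) :=
  D.gaFun_base g s

theorem ga_pt (g : Equiv.Perm S) {s : S} {j : ℕ} (h : j < D.ℓ s) (hj : j ≠ 0) :
    D.ga g (D.pt s j h) = D.pt (D.τ s) (D.ℓ s - j) (by rw [D.sym]; omega) :=
  D.gaFun_pt g h hj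

theorem ga_ga_pt (g : Equiv.Perm S) {s : S} {j : ℕ} (h : j < D.ℓ s) (hj : j ≠ 0) :
    D.ga g (D.ga g (D.pt s j h)) = D.pt s j h := D.gaFun_gaFun_pt g g h hj

/-- one step up -/
theorem ga_al_pt (g : Equiv.Perm S) {s : S} {j : ℕ} (h : j + 1 < D.ℓ s) :
    D.ga g (D.al (D.pt s j (by omega))) = D.pt s (j + 1) h := by
  rw [al_pt, ga_pt _ _ _ (by omega)]
  refine pt_ext (D.inv s) ?_
  rw [D.sym]
  omega

/-- at the top -/
theorem al_top {s : S} {j : ℕ} (h : j + 1 = D.ℓ s) :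
    D.al (D.pt s j (by omega)) = D.base (D.τ s) := by
  rw [al_pt]
  exact pt_ext rfl (by omega)

theorem ga_al_top (g : Equiv.Perm S) {s : S} {j : ℕ} (h : j + 1 = D.ℓ s) :
    D.ga g (D.al (D.pt s j (by omega))) = D.base (g (D.τ s)) := by
  rw [al_top _ h, ga_base]

theorem al_fpf (h : ∀ s, D.τ s ≠ s) (p : D.T) : D.al p ≠ p := by
  obtain ⟨s, j, hj, rfl⟩ := exists_pt p
  rw [al_pt]
  exact fun e => h s (pt_inj e).1

theorem ga_fpf (h : ∀ s, D.τ s ≠ s) (g : Equiv.Perm S) {s : S} {j : ℕ} (hj : j < D.ℓ s)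
    (h0 : j ≠ 0) : D.ga g (D.pt s j hj) ≠ D.pt s j hj := by
  rw [D.ga_pt g hj h0]
  exact fun e => h s (pt_inj e).1

instance [Finite S] : Finite D.T := by
  classical
  have : Fintype S := Fintype.ofFinite S
  have : Finite (Σ s : S, Fin (D.ℓ s)) := inferInstance
  refine Finite.of_surjective (fun p : Σ s : S, Fin (D.ℓ s) => D.pt p.1 p.2.1 p.2.2) ?_
  intro p
  obtain ⟨s, j, h, rfl⟩ := exists_pt p
  exact ⟨⟨s, ⟨j, h⟩⟩, rfl⟩

end TD

end Pool.Agent.Helper84.MVA
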